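import Pool.Agent.H42.NU.Braid

/-!
# NCU B4: existence of the representation of the braid group

(1) `Monoid (CM F)` with `X * Y = ⟨X.mat + Y.mat - X.mat * F * Y.mat⟩`, `1 = ⟨0⟩` (`mul_assoc` by noncommutative ring
algebra). (Local instance in this file is fine: `noncomputable instance`.)
(2) For `t, t' ∈ R` with `F s s = 1 + t`, `t t' = 1`: the unit `sg s : (CM F)ˣ` with value `⟨single s s 1⟩` and inverse
`⟨single s s t'⟩`; check: `single s s 1 + single s s t' - single s s 1 * F * single s s t' = (1 + t' - (1+t) t') single s s 1 = 0`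
and the same in the other order. Here `R = Lau`, `t = T 1`, `t' = T (-1)`, `F = Fm M pos (T 1)`.
(3) In the group `(CM F)ˣ` the function `L g = g.val.mat` satisfies `IsRep F sg L` (definition). By `L_pr_eq`
(module Braid) and injectivity of `g ↦ g.val.mat` on units, `pr sg s s' m = pr sg s' s m` for `s ≠ s'`, `m = M s s' ≠ 0`
(for `m = 0` both are `1`; for `s = s'` both sides are the same). So `sg` kills the relations `brel M`
(`FreeGroup.lift sg (pr FreeGroup.of s s' n) = pr sg s s' n`, `map_pr` below).
(4) `bg_hom`: for any group `H` and `f : S → H` with `Artin M f` there is `Φ : BG M →* H` with `Φ (bgen M s) = f s`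
(`PresentedGroup.toGroup`, `PresentedGroup.toGroup.of`).
`exists_rep`: `L' x = (Φ x).val.mat` with `Φ : BG M →* (CM F)ˣ`.
`artin_bgen`: `PresentedGroup.of` kills the relations: from `PresentedGroup.one_of_mem` or the quotient map:
`pr (bgen M) s s' n` is the class of `pr FreeGroup.of s s' n`.
`artin_simple`: `Artin M cs.simple` by `dih_top` (module Dih).
-/

set_option autoImplicit false

namespace H42.NU

open LaurentPolynomial

universe u w w'

variable {S : Type u} {M : CoxeterMatrix S}

theorem map_pr {G : Type w} {H : Type w'} [Monoid G] [Monoid H] (φ : G →* H) (f : S → G)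
    (s s' : S) (n : ℕ) : φ (pr f s s' n) = pr (fun i => φ (f i)) s s' n := by
  induction n with
  | zero => exact map_one φ
  | succ n ih =>
    show φ (pr f s s' n * f (lt s s' n)) = pr (fun i => φ (f i)) s s' n * φ (f (lt s s' n))
    rw [map_mul, ih]

theorem bg_hom {H : Type w} [Group H] (f : S → H) (hf : Artin M f) :
    ∃ Φ : BG M →* H, ∀ s, Φ (bgen M s) = f s := by
  have h : ∀ r ∈ brel M, FreeGroup.lift f r = 1 := by
    rintro r ⟨s, s', rfl⟩
    have e : (fun i => FreeGroup.lift f (FreeGroup.of i)) = f := by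
      funext i
      exact FreeGroup.lift_apply_of
    rw [map_mul, map_inv, map_pr, map_pr, e]
    by_cases hs : s = s'
    · rw [hs, mul_inv_cancel]
    · rw [hf s s' hs, mul_inv_cancel]
  exact ⟨PresentedGroup.toGroup h, fun s => PresentedGroup.toGroup.of h⟩

theorem artin_bgen : Artin M (bgen M) := by
  intro s s' _
  have e : (bgen M) = fun i => PresentedGroup.mk (brel M) (FreeGroup.of i) := rfl
  have h : PresentedGroup.mk (brel M)
      (pr FreeGroup.of s s' (M s s') * (pr FreeGroup.of s' s (M s s'))⁻¹) = 1 :=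
    PresentedGroup.one_of_mem ⟨s, s', rfl⟩
  rw [map_mul, map_inv, mul_inv_eq_one, map_pr, map_pr] at h
  rw [e]
  exact h

section CMon
variable {R : Type w} [CommRing R] [Fintype S] [DecidableEq S] {F : Matrix S S R}

omit [CommRing R] [Fintype S] [DecidableEq S] in
private theorem Exist_ext {X Y : CM F} (h : X.mat = Y.mat) : X = Y := by
  cases X
  cases Y
  exact congrArg CM.mk h

private noncomputable instance Exist_mon : Monoid (CM F) where
  mul X Y := ⟨X.mat + Y.mat - X.mat * F * Y.mat⟩
  one := ⟨0⟩
  mul_assoc X Y Z := by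
    refine Exist_ext ?_
    show (X.mat + Y.mat - X.mat * F * Y.mat) + Z.mat -
      (X.mat + Y.mat - X.mat * F * Y.mat) * F * Z.mat =
      X.mat + (Y.mat + Z.mat - Y.mat * F * Z.mat) -
        X.mat * F * (Y.mat + Z.mat - Y.mat * F * Z.mat)
    noncomm_ring
  one_mul X := by
    refine Exist_ext ?_
    show 0 + X.mat - 0 * F * X.mat = X.mat
    simp
  mul_one X := by
    refine Exist_ext ?_
    show X.mat + 0 - X.mat * F * 0 = X.mat
    simp

private theorem Exist_mul (X Y : CM F) : (X * Y).mat = X.mat + Y.mat - X.mat * F * Y.mat := rfl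

private theorem Exist_one : (1 : CM F).mat = 0 := rfl

/-- the generators -/
private noncomputable def Exist_sg (F : Matrix S S R) {t t' : R} (hF : ∀ s, F s s = 1 + t)
    (ht : t * t' = 1) (s : S) : (CM F)ˣ where
  val := ⟨Matrix.single s s 1⟩
  inv := ⟨Matrix.single s s t'⟩
  val_inv := by
    refine Exist_ext ?_
    rw [Exist_mul, Exist_one]
    show Matrix.single s s 1 + Matrix.single s s t' -
      Matrix.single s s 1 * F * Matrix.single s s t' = 0
    rw [Matrix.single_mul_mul_single, hF, ← Matrix.single_add]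
    have e : (1 : R) + t' = 1 * (1 + t) * t' := by
      linear_combination -ht
    exact sub_eq_zero.2 (congrArg (Matrix.single s s) e)
  inv_val := by
    refine Exist_ext ?_
    rw [Exist_mul, Exist_one]
    show Matrix.single s s t' + Matrix.single s s 1 -
      Matrix.single s s t' * F * Matrix.single s s 1 = 0
    rw [Matrix.single_mul_mul_single, hF, ← Matrix.single_add]
    have e : t' + (1 : R) = t' * (1 + t) * 1 := by
      linear_combination -ht
    exact sub_eq_zero.2 (congrArg (Matrix.single s s) e)

private theorem Exist_rep (F : Matrix S S R) {t t' : R} (hF : ∀ s, F s s = 1 + t)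
    (ht : t * t' = 1) : IsRep F (Exist_sg F hF ht) (fun g => g.val.mat) where
  one := rfl
  mul _ _ := rfl
  gen _ := rfl

end CMon

theorem exists_rep [Fintype S] [DecidableEq S] (pos : S → ℕ) (hpos : Function.Injective pos) :
    ∃ L : BG M → Matrix S S Lau, IsRep (Fm M pos (T 1 : Lau)) (bgen M) L := by
  have hF : ∀ s, Fm M pos (T 1 : Lau) s s = 1 + T 1 := fun s => if_pos rfl
  have ht : (T 1 : Lau) * T (-1) = 1 := by
    rw [← T_add]
    exact T_zero
  have hrep := Exist_rep (Fm M pos (T 1 : Lau)) hF ht
  have hA : Artin M (Exist_sg (Fm M pos (T 1 : Lau)) hF ht) := by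
    intro s s' hne
    by_cases h0 : M s s' = 0
    · rw [h0]
      rfl
    · exact Units.ext (Exist_ext (L_pr_eq hrep hpos hne h0))
  obtain ⟨Φ, hΦ⟩ := bg_hom _ hA
  refine ⟨fun x => (Φ x).val.mat, ?_, fun g h => ?_, fun s => ?_⟩
  · show (Φ 1).val.mat = 0
    rw [map_one]
    exact hrep.one
  · show (Φ (g * h)).val.mat = _
    rw [map_mul]
    exact hrep.mul _ _
  · show (Φ (bgen M s)).val.mat = _
    rw [hΦ]
    exact hrep.gen s

end H42.NU
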