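import Pool.Agent.H73.HVN.Parab

/-!
# NCU: definitions

`M` is a Coxeter matrix on `S`, `cs : CoxeterSystem M W`, `W` finite; `G` is a group with elements
`σ s`, `s : S` (later: the braid group), `lift : W → G` the positive lift.
-/

set_option autoImplicit false

namespace H42.NU

open LaurentPolynomial

universe u v w

/-- Laurent polynomials with real coefficients -/
abbrev Lau := LaurentPolynomial ℝ

/-- evaluation of a Laurent polynomial at a real number `t ≠ 0` -/
noncomputable def ev (t : ℝˣ) : Lau →+* ℝ := LaurentPolynomial.eval₂ (RingHom.id ℝ) t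

/-- the letter number `n` of the alternating word `s, s', s, s', ...` -/
def lt {S : Type u} (s s' : S) (n : ℕ) : S := if n % 2 = 0 then s else s'

/-- the product of the first `n` letters of the alternating word `s, s', s, s', ...` -/
def pr {S : Type u} {G : Type w} [Monoid G] (f : S → G) (s s' : S) : ℕ → G
  | 0 => 1
  | n + 1 => pr f s s' n * f (lt s s' n)

/-- the braid relations -/
def Artin {S : Type u} {G : Type w} [Monoid G] (M : CoxeterMatrix S) (f : S → G) : Prop :=
  ∀ s s' : S, s ≠ s' → pr f s s' (M s s') = pr f s' s (M s s')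

/-- `lift : W → G` multiplies the `σ s` along reduced words -/
structure IsLift {S : Type u} {W : Type v} {G : Type w} [Group W] [Monoid G] {M : CoxeterMatrix S}
    (cs : CoxeterSystem M W) (σ : S → G) (lift : W → G) : Prop where
  one : lift 1 = 1
  step : ∀ w s, ¬ cs.IsRightDescent w s → lift (w * cs.simple s) = lift w * σ s

/-- the numbers `2 cos (π / m)` -/
noncomputable def kk {S : Type u} (M : CoxeterMatrix S) (i j : S) : ℝ :=
  2 * Real.cos (Real.pi / M i j)

/-- the matrix `F`; `t = T 1` in the ring of Laurent polynomials or `t` a real number -/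
noncomputable def Fm {S : Type u} [DecidableEq S] {R : Type w} [CommRing R] [Algebra ℝ R]
    (M : CoxeterMatrix S) (pos : S → ℕ) (t : R) : Matrix S S R :=
  Matrix.of fun i j => if i = j then 1 + t else
    -(algebraMap ℝ R (kk M i j) * (if pos j < pos i then t else 1))

/-- a representation of `G` in cocycle form -/
structure IsRep {S : Type u} [Fintype S] [DecidableEq S] {G : Type w} [Group G] {R : Type v}
    [CommRing R] (F : Matrix S S R) (σ : S → G) (L : G → Matrix S S R) : Prop where
  one : L 1 = 0
  mul : ∀ g h, L (g * h) = L g + L h - L g * F * L h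
  gen : ∀ s, L (σ s) = Matrix.single s s 1

/-- the constant bilinear form `E(x, y)` -/
noncomputable def Ef {S : Type u} [Fintype S] [DecidableEq S] (M : CoxeterMatrix S) (pos : S → ℕ)
    (x y : S → ℝ) : ℝ := ∑ i, ∑ j, x i * Fm M pos (0 : ℝ) i j * y j

/-- `L = β βᵀ` with a constant vector `β` -/
def Rank1 {S : Type u} (L : Matrix S S Lau) (β : S → ℝ) : Prop :=
  ∀ i j, L i j = C (β i * β j)

/-- a Hurwitz move on lists of elements of a group -/
inductive HMove {G : Type w} [Group G] : List G → List G → Prop
  | move (l r : List G) (a b : G) : HMove (l ++ a :: b :: r) (l ++ b :: (b⁻¹ * a * b) :: r)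

/-- the elements of `G` which occur in the Hurwitz orbit of the tuple `(σ s)`, `s` in `l` -/
def dg {S : Type u} {G : Type w} [Group G] (σ : S → G) (l : List S) : Set G :=
  {θ | ∃ τ : List G, Relation.EqvGen HMove (l.map σ) τ ∧ θ ∈ τ}

/-- the subgroup of `G` generated by the `σ s`, `s` in `J` -/
def GP {S : Type u} {G : Type w} [Group G] (σ : S → G) (J : Set S) : Subgroup G :=
  Subgroup.closure (σ '' J)

/-- the vectors of the covers of `u` in the parabolic subgroup of `l` -/
def Cov {S : Type u} {W : Type v} {G : Type w} [Group G] (σ : S → G) (lift : W → G)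
    (L : G → Matrix S S Lau) (l : List S) (u : W) : Set (S → ℝ) :=
  {β | (∀ q, 0 ≤ β q) ∧ ∃ θ ∈ dg σ l, ∃ w : W, lift u * θ = lift w ∧ Rank1 (L θ) β}

/-- the matrix whose columns are the vectors `y_b(u)`, `b = (p, v)` -/
noncomputable def Ym {S : Type u} [Fintype S] [DecidableEq S] {W : Type v} {G : Type w} [Group G]
    (F : Matrix S S Lau) (L : G → Matrix S S Lau) (lift : W → G) (u v : W) : Matrix S S Lau :=
  1 - F * L ((lift u)⁻¹ * lift v)

/-- the dual cone of the leading coefficient vectors of the `y_b(u)` -/
def Dual {S : Type u} [Fintype S] [DecidableEq S] {W : Type v} {G : Type w} [Group W] [Group G]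
    {M : CoxeterMatrix S} (cs : CoxeterSystem M W) (F : Matrix S S Lau) (L : G → Matrix S S Lau)
    (lift : W → G) (l : List S) (u : W) : Set (S → ℝ) :=
  {β | (∀ q, q ∉ l → β q = 0) ∧
    ∀ v ∈ Pool.Agent.H73.HVN.WP cs {s | s ∈ l}, ∀ p ∈ l, ∀ m : ℕ,
      (∀ q ∈ l, ∀ n : ℤ, n < -(m : ℤ) → (Ym F L lift u v q p).coeff n = 0) →
      0 ≤ ∑ q, β q * (Ym F L lift u v q p).coeff (-(m : ℤ))}

/-- the coordinate number `s` of a vector is replaced by `0` -/
def pj {S : Type u} [DecidableEq S] (s : S) (β : S → ℝ) : S → ℝ := Function.update β s 0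

/-- the matrix `M` of the reflection step, acting on row vectors: `β ↦ β ∘ M` -/
noncomputable def rf {S : Type u} [Fintype S] [DecidableEq S] (M : CoxeterMatrix S) (s : S)
    (β : S → ℝ) : S → ℝ :=
  Function.update β s (-β s + ∑ i ∈ Finset.univ.erase s, kk M i s * β i)

/-- `u_0 = 0`, `u_1 = 1`, `u_{n+2} = k u_{n+1} - u_n` -/
noncomputable def us (k : ℝ) : ℕ → ℝ
  | 0 => 0
  | 1 => 1
  | n + 2 => k * us k (n + 1) - us k n

/-- matrices with the product `X + Y - X F Y` -/
structure CM {S : Type u} {R : Type w} (F : Matrix S S R) where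
  /-- the matrix -/
  mat : Matrix S S R

/-- the relations of the braid group -/
def brel {S : Type u} (M : CoxeterMatrix S) : Set (FreeGroup S) :=
  {r | ∃ s s' : S, r = pr FreeGroup.of s s' (M s s') * (pr FreeGroup.of s' s (M s s'))⁻¹}

/-- the braid group -/
abbrev BG {S : Type u} (M : CoxeterMatrix S) := PresentedGroup (brel M)

/-- the generators of the braid group -/
def bgen {S : Type u} (M : CoxeterMatrix S) (s : S) : BG M := PresentedGroup.of s

/-- one step of the rewriting system on the chambers -/
def Rw {S : Type u} {W : Type v} [Group W] {M : CoxeterMatrix S} (cs : CoxeterSystem M W)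
    (f : W → S → ℝ) (v v' : W) : Prop := ∃ s, v' = v * cs.simple s ∧ f v s < 0

/-- no negative powers of `t` -/
def Intg {S : Type u} (X : Matrix S S Lau) : Prop := ∀ i j, ∀ n : ℤ, n < 0 → (X i j).coeff n = 0

end H42.NU
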