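import Pool.Agent.H42.NU.Defs

/-!
# NCU B2: the closed formula for the roots of a dihedral subgroup

Let `A(g) = 1 - L g * F` (so `A(g h) = A(g) A(h)`, `A(1) = 1`), `e_i = Pi.single i 1`. For a generator:
`A(σ s) e_j = e_j - F s j • e_s` (as `L (σ s) = single s s 1`), so `A(σ s) e_s = -t e_s` (`F s s = 1 + t`).
Let `s ≠ s'`, `k = kk M s s' = kk M s' s` (`M.symmetric`), `F s s' = -(k a)`, `F s' s = -(k b)` with
`a = if pos s' < pos s then t else 1`, `b = if pos s < pos s' then t else 1`, and `a b = t` as `pos s ≠ pos s'`.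
Put `R_n = A(pr σ s s' n) e_{lt s s' n}`, `u_n = us k n`. Claim (`n = 2j`, `n = 2j+1`):
 `R_{2j} = u_{2j+1} t^j e_s + u_{2j} t^{j-1} b e_{s'}`,  `R_{2j+1} = u_{2j+2} t^j a e_s + u_{2j+1} t^j e_{s'}`
(natural subtraction; `u_0 = 0`). Recursion: `A(σ_{lt(n+1)}) e_{lt(n+2)} = e_{lt n} - F_{lt(n+1), lt n} e_{lt(n+1)}`
(`lt (n+2) = lt n`), so
 `R_{n+2} = A(pr (n+1)) e_{lt n} - F_{lt(n+1), lt n} R_{n+1} = -t R_n - F_{lt(n+1), lt n} R_{n+1}`
(`A(pr (n+1)) e_{lt n} = A(pr n) A(σ_{lt n}) e_{lt n} = -t R_n`). Start: `R_0 = e_s`, `R_1 = e_{s'} + k a e_s`.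
For `n = 2j`: `F_{lt(n+1), lt n} = F s' s = -k b`: `R_{2j+2} = -t R_{2j} + k b R_{2j+1}`;
`e_s`: `-t^{j+1} u_{2j+1} + k t^{j+1} u_{2j+2} = t^{j+1} u_{2j+3}`; `e_{s'}`: `-t·t^{j-1} b u_{2j} + k b t^j u_{2j+1} = t^j b u_{2j+2}`
(for `j = 0` the first term is `0` since `u_0 = 0`). For `n = 2j+1`: `F_{lt(n+1), lt n} = F s s' = -k a`:
`R_{2j+3} = -t R_{2j+1} + k a R_{2j+2}`; `e_s`: `-t^{j+1} a u_{2j+2} + k a t^{j+1} u_{2j+3} = t^{j+1} a u_{2j+4}`; `e_{s'}`:
`-t^{j+1} u_{2j+1} + k a t^j b u_{2j+2} = t^{j+1} u_{2j+3}`. Prove both formulas together by induction on `j`.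
`us_sin`: `us (2 cos φ) n * sin φ = sin (n φ)` by induction (`sin ((n+2)φ) + sin (n φ) = 2 cos φ sin ((n+1) φ)`).
-/

set_option autoImplicit false

namespace H42.NU

universe u v w

variable {S : Type u} [Fintype S] [DecidableEq S] {R : Type v} [CommRing R] [Algebra ℝ R]
  {G : Type w} [Group G] {M : CoxeterMatrix S} {pos : S → ℕ} {t : R} {σ : S → G}
  {L : G → Matrix S S R}

theorem us_sin (φ : ℝ) (n : ℕ) : us (2 * Real.cos φ) n * Real.sin φ = Real.sin (n * φ) := by
  induction n using Nat.strong_induction_on with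
  | _ n ih =>
    match n, ih with
    | 0, _ => simp [us]
    | 1, _ => simp [us]
    | n + 2, ih =>
      have h1 := ih (n + 1) (by omega)
      have h2 := ih n (by omega)
      have h3 : us (2 * Real.cos φ) (n + 2) =
        2 * Real.cos φ * us (2 * Real.cos φ) (n + 1) - us (2 * Real.cos φ) n := rfl
      have h4 : Real.sin (((n + 2 : ℕ) : ℝ) * φ) =
          2 * Real.cos φ * Real.sin (((n + 1 : ℕ) : ℝ) * φ) - Real.sin ((n : ℝ) * φ) := by
        have e1 : ((n + 2 : ℕ) : ℝ) * φ = ((n + 1 : ℕ) : ℝ) * φ + φ := by push_cast; ring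
        have e2 : (n : ℝ) * φ = ((n + 1 : ℕ) : ℝ) * φ - φ := by push_cast; ring
        rw [e1, e2, Real.sin_add, Real.sin_sub]
        ring
      rw [h3, h4, ← h1, ← h2]
      ring

private theorem alt_gen {F : Matrix S S R} (h : IsRep F σ L) (x y : S) :
    Matrix.mulVec (1 - L (σ x) * F) (Pi.single y 1) =
      (Pi.single y 1 : S → R) - F x y • (Pi.single x 1 : S → R) := by
  rw [h.gen, Matrix.sub_mulVec, Matrix.one_mulVec, ← Matrix.mulVec_mulVec]
  congr 1
  funext i
  rw [Matrix.mulVec_single_one, Pi.smul_apply, smul_eq_mul, Matrix.mulVec, dotProduct,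
    Finset.sum_eq_single x]
  · rw [Matrix.single_apply]
    by_cases hi : i = x
    · subst hi
      simp
    · rw [Pi.single_eq_of_ne hi, if_neg (fun h => hi h.1.symm), zero_mul, mul_zero]
  · intro j _ hj
    rw [Matrix.single_apply, if_neg (fun h => hj h.2.symm), zero_mul]
  · intro hx
    exact absurd (Finset.mem_univ x) hx

private theorem alt_rec {F : Matrix S S R} (h : IsRep F σ L) (s s' : S) (n : ℕ) (x : R)
    (hF : F (lt s s' n) (lt s s' n) = 1 + x) :
    Matrix.mulVec (1 - L (pr σ s s' (n + 2)) * F) (Pi.single (lt s s' n) 1) =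
      -x • Matrix.mulVec (1 - L (pr σ s s' n) * F) (Pi.single (lt s s' n) 1) -
      F (lt s s' (n + 1)) (lt s s' n) •
        Matrix.mulVec (1 - L (pr σ s s' (n + 1)) * F) (Pi.single (lt s s' (n + 1)) 1) := by
  have am : ∀ g k : G, 1 - L (g * k) * F = (1 - L g * F) * (1 - L k * F) := by
    intro g k
    rw [h.mul]
    noncomm_ring
  have e1 : pr σ s s' (n + 2) = pr σ s s' (n + 1) * σ (lt s s' (n + 1)) := rfl
  have e2 : pr σ s s' (n + 1) = pr σ s s' n * σ (lt s s' n) := rfl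
  have e3 : Matrix.mulVec (1 - L (pr σ s s' (n + 1)) * F) (Pi.single (lt s s' n) 1) =
      -x • Matrix.mulVec (1 - L (pr σ s s' n) * F) (Pi.single (lt s s' n) 1) := by
    rw [e2, am, ← Matrix.mulVec_mulVec, alt_gen h, hF, Matrix.mulVec_sub, Matrix.mulVec_smul]
    module
  rw [e1, am, ← Matrix.mulVec_mulVec, alt_gen h, Matrix.mulVec_sub, Matrix.mulVec_smul, e3]

private theorem alt_both (h : IsRep (Fm M pos t) σ L) (hpos : Function.Injective pos) {s s' : S}
    (hne : s ≠ s') (j : ℕ) :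
    (Matrix.mulVec (1 - L (pr σ s s' (2 * j)) * Fm M pos t) (Pi.single s 1) =
      (algebraMap ℝ R (us (kk M s s') (2 * j + 1)) * t ^ j) • (Pi.single s 1 : S → R) +
      (algebraMap ℝ R (us (kk M s s') (2 * j)) * t ^ (j - 1) *
        (if pos s < pos s' then t else 1)) • (Pi.single s' 1 : S → R)) ∧
    (Matrix.mulVec (1 - L (pr σ s s' (2 * j + 1)) * Fm M pos t) (Pi.single s' 1) =
      (algebraMap ℝ R (us (kk M s s') (2 * j + 2)) * t ^ j *
        (if pos s' < pos s then t else 1)) • (Pi.single s 1 : S → R) +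
      (algebraMap ℝ R (us (kk M s s') (2 * j + 1)) * t ^ j) • (Pi.single s' 1 : S → R)) := by
  obtain ⟨a, ha⟩ : ∃ a : R, a = if pos s' < pos s then t else 1 := ⟨_, rfl⟩
  obtain ⟨b, hb⟩ : ∃ b : R, b = if pos s < pos s' then t else 1 := ⟨_, rfl⟩
  obtain ⟨k, hk⟩ : ∃ k : ℝ, k = kk M s s' := ⟨_, rfl⟩
  have hab : a * b = t := by
    rcases lt_trichotomy (pos s) (pos s') with hlt | heq | hgt
    · rw [ha, hb, if_neg hlt.not_gt, if_pos hlt, one_mul]
    · exact absurd (hpos heq) hne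
    · rw [ha, hb, if_pos hgt, if_neg hgt.not_gt, mul_one]
  have hFss : ∀ x, Fm M pos t x x = 1 + t := fun x => by
    unfold Fm
    rw [Matrix.of_apply, if_pos rfl]
  have hF1 : Fm M pos t s s' = -(algebraMap ℝ R k * a) := by
    unfold Fm
    rw [Matrix.of_apply, if_neg hne, hk, ha]
  have hF2 : Fm M pos t s' s = -(algebraMap ℝ R k * b) := by
    unfold Fm
    rw [Matrix.of_apply, if_neg hne.symm, hk, hb]
    unfold kk
    rw [M.symmetric s' s]
  rw [← ha, ← hb, ← hk]
  have l0 : ∀ j, lt s s' (2 * j) = s := fun j => by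
    unfold lt
    rw [if_pos (by omega)]
  have l1 : ∀ j, lt s s' (2 * j + 1) = s' := fun j => by
    unfold lt
    rw [if_neg (by omega)]
  have us2 : ∀ n, algebraMap ℝ R (us k (n + 2)) =
      algebraMap ℝ R k * algebraMap ℝ R (us k (n + 1)) - algebraMap ℝ R (us k n) := fun n => by
    rw [← map_mul, ← map_sub]
    rfl
  induction j with
  | zero =>
    constructor
    · have e1 : pr σ s s' (2 * 0) = 1 := rfl
      have e2 : us k (2 * 0 + 1) = 1 := rfl
      have e3 : us k (2 * 0) = 0 := rfl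
      rw [e1, h.one, Matrix.zero_mul, sub_zero, Matrix.one_mulVec, e2, e3, map_one, map_zero]
      simp
    · have e1 : pr σ s s' (2 * 0 + 1) = σ s := one_mul _
      have e2 : us k (2 * 0 + 1) = 1 := rfl
      have e3 : us k (2 * 0 + 2) = k := by
        show k * 1 - 0 = k
        ring
      rw [e1, alt_gen h, hF1, e2, e3, map_one, pow_zero]
      module
  | succ j ih =>
    obtain ⟨ih1, ih2⟩ := ih
    have r1 := alt_rec h s s' (2 * j) t (hFss _)
    rw [l0, l1, ih1, ih2, hF2] at r1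
    have g1 : Matrix.mulVec (1 - L (pr σ s s' (2 * (j + 1))) * Fm M pos t) (Pi.single s 1) =
      (algebraMap ℝ R (us k (2 * (j + 1) + 1)) * t ^ (j + 1)) • (Pi.single s 1 : S → R) +
      (algebraMap ℝ R (us k (2 * (j + 1))) * t ^ (j + 1 - 1) * b) • (Pi.single s' 1 : S → R) := by
      have e1 : 2 * (j + 1) = 2 * j + 2 := by ring
      rw [e1, r1]
      have e2 := us2 (2 * j + 1)
      have e3 := us2 (2 * j)
      rw [show 2 * j + 2 + 1 = 2 * j + 1 + 2 by ring, e2, e3, Nat.add_sub_cancel]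
      have e4 : algebraMap ℝ R (us k (2 * j)) * t ^ (j - 1) * t =
          algebraMap ℝ R (us k (2 * j)) * t ^ j := by
        rcases j with _ | j
        · have : us k (2 * 0) = 0 := rfl
          rw [this, map_zero, zero_mul, zero_mul]
        · rw [Nat.add_sub_cancel, mul_assoc, ← pow_succ]
      funext i
      simp only [Pi.add_apply, Pi.sub_apply, Pi.smul_apply, smul_eq_mul]
      generalize (Pi.single s 1 : S → R) i = X
      generalize (Pi.single s' 1 : S → R) i = Y
      linear_combination (-b * Y) * e4 + (algebraMap ℝ R k * (algebraMap ℝ R k *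
        algebraMap ℝ R (us k (2 * j + 1)) - algebraMap ℝ R (us k (2 * j))) * t ^ j * X) * hab
    refine ⟨g1, ?_⟩
    have r2 := alt_rec h s s' (2 * j + 1) t (hFss _)
    rw [l1, show 2 * j + 1 + 1 = 2 * (j + 1) by ring, l0, ih2, g1, hF1] at r2
    have e1 : 2 * (j + 1) + 1 = 2 * j + 1 + 2 := by ring
    rw [e1, r2]
    have e2 := us2 (2 * (j + 1))
    have e3 := us2 (2 * j + 1)
    rw [e2, e1, Nat.add_sub_cancel]
    rw [show 2 * j + 1 + 1 = 2 * j + 2 by ring] at e3
    rw [show 2 * (j + 1) = 2 * j + 2 by ring, show 2 * j + 2 + 1 = 2 * j + 1 + 2 by ring, e3]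
    funext i
    simp only [Pi.add_apply, Pi.sub_apply, Pi.smul_apply, smul_eq_mul]
    generalize (Pi.single s 1 : S → R) i = X
    generalize (Pi.single s' 1 : S → R) i = Y
    linear_combination (algebraMap ℝ R k * algebraMap ℝ R (us k (2 * j + 2)) * t ^ j * Y) * hab

theorem alt_even (h : IsRep (Fm M pos t) σ L) (hpos : Function.Injective pos) {s s' : S}
    (hne : s ≠ s') (j : ℕ) :
    Matrix.mulVec (1 - L (pr σ s s' (2 * j)) * Fm M pos t) (Pi.single s 1) =
      (algebraMap ℝ R (us (kk M s s') (2 * j + 1)) * t ^ j) • (Pi.single s 1 : S → R) +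
      (algebraMap ℝ R (us (kk M s s') (2 * j)) * t ^ (j - 1) *
        (if pos s < pos s' then t else 1)) • (Pi.single s' 1 : S → R) :=
  (alt_both h hpos hne j).1

theorem alt_odd (h : IsRep (Fm M pos t) σ L) (hpos : Function.Injective pos) {s s' : S}
    (hne : s ≠ s') (j : ℕ) :
    Matrix.mulVec (1 - L (pr σ s s' (2 * j + 1)) * Fm M pos t) (Pi.single s' 1) =
      (algebraMap ℝ R (us (kk M s s') (2 * j + 2)) * t ^ j *
        (if pos s' < pos s then t else 1)) • (Pi.single s 1 : S → R) +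
      (algebraMap ℝ R (us (kk M s s') (2 * j + 1)) * t ^ j) • (Pi.single s' 1 : S → R) :=
  (alt_both h hpos hne j).2

end H42.NU
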