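import Pool.Agent.H42.NU.Defs

/-!
# NCU B1: consequences of `IsRep`

`F` is a square matrix over a commutative ring, `L (g h) = L g + L h - L g * F * L h`. Pure (noncommutative) matrix
algebra (`noncomm_ring` or `Matrix.mul_sub`, `Matrix.mul_assoc`, `abel`).
* `am_mul`, `rm_mul`, `mul_left`, `mul_right`, `am_F`: direct.
* `am_inv`: `am_mul` with `g g⁻¹ = 1`, `L 1 = 0`. `inv_eq`: from `0 = L (g⁻¹ g) = L g⁻¹ + (1 - L g⁻¹ F) L g`.
* `gen_inv`: let `X = L (σ s)⁻¹`. `0 = L ((σ s)⁻¹ σ s) = X + E - X F E` and `0 = E + X - E F X` with `E = single s s 1`.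
  The candidate `Y = single s s t'` satisfies `E + Y - E F Y = (1 + t' - (1 + t) t') E = (1 - t t') E = 0`
  (`(E F Y) = F s s t' E`). Then `X = X + (1 - X F)(E + Y - E F Y) = (X + E - X F E) + (1 - (X + E - X F E) F) Y = Y`
  (associativity of the product `X ∘ Y = X + Y - X F Y`).
* `rank1_inv`: the same computation with `E` replaced by `β βᵀ`, `βᵀ F β = 1 + t`: `L θ⁻¹ = t' β βᵀ`.
* `conj_rank1`: `L (h⁻¹ θ h) = (1 - L h⁻¹ F) (L θ) (1 - F L h)`: expand `L (h⁻¹ θ h) = L h⁻¹ + (1 - L h⁻¹ F) L (θ h)`,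
  `L (θ h) = L h + L θ (1 - F L h)`, and `L h⁻¹ + (1 - L h⁻¹ F) L h = L (h⁻¹ h) = 0`.
* `map_rep`: apply the ring homomorphism to the three equations (`Matrix.map_mul`, `Matrix.map_add`, ...).
* `Fm_ev`: `ev t (T 1) = t` (`eval₂_T`), `ev t (algebraMap r) = r` (`eval₂_C`).
-/

set_option autoImplicit false

namespace H42.NU

open LaurentPolynomial

universe u v w

variable {S : Type u} [Fintype S] [DecidableEq S] {R : Type v} [CommRing R] {G : Type w} [Group G]
  {F : Matrix S S R} {σ : S → G} {L : G → Matrix S S R}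

theorem am_mul (h : IsRep F σ L) (g k : G) :
    1 - L (g * k) * F = (1 - L g * F) * (1 - L k * F) := by
  rw [h.mul]
  noncomm_ring

theorem rm_mul (h : IsRep F σ L) (g k : G) :
    1 - F * L (g * k) = (1 - F * L g) * (1 - F * L k) := by
  rw [h.mul]
  noncomm_ring

theorem mul_left' (h : IsRep F σ L) (g k : G) : L (g * k) = L g + (1 - L g * F) * L k := by
  rw [h.mul]
  noncomm_ring

theorem mul_right' (h : IsRep F σ L) (g k : G) : L (g * k) = L k + L g * (1 - F * L k) := by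
  rw [h.mul]
  noncomm_ring

theorem am_inv (h : IsRep F σ L) (g : G) : (1 - L g * F) * (1 - L g⁻¹ * F) = 1 := by
  rw [← am_mul h, mul_inv_cancel, h.one, Matrix.zero_mul, sub_zero]

theorem am_inv' (h : IsRep F σ L) (g : G) : (1 - L g⁻¹ * F) * (1 - L g * F) = 1 := by
  rw [← am_mul h, inv_mul_cancel, h.one, Matrix.zero_mul, sub_zero]

private theorem basic_inv_unique (h : IsRep F σ L) (g : G) (Y : Matrix S S R)
    (hY : L g + Y - L g * F * Y = 0) : L g⁻¹ = Y := by
  have h1 : L g⁻¹ + L g - L g⁻¹ * F * L g = 0 := by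
    rw [← h.mul, inv_mul_cancel, h.one]
  have h2 : L g⁻¹ + (1 - L g⁻¹ * F) * (L g + Y - L g * F * Y) =
      (L g⁻¹ + L g - L g⁻¹ * F * L g) + Y - (L g⁻¹ + L g - L g⁻¹ * F * L g) * F * Y := by
    noncomm_ring
  rw [hY, h1] at h2
  simpa using h2

theorem gen_inv (h : IsRep F σ L) {s : S} {t t' : R} (hF : F s s = 1 + t) (ht : t * t' = 1) :
    L (σ s)⁻¹ = Matrix.single s s t' := by
  apply basic_inv_unique h
  have h1 : 1 * (1 + t) * t' = 1 + t' := by linear_combination ht
  rw [h.gen, Matrix.single_mul_mul_single, hF, ← Matrix.single_add, h1, sub_self]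

theorem rank1_inv (h : IsRep F σ L) {θ : G} {β : S → R} {t t' : R}
    (hθ : L θ = Matrix.vecMulVec β β) (hβ : ∑ i, ∑ j, β i * F i j * β j = 1 + t)
    (ht : t * t' = 1) : L θ⁻¹ = t' • Matrix.vecMulVec β β := by
  apply basic_inv_unique h
  have h1 : Matrix.vecMulVec β β * F * Matrix.vecMulVec β β =
      (1 + t) • Matrix.vecMulVec β β := by
    ext i j
    rw [Matrix.smul_apply, smul_eq_mul, ← hβ]
    simp only [Matrix.mul_apply, Matrix.vecMulVec_apply, Finset.sum_mul]
    rw [Finset.sum_comm]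
    refine Finset.sum_congr rfl fun k _ => ?_
    refine Finset.sum_congr rfl fun l _ => ?_
    ring
  rw [hθ, Matrix.mul_smul, h1, smul_smul, ← one_smul R (Matrix.vecMulVec β β), smul_smul, smul_smul,
    ← add_smul, ← sub_smul]
  have h2 : (1 : R) + t' * 1 - t' * (1 + t) * 1 = 0 := by linear_combination -ht
  rw [h2, zero_smul]

theorem conj_rank1 (h : IsRep F σ L) (g θ : G) :
    L (g⁻¹ * θ * g) = (1 - L g⁻¹ * F) * L θ * (1 - F * L g) := by
  have h1 : L g⁻¹ + (1 - L g⁻¹ * F) * L g = 0 := by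
    rw [← mul_left' h, inv_mul_cancel, h.one]
  rw [mul_assoc g⁻¹ θ g, mul_left' h g⁻¹ (θ * g), mul_right' h θ g]
  have h2 : L g⁻¹ + (1 - L g⁻¹ * F) * (L g + L θ * (1 - F * L g)) =
      (L g⁻¹ + (1 - L g⁻¹ * F) * L g) + (1 - L g⁻¹ * F) * L θ * (1 - F * L g) := by
    noncomm_ring
  rw [h2, h1, zero_add]

theorem map_rep {R' : Type v} [CommRing R'] (h : IsRep F σ L) (φ : R →+* R') :
    IsRep (F.map φ) σ (fun g => (L g).map φ) where
  one := by
    show (L 1).map φ = 0
    rw [h.one, Matrix.map_zero _ (map_zero φ)]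
  mul g k := by
    show (L (g * k)).map φ = (L g).map φ + (L k).map φ - (L g).map φ * F.map φ * (L k).map φ
    rw [h.mul, Matrix.map_sub φ (map_sub φ), Matrix.map_add φ (map_add φ), Matrix.map_mul,
      Matrix.map_mul]
  gen s := by
    show (L (σ s)).map φ = Matrix.single s s 1
    rw [h.gen]
    ext i j
    rw [Matrix.map_apply, Matrix.single_apply, Matrix.single_apply]
    split_ifs
    · exact map_one φ
    · exact map_zero φ

theorem Fm_ev (M : CoxeterMatrix S) (pos : S → ℕ) (t : ℝˣ) :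
    (Fm M pos (T 1 : Lau)).map (ev t) = Fm M pos (t : ℝ) := by
  have hT : ev t (T 1) = (t : ℝ) := by
    unfold ev
    rw [eval₂_T]
    simp
  have hC : ∀ r : ℝ, ev t (algebraMap ℝ Lau r) = r := by
    intro r
    unfold ev
    rw [← LaurentPolynomial.C_eq_algebraMap, eval₂_C]
    rfl
  ext i j
  rw [Matrix.map_apply]
  unfold Fm
  rw [Matrix.of_apply, Matrix.of_apply]
  split_ifs
  · rw [map_add, map_one, hT]
  · rw [map_neg, map_mul, hC, hT]
    rfl
  · rw [map_neg, map_mul, hC, map_one]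
    rfl

end H42.NU
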