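import Pool.Agent.H42.NU.Basic
import Pool.Agent.H42.NU.Alt

/-!
# NCU B3: the braid relations hold for `L` over the Laurent polynomials

Let `R = Lau`, `t = T 1`, `F = Fm M pos t`, `IsRep F σ L` in a group `G` (nothing is assumed about relations in `G`).
Let `s ≠ s'`, `m = M s s' ≥ 2` (it is not `1` by `M.off_diagonal`), `P = L (pr σ s s' m)`, `P' = L (pr σ s' s m)`.
Claim `P = P'`.

(1) Support: `P` and `P'` have entries only at `{s, s'} × {s, s'}`: by induction on `n` for `L (pr σ s s' n)`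
(`L (g σ_i) = L g + single i i 1 - L g * F * single i i 1`: rows of `L g` and row `i`; columns of `L g` and column `i`).
(2) With `φ = π / m`, `us (kk M s s') n * sin φ = sin (n φ)`, `sin φ > 0` (`0 < φ < π` as `m ≥ 2`), so `us m = 0`,
`us (m + 1) = -1`, `us (m - 1) = 1` (`us` for `kk M s s' = 2 cos φ`).
(3) Let `A = 1 - P F`, `A' = 1 - P' F`. `A e_s = A' e_s` and `A e_{s'} = A' e_{s'}`:
 case `m = 2j`, `j ≥ 1`: `alt_even`: `A e_s = us(2j+1) t^j e_s + us(2j) .. = -t^j e_s`. For `A e_{s'}`: `pr (2j) = pr (2j-1) * σ_{s'}`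
 (`2j - 1` is odd, `lt s s' (2j-1) = s'`) and `A(σ_{s'}) e_{s'} = -t e_{s'}`, so
 `A e_{s'} = -t R_{2j-1} = -t (us(2j) .. e_s + us(2j-1) t^{j-1} e_{s'}) = -t^j e_{s'}` by `alt_odd` for `j - 1`. So `A` is
 `-t^j` on both, and by symmetry (`s ↔ s'`, `kk M s s' = kk M s' s`, `M s s' = M s' s`) so is `A'`.
 case `m = 2j+1`, `j ≥ 1`: `alt_odd`: `A e_{s'} = us(2j+2) t^j a e_s + us(2j+1) t^j e_{s'} = -t^j a e_s`
 with `a = if pos s' < pos s then t else 1`. `A e_s = -t R_{2j}` (`lt s s' (2j) = s`) `= -t (us(2j+1) .. + us(2j) t^{j-1} b e_{s'})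
 = -t^j b e_{s'}`, `b = if pos s < pos s' then t else 1`. For `A'` exchange `s` and `s'` (then `a` and `b` are exchanged):
 `A' e_s = -t^j a' e_{s'}` with `a' = if pos s < pos s' then t else 1 = b` and `A' e_{s'} = -t^j b' e_s`, `b' = a`. Equal.
(4) `D = P - P'` satisfies `D F e_s = 0`, `D F e_{s'} = 0`; as `D` is supported in columns `s, s'`: for every row `i`
 `D_{i s} F_{s s} + D_{i s'} F_{s' s} = 0`, `D_{i s} F_{s s'} + D_{i s'} F_{s' s'} = 0`. Multiply and subtract:
 `D_{i s} Δ = 0`, `D_{i s'} Δ = 0` with `Δ = F_{ss} F_{s's'} - F_{ss'} F_{s's} = (1+t)² - C(k²) t`. `Δ ≠ 0` (its constant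
 coefficient is `1`; e.g. evaluate with `coeff 0`) and `Lau` is a domain (Mathlib: `IsDomain` / `NoZeroDivisors`
 for `LaurentPolynomial ℝ`; if the instance is not found: `AddMonoidAlgebra` over `ℤ` has `NoZeroDivisors` through
 `UniqueSums`/`TwoUniqueSums`). So `D = 0`.
-/

set_option autoImplicit false

namespace H42.NU

open LaurentPolynomial

universe u w

variable {S : Type u} [Fintype S] [DecidableEq S] {G : Type w} [Group G] {M : CoxeterMatrix S}
  {pos : S → ℕ} {σ : S → G} {L : G → Matrix S S Lau}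

omit [Fintype S] [DecidableEq S] in
private theorem Braid_kk_symm (s s' : S) : kk M s' s = kk M s s' := by
  unfold kk
  rw [M.symmetric s' s]

omit [Fintype S] [DecidableEq S] in
/-- the values of `us` at `m` and `m ± 1` -/
private theorem Braid_us {m : ℕ} (hm : 2 ≤ m) :
    us (2 * Real.cos (Real.pi / m)) m = 0 ∧ us (2 * Real.cos (Real.pi / m)) (m + 1) = -1 ∧
      us (2 * Real.cos (Real.pi / m)) (m - 1) = 1 := by
  have hm0 : (0 : ℝ) < m := by
    have : 0 < m := by omega
    exact_mod_cast this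
  have hm2 : (2 : ℝ) ≤ m := by exact_mod_cast hm
  set φ : ℝ := Real.pi / m with hφ
  have hmφ : (m : ℝ) * φ = Real.pi := by
    rw [hφ]
    field_simp
  have hφ0 : 0 < φ := by positivity
  have hφ1 : φ < Real.pi := by
    rw [hφ, div_lt_iff₀ hm0]
    nlinarith [Real.pi_pos]
  have hsin : 0 < Real.sin φ := Real.sin_pos_of_pos_of_lt_pi hφ0 hφ1
  have h1 := us_sin φ m
  have h2 := us_sin φ (m + 1)
  have h3 := us_sin φ (m - 1)
  rw [hmφ, Real.sin_pi] at h1
  have e2 : ((m + 1 : ℕ) : ℝ) * φ = φ + Real.pi := by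
    push_cast
    linarith
  rw [e2, Real.sin_add_pi] at h2
  have e3 : ((m - 1 : ℕ) : ℝ) * φ = Real.pi - φ := by
    rw [Nat.cast_sub (by omega), Nat.cast_one]
    linarith
  rw [e3, Real.sin_pi_sub] at h3
  refine ⟨?_, ?_, ?_⟩
  · rcases mul_eq_zero.1 h1 with h | h
    · exact h
    · exact absurd h hsin.ne'
  · exact mul_right_cancel₀ hsin.ne' (by rw [h2]; ring)
  · exact mul_right_cancel₀ hsin.ne' (by rw [h3]; ring)

/-- the matrix `A (σ i)` maps `e_i` to `-t e_i` -/
private theorem Braid_gen (h : IsRep (Fm M pos (T 1 : Lau)) σ L) (i : S) :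
    Matrix.mulVec (1 - L (σ i) * Fm M pos (T 1 : Lau)) (Pi.single i 1) =
      (-(T 1 : Lau)) • (Pi.single i 1 : S → Lau) := by
  rw [Matrix.sub_mulVec, Matrix.one_mulVec, Matrix.mulVec_single_one, h.gen]
  ext1 x
  rw [Pi.sub_apply, Matrix.col_apply, Pi.smul_apply, smul_eq_mul]
  by_cases hx : x = i
  · subst hx
    rw [Matrix.single_mul_apply_same, Pi.single_eq_same]
    simp only [Fm, Matrix.of_apply, if_true]
    ring
  · rw [Matrix.single_mul_apply_of_ne _ _ _ _ _ hx, Pi.single_eq_of_ne hx]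
    ring

/-- one more letter -/
private theorem Braid_step (h : IsRep (Fm M pos (T 1 : Lau)) σ L) (s s' : S) (n : ℕ) :
    Matrix.mulVec (1 - L (pr σ s s' (n + 1)) * Fm M pos (T 1 : Lau))
        (Pi.single (lt s s' n) 1) =
      (-(T 1 : Lau)) • Matrix.mulVec (1 - L (pr σ s s' n) * Fm M pos (T 1 : Lau))
        (Pi.single (lt s s' n) 1) := by
  show Matrix.mulVec (1 - L (pr σ s s' n * σ (lt s s' n)) * Fm M pos (T 1 : Lau))
        (Pi.single (lt s s' n) 1) = _
  rw [am_mul h, ← Matrix.mulVec_mulVec, Braid_gen h, Matrix.mulVec_smul]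

private theorem Braid_even (h : IsRep (Fm M pos (T 1 : Lau)) σ L)
    (hpos : Function.Injective pos) {s s' : S} (hne : s ≠ s') {j : ℕ} (hj : 1 ≤ j)
    (hm : M s s' = 2 * j) :
    Matrix.mulVec (1 - L (pr σ s s' (2 * j)) * Fm M pos (T 1 : Lau)) (Pi.single s 1) =
        (-(T 1 : Lau) ^ j) • (Pi.single s 1 : S → Lau) ∧
      Matrix.mulVec (1 - L (pr σ s s' (2 * j)) * Fm M pos (T 1 : Lau)) (Pi.single s' 1) =
        (-(T 1 : Lau) ^ j) • (Pi.single s' 1 : S → Lau) := by
  obtain ⟨u0, u1, u2⟩ := Braid_us (m := M s s') (by rw [hm]; omega)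
  change us (kk M s s') _ = _ at u0 u1 u2
  rw [hm] at u0 u1 u2
  constructor
  · rw [alt_even h hpos hne j, u0, u1]
    simp only [map_neg, map_one, map_zero, zero_mul, zero_smul, add_zero, neg_mul, one_mul]
  · obtain ⟨i, rfl⟩ : ∃ i, j = i + 1 := ⟨j - 1, by omega⟩
    have h1 := Braid_step h s s' (2 * i + 1)
    have h2 : lt s s' (2 * i + 1) = s' := by
      unfold lt
      rw [if_neg (by omega)]
    rw [h2, alt_odd h hpos hne i] at h1
    have h3 : 2 * i + 1 + 1 = 2 * (i + 1) := by ring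
    rw [h3] at h1
    have h5 : 2 * (i + 1) - 1 = 2 * i + 1 := by omega
    rw [h5] at u2
    rw [h1, u0, u2]
    simp only [map_one, map_zero, zero_mul, zero_smul, zero_add, one_mul, smul_smul]
    congr 1
    ring

private theorem Braid_odd (h : IsRep (Fm M pos (T 1 : Lau)) σ L)
    (hpos : Function.Injective pos) {s s' : S} (hne : s ≠ s') {j : ℕ} (hj : 1 ≤ j)
    (hm : M s s' = 2 * j + 1) :
    Matrix.mulVec (1 - L (pr σ s s' (2 * j + 1)) * Fm M pos (T 1 : Lau)) (Pi.single s 1) =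
        (-((T 1 : Lau) ^ j * (if pos s < pos s' then (T 1 : Lau) else 1))) •
          (Pi.single s' 1 : S → Lau) ∧
      Matrix.mulVec (1 - L (pr σ s s' (2 * j + 1)) * Fm M pos (T 1 : Lau)) (Pi.single s' 1) =
        (-((T 1 : Lau) ^ j * (if pos s' < pos s then (T 1 : Lau) else 1))) •
          (Pi.single s 1 : S → Lau) := by
  obtain ⟨u0, u1, u2⟩ := Braid_us (m := M s s') (by rw [hm]; omega)
  change us (kk M s s') _ = _ at u0 u1 u2
  rw [hm] at u0 u1 u2
  constructor
  · have h1 := Braid_step h s s' (2 * j)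
    have h2 : lt s s' (2 * j) = s := by
      unfold lt
      rw [if_pos (by omega)]
    rw [h2, alt_even h hpos hne j] at h1
    have h5 : 2 * j + 1 - 1 = 2 * j := by omega
    rw [h5] at u2
    rw [h1, u0, u2]
    simp only [map_one, map_zero, zero_mul, zero_smul, zero_add, one_mul, smul_smul]
    congr 1
    obtain ⟨i, rfl⟩ : ∃ i, j = i + 1 := ⟨j - 1, by omega⟩
    rw [Nat.add_sub_cancel]
    ring
  · have h3 : 2 * j + 1 + 1 = 2 * j + 2 := by ring
    rw [h3] at u1
    rw [alt_odd h hpos hne j, u0, u1]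
    simp only [map_neg, map_one, map_zero, zero_mul, zero_smul, add_zero, neg_mul, one_mul]

/-- the columns of `L (pr σ s s' n)` outside `{s, s'}` vanish -/
private theorem Braid_col (h : IsRep (Fm M pos (T 1 : Lau)) σ L) {s s' : S} (x j : S)
    (hj : j ≠ s) (hj' : j ≠ s') : ∀ n, L (pr σ s s' n) x j = 0
  | 0 => by
    show L (1 : G) x j = 0
    rw [h.one]
    rfl
  | n + 1 => by
    show L (pr σ s s' n * σ (lt s s' n)) x j = 0
    have hl : j ≠ lt s s' n := by
      unfold lt
      split_ifs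
      · exact hj
      · exact hj'
    rw [h.mul, h.gen, Matrix.sub_apply, Matrix.add_apply, Braid_col h x j hj hj' n,
      Matrix.mul_single_apply_of_ne _ _ _ _ _ hl, Matrix.single_apply, if_neg]
    · ring
    · rintro ⟨-, h2⟩
      exact hl h2.symm

/-- the determinant of the block of `F` at `s, s'` does not vanish -/
private theorem Braid_det {s s' : S} (hne : s ≠ s') (hpos : Function.Injective pos) :
    Fm M pos (T 1 : Lau) s s * Fm M pos (T 1 : Lau) s' s' -
      Fm M pos (T 1 : Lau) s s' * Fm M pos (T 1 : Lau) s' s ≠ 0 := by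
  intro h0
  have h1 := congrArg (ev (Units.mk0 (2 : ℝ) two_ne_zero)) h0
  have hF : ∀ i j, ev (Units.mk0 (2 : ℝ) two_ne_zero) (Fm M pos (T 1 : Lau) i j) =
      Fm M pos (2 : ℝ) i j := by
    intro i j
    have h2 := congrFun (congrFun (Fm_ev M pos (Units.mk0 (2 : ℝ) two_ne_zero)) i) j
    rw [Matrix.map_apply] at h2
    exact h2
  rw [map_sub, map_mul, map_mul, map_zero, hF, hF, hF, hF] at h1
  simp only [Fm, Matrix.of_apply, if_true, if_neg hne, if_neg hne.symm, Braid_kk_symm s s',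
    Algebra.algebraMap_self, RingHom.id_apply] at h1
  have hk : kk M s s' ^ 2 ≤ 4 := by
    unfold kk
    have h3 := Real.abs_cos_le_one (Real.pi / M s s')
    have h4 : Real.cos (Real.pi / M s s') ^ 2 ≤ 1 := by
      rw [sq_le_one_iff_abs_le_one]
      exact h3
    nlinarith
  rcases lt_or_gt_of_ne (fun h => hne (hpos h)) with h5 | h5
  · rw [if_pos h5, if_neg (not_lt.2 h5.le)] at h1
    nlinarith
  · rw [if_pos h5, if_neg (not_lt.2 h5.le)] at h1
    nlinarith

/-- a matrix supported in the columns `s, s'` with `D F e_s = D F e_{s'} = 0` vanishes -/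
private theorem Braid_zero {s s' : S} (hne : s ≠ s') (hpos : Function.Injective pos)
    (D : Matrix S S Lau) (hD : ∀ x j, j ≠ s → j ≠ s' → D x j = 0)
    (h1 : Matrix.mulVec (D * Fm M pos (T 1 : Lau)) (Pi.single s 1) = 0)
    (h2 : Matrix.mulVec (D * Fm M pos (T 1 : Lau)) (Pi.single s' 1) = 0) : D = 0 := by
  have hΔ := Braid_det (M := M) hne hpos
  have hsum : ∀ x i, (D * Fm M pos (T 1 : Lau)) x i =
      D x s * Fm M pos (T 1 : Lau) s i + D x s' * Fm M pos (T 1 : Lau) s' i := by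
    intro x i
    rw [Matrix.mul_apply, ← Finset.sum_subset (Finset.subset_univ {s, s'}),
      Finset.sum_pair hne]
    intro j _ hj
    rw [Finset.mem_insert, Finset.mem_singleton, not_or] at hj
    rw [hD x j hj.1 hj.2, zero_mul]
  have e1 : ∀ x, D x s * Fm M pos (T 1 : Lau) s s + D x s' * Fm M pos (T 1 : Lau) s' s = 0 := by
    intro x
    rw [← hsum]
    have := congrFun h1 x
    rw [Matrix.mulVec_single_one] at this
    exact this
  have e2 : ∀ x, D x s * Fm M pos (T 1 : Lau) s s' +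
      D x s' * Fm M pos (T 1 : Lau) s' s' = 0 := by
    intro x
    rw [← hsum]
    have := congrFun h2 x
    rw [Matrix.mulVec_single_one] at this
    exact this
  have hs : ∀ x, D x s = 0 := by
    intro x
    have h3 : D x s * (Fm M pos (T 1 : Lau) s s * Fm M pos (T 1 : Lau) s' s' -
        Fm M pos (T 1 : Lau) s s' * Fm M pos (T 1 : Lau) s' s) = 0 := by
      linear_combination Fm M pos (T 1 : Lau) s' s' * e1 x - Fm M pos (T 1 : Lau) s' s * e2 x
    exact (mul_eq_zero.1 h3).resolve_right hΔ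
  have hs' : ∀ x, D x s' = 0 := by
    intro x
    have h3 : D x s' * (Fm M pos (T 1 : Lau) s s * Fm M pos (T 1 : Lau) s' s' -
        Fm M pos (T 1 : Lau) s s' * Fm M pos (T 1 : Lau) s' s) = 0 := by
      linear_combination Fm M pos (T 1 : Lau) s s * e2 x - Fm M pos (T 1 : Lau) s s' * e1 x
    exact (mul_eq_zero.1 h3).resolve_right hΔ
  ext1 x j
  by_cases h3 : j = s
  · rw [h3, hs]
    rfl
  · by_cases h4 : j = s'
    · rw [h4, hs']
      rfl
    · rw [hD x j h3 h4]
      rfl

theorem L_pr_eq (h : IsRep (Fm M pos (T 1 : Lau)) σ L) (hpos : Function.Injective pos) {s s' : S}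
    (hne : s ≠ s') (hM : M s s' ≠ 0) : L (pr σ s s' (M s s')) = L (pr σ s' s (M s s')) := by
  have hMs : M s' s = M s s' := M.symmetric s' s
  have hM1 : M s s' ≠ 1 := M.off_diagonal s s' hne
  have key : Matrix.mulVec (1 - L (pr σ s s' (M s s')) * Fm M pos (T 1 : Lau))
        (Pi.single s 1) =
      Matrix.mulVec (1 - L (pr σ s' s (M s s')) * Fm M pos (T 1 : Lau)) (Pi.single s 1) ∧
      Matrix.mulVec (1 - L (pr σ s s' (M s s')) * Fm M pos (T 1 : Lau)) (Pi.single s' 1) =
      Matrix.mulVec (1 - L (pr σ s' s (M s s')) * Fm M pos (T 1 : Lau)) (Pi.single s' 1) := by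
    rcases Nat.even_or_odd' (M s s') with ⟨j, hj | hj⟩
    · have hj1 : 1 ≤ j := by omega
      obtain ⟨a1, a2⟩ := Braid_even h hpos hne hj1 hj
      obtain ⟨b1, b2⟩ := Braid_even h hpos hne.symm hj1 (hMs.trans hj)
      rw [hj]
      exact ⟨a1.trans b2.symm, a2.trans b1.symm⟩
    · have hj1 : 1 ≤ j := by omega
      obtain ⟨a1, a2⟩ := Braid_odd h hpos hne hj1 hj
      obtain ⟨b1, b2⟩ := Braid_odd h hpos hne.symm hj1 (hMs.trans hj)
      rw [hj]
      exact ⟨a1.trans b2.symm, a2.trans b1.symm⟩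
  refine sub_eq_zero.1 (Braid_zero (M := M) hne hpos _ ?_ ?_ ?_)
  · intro x j hj hj'
    rw [Matrix.sub_apply, Braid_col h x j hj hj', Braid_col h x j hj' hj, sub_zero]
  · have h1 := key.1
    rw [Matrix.sub_mulVec, Matrix.sub_mulVec] at h1
    rw [Matrix.sub_mul, Matrix.sub_mulVec]
    exact sub_eq_zero.2 (sub_right_injective h1)
  · have h1 := key.2
    rw [Matrix.sub_mulVec, Matrix.sub_mulVec] at h1
    rw [Matrix.sub_mul, Matrix.sub_mulVec]
    exact sub_eq_zero.2 (sub_right_injective h1)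

end H42.NU
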