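import Pool.Agent.H42.NU.Defs

/-!
# NCU F6: cones

`Submodule.span NNReal X` is the convex cone generated by `X ⊆ (S → ℝ)` (`S → ℝ` is a module over `NNReal`). All by
`Submodule.span_induction`.
* `cone_le`: linear inequalities pass to the cone.
* `cone_smul`: multiplication by a real number `c ≥ 0`.
* `cone_exists_sub`: induction with `η = 0 ∨ ∃ β ∈ X, ∃ c > 0, ∃ ζ ∈ cone, η = c β + ζ`.
* `pj_add`, `pj_smul`, `rf_add`, `rf_smul`, `rf_rf`, `rf_single`: direct (`Function.update`).
  `rf_rf`: coordinate `s`: `-(-β s + Σ) + Σ = β s` where `Σ = ∑_{i ≠ s} k β i` is the same.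
* `cone_pj`: if `pj s β ∈ cone` for all `β ∈ X` then `pj s η ∈ cone` for all `η ∈ cone` (`pj s` is additive and commutes with scalars).
* `cone_final`: `η ∈ cone`, `pj s η ∈ cone`, `0 ≤ m ≤ η s`: then `η - m e_s ∈ cone`. If `η s = 0` then `m = 0`. Otherwise
  `η - m e_s = (1 - m / η s) η + (m / η s) (η - η s e_s)` and `η - η s e_s = pj s η`.
* `cone_rf`: if for every `β ∈ X'` either `β = e_s` or `rf M s β ∈ X`, then for `η ∈ span X'` there are `ζ ∈ span X`, `m ≥ 0` with
  `rf M s η = ζ - m e_s` (`rf_single`).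
-/

set_option autoImplicit false

namespace H42.NU

universe u

variable {S : Type u} [Fintype S] [DecidableEq S] {X X' : Set (S → ℝ)}

omit [Fintype S] [DecidableEq S] in
private theorem nn_smul (c : NNReal) (f : S → ℝ) : c • f = (c : ℝ) • f := rfl

theorem cone_le {y : S → ℝ} (hX : ∀ β ∈ X, 0 ≤ ∑ q, β q * y q) {η : S → ℝ}
    (hη : η ∈ Submodule.span NNReal X) : 0 ≤ ∑ q, η q * y q := by
  induction hη using Submodule.span_induction with
  | mem x h => exact hX x h
  | zero => simp
  | add x z _ _ h1 h2 =>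
    have : ∑ q, (x + z) q * y q = ∑ q, x q * y q + ∑ q, z q * y q := by
      rw [← Finset.sum_add_distrib]
      refine Finset.sum_congr rfl fun q _ => ?_
      simp only [Pi.add_apply]
      ring
    rw [this]
    exact add_nonneg h1 h2
  | smul a x _ h =>
    have : ∑ q, (a • x) q * y q = (a : ℝ) * ∑ q, x q * y q := by
      rw [Finset.mul_sum]
      refine Finset.sum_congr rfl fun q _ => ?_
      rw [nn_smul]
      simp only [Pi.smul_apply, smul_eq_mul]
      ring
    rw [this]
    exact mul_nonneg a.coe_nonneg h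

theorem cone_smul {η : S → ℝ} (hη : η ∈ Submodule.span NNReal X) {c : ℝ} (hc : 0 ≤ c) :
    c • η ∈ Submodule.span NNReal X := by
  have h := Submodule.smul_mem (Submodule.span NNReal X) (⟨c, hc⟩ : NNReal) hη
  exact h

theorem cone_exists_sub {η : S → ℝ} (hη : η ∈ Submodule.span NNReal X) (h0 : η ≠ 0) :
    ∃ β ∈ X, ∃ c : ℝ, 0 < c ∧ ∃ ζ ∈ Submodule.span NNReal X, η = c • β + ζ := by
  have key : η = 0 ∨ ∃ β ∈ X, ∃ c : ℝ, 0 < c ∧ ∃ ζ ∈ Submodule.span NNReal X,
      η = c • β + ζ := by
    clear h0
    induction hη using Submodule.span_induction with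
    | mem x h => exact Or.inr ⟨x, h, 1, one_pos, 0, Submodule.zero_mem _, by simp⟩
    | zero => exact Or.inl rfl
    | add x z hx hz h1 h2 =>
      rcases h1 with rfl | ⟨β, hβ, c, hc, ζ, hζ, rfl⟩
      · rcases h2 with rfl | ⟨β, hβ, c, hc, ζ, hζ, rfl⟩
        · exact Or.inl (by simp)
        · exact Or.inr ⟨β, hβ, c, hc, ζ, hζ, by simp⟩
      · exact Or.inr ⟨β, hβ, c, hc, ζ + z, Submodule.add_mem _ hζ hz, by rw [add_assoc]⟩
    | smul a x hx h =>
      rcases h with rfl | ⟨β, hβ, c, hc, ζ, hζ, rfl⟩
      · exact Or.inl (by simp)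
      · rcases eq_or_ne a 0 with rfl | ha
        · exact Or.inl (by simp)
        · refine Or.inr ⟨β, hβ, (a : ℝ) * c, mul_pos (by exact_mod_cast pos_iff_ne_zero.2 ha) hc,
            a • ζ, Submodule.smul_mem _ _ hζ, ?_⟩
          rw [smul_add, nn_smul a (c • β), smul_smul]
  rcases key with h | h
  · exact absurd h h0
  · exact h

theorem pj_add (s : S) (β γ : S → ℝ) : pj s (β + γ) = pj s β + pj s γ := by
  funext q
  unfold pj
  by_cases h : q = s
  · subst h
    simp
  · simp [Function.update_of_ne h]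

theorem pj_smul (s : S) (c : ℝ) (β : S → ℝ) : pj s (c • β) = c • pj s β := by
  funext q
  unfold pj
  by_cases h : q = s
  · subst h
    simp
  · simp [Function.update_of_ne h]

theorem rf_add (M : CoxeterMatrix S) (s : S) (β γ : S → ℝ) :
    rf M s (β + γ) = rf M s β + rf M s γ := by
  funext q
  unfold rf
  by_cases h : q = s
  · subst h
    simp only [Function.update_self, Pi.add_apply]
    have : ∑ i ∈ Finset.univ.erase q, kk M i q * (β i + γ i) =
        ∑ i ∈ Finset.univ.erase q, kk M i q * β i +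
          ∑ i ∈ Finset.univ.erase q, kk M i q * γ i := by
      rw [← Finset.sum_add_distrib]
      exact Finset.sum_congr rfl fun i _ => by ring
    rw [this]
    ring
  · simp [Function.update_of_ne h]

theorem rf_smul (M : CoxeterMatrix S) (s : S) (c : ℝ) (β : S → ℝ) :
    rf M s (c • β) = c • rf M s β := by
  funext q
  unfold rf
  by_cases h : q = s
  · subst h
    simp only [Function.update_self, Pi.smul_apply, smul_eq_mul]
    have : ∑ i ∈ Finset.univ.erase q, kk M i q * (c * β i) =
        c * ∑ i ∈ Finset.univ.erase q, kk M i q * β i := by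
      rw [Finset.mul_sum]
      exact Finset.sum_congr rfl fun i _ => by ring
    rw [this]
    ring
  · simp [Function.update_of_ne h]

theorem rf_rf (M : CoxeterMatrix S) (s : S) (β : S → ℝ) : rf M s (rf M s β) = β := by
  funext q
  by_cases h : q = s
  · subst h
    have h1 : ∑ i ∈ Finset.univ.erase q, kk M i q * rf M q β i =
        ∑ i ∈ Finset.univ.erase q, kk M i q * β i := by
      refine Finset.sum_congr rfl fun i hi => ?_
      unfold rf
      rw [Function.update_of_ne (Finset.ne_of_mem_erase hi)]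
    have h2 : rf M q β q = -β q + ∑ i ∈ Finset.univ.erase q, kk M i q * β i := by
      unfold rf
      rw [Function.update_self]
    have h3 : rf M q (rf M q β) q = -rf M q β q +
        ∑ i ∈ Finset.univ.erase q, kk M i q * rf M q β i := by
      conv_lhs => unfold rf
      rw [Function.update_self]
      rfl
    rw [h3, h1, h2]
    ring
  · unfold rf
    rw [Function.update_of_ne h, Function.update_of_ne h]

theorem rf_single (M : CoxeterMatrix S) (s : S) :
    rf M s (Pi.single s (1 : ℝ)) = -(Pi.single s 1 : S → ℝ) := by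
  funext q
  unfold rf
  by_cases h : q = s
  · subst h
    rw [Function.update_self]
    have : ∑ i ∈ Finset.univ.erase q, kk M i q * (Pi.single q (1 : ℝ) : S → ℝ) i = 0 := by
      refine Finset.sum_eq_zero fun i hi => ?_
      rw [Pi.single_eq_of_ne (Finset.ne_of_mem_erase hi), mul_zero]
    rw [this]
    simp
  · rw [Function.update_of_ne h]
    simp [Pi.single_eq_of_ne h]

theorem cone_pj {s : S} (hX : ∀ β ∈ X, pj s β ∈ Submodule.span NNReal X) {η : S → ℝ}
    (hη : η ∈ Submodule.span NNReal X) : pj s η ∈ Submodule.span NNReal X := by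
  induction hη using Submodule.span_induction with
  | mem x h => exact hX x h
  | zero =>
    have : pj s (0 : S → ℝ) = 0 := by
      unfold pj
      simp
    rw [this]
    exact Submodule.zero_mem _
  | add x z _ _ h1 h2 =>
    rw [pj_add]
    exact Submodule.add_mem _ h1 h2
  | smul a x _ h =>
    rw [nn_smul, pj_smul]
    exact cone_smul h a.coe_nonneg

theorem cone_final {s : S} {η : S → ℝ} (hη : η ∈ Submodule.span NNReal X)
    (hp : pj s η ∈ Submodule.span NNReal X) {m : ℝ} (h0 : 0 ≤ m) (hm : m ≤ η s) :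
    η - m • (Pi.single s 1 : S → ℝ) ∈ Submodule.span NNReal X := by
  rcases (h0.trans hm).eq_or_lt with h | h
  · have : m = 0 := by linarith
    rw [this]
    simpa using hη
  · have h1 : η - m • (Pi.single s 1 : S → ℝ) =
        (1 - m / η s) • η + (m / η s) • pj s η := by
      funext q
      unfold pj
      by_cases hq : q = s
      · subst hq
        simp
        field_simp
      · simp [Function.update_of_ne hq, Pi.single_eq_of_ne hq]
        ring
    rw [h1]
    refine Submodule.add_mem _ (cone_smul hη ?_) (cone_smul hp (by positivity))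
    rw [sub_nonneg, div_le_one h]
    exact hm

theorem cone_rf (M : CoxeterMatrix S) {s : S}
    (hX : ∀ β ∈ X', β = Pi.single s 1 ∨ rf M s β ∈ X) {η : S → ℝ}
    (hη : η ∈ Submodule.span NNReal X') :
    ∃ ζ ∈ Submodule.span NNReal X, ∃ m : ℝ, 0 ≤ m ∧
      rf M s η = ζ - m • (Pi.single s 1 : S → ℝ) := by
  induction hη using Submodule.span_induction with
  | mem x h =>
    rcases hX x h with rfl | h1
    · exact ⟨0, Submodule.zero_mem _, 1, zero_le_one, by rw [rf_single]; simp⟩
    · exact ⟨rf M s x, Submodule.subset_span h1, 0, le_rfl, by simp⟩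
  | zero =>
    refine ⟨0, Submodule.zero_mem _, 0, le_rfl, ?_⟩
    have h := rf_smul M s 0 (0 : S → ℝ)
    rw [zero_smul, zero_smul] at h
    rw [h]
    simp
  | add x z _ _ h1 h2 =>
    obtain ⟨ζ1, hζ1, m1, hm1, e1⟩ := h1
    obtain ⟨ζ2, hζ2, m2, hm2, e2⟩ := h2
    refine ⟨ζ1 + ζ2, Submodule.add_mem _ hζ1 hζ2, m1 + m2, add_nonneg hm1 hm2, ?_⟩
    rw [rf_add, e1, e2, add_smul]
    abel
  | smul a x _ h =>
    obtain ⟨ζ, hζ, m, hm, e⟩ := h
    refine ⟨(a : ℝ) • ζ, cone_smul hζ a.coe_nonneg, (a : ℝ) * m,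
      mul_nonneg a.coe_nonneg hm, ?_⟩
    rw [nn_smul, rf_smul, e, smul_sub, smul_smul]

end H42.NU
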