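import Pool.Agent.H42.NU.Dih

/-!
# NCU C2: local confluence of the rewriting system on the chambers

`Rw cs f v v'` means `v' = v s` for some `s` with `f v s < 0`. No ties (`h1`), sign change across a wall (`h2`), and in
every dihedral coset (`v` its minimal element, `n < m = M s s'`, `φ = π / m`) the values along the arm starting with `s` are
`f (v z_n) (lt s s' n) = τ_n (sin ((n+1) φ) α + ρ sin (n φ) β)`, `α = f v s`, `β = f v s'`, `τ_n > 0`, `ρ > 0` (`h3`);
`z_n = pr cs.simple s s' n`. The value `c_n = f (v z_n) (lt s s' n)` belongs to the edge from `v z_n` to `v z_{n+1}`: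
if `c_n < 0` then `v z_n → v z_{n+1}`; if `c_n > 0` then `f (v z_{n+1}) (lt s s' n) < 0` by `h2`
(`v z_{n+1} * simple (lt s s' n) = v z_n`), so `v z_{n+1} → v z_n`.

Trigonometric lemma: `g(x) = A sin x + B cos x`, `x < y < z`, `z - x < π`: `g(y) sin(z-x) = g(x) sin(z-y) + g(z) sin(y-x)`,
all three sines are positive. Hence for `0 ≤ i < j < k < m`: `c_i > 0, c_k > 0 → c_j > 0`, and `c_i < 0, c_k < 0 → c_j < 0`
(angles `iφ < jφ < kφ`, `(k-i) φ < π`; divide by `τ > 0`). (*)
End values: `c_0 = τ_0 sin φ α` has the sign of `α` and `c_{m-1} = τ_{m-1} ρ sin ((m-1) φ) β` has the sign of `β`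
(`sin (m φ) = sin π = 0`, `sin ((m-1) φ) > 0`, as `m ≥ 2`). Same for the other arm `z'_n = pr cs.simple s' s n` with
`c'_n` (apply `h3` to `(s', s)`; `M s' s = M s s'`): `c'_0` has the sign of `β`, `c'_{m-1}` the sign of `α`.
No `c_n` is zero (`h1`).

Let now `w` with `f w s < 0`, `f w s' < 0`, `s ≠ s'` (for `s = s'` the claim is trivial: take `z = w s`). By `dih_cases`
`w = v z_n` or `w = v z'_n`, `n ≤ m`. By symmetry let `w = v z_n` (in the other case exchange `s`, `s'`; the claim is symmetric).
* `n = 0`: `α, β < 0`. By (*) all `c_k < 0` (for `0 < k < m-1` between the negative end values) and all `c'_k < 0`. So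
  `v z_1 →* v z_m` and `v z'_1 →* v z'_m = v z_m` (`dih_top`). And `v s = v z_1`, `v s' = v z'_1`.
* `n = m`: `w = v z_m = v z'_m`. The letters `lt s s' (m-1)` and `lt s' s (m-1)` are `{s, s'}`. As `f w (lt s s' (m-1)) < 0`, `h2` gives
  `c_{m-1} > 0`, so `β > 0`; similarly `c'_{m-1} > 0`, `α > 0`. By (*) all `c_k, c'_k > 0`, so `v z_{m-1} →* v` and
  `v z'_{m-1} →* v`, and `{w s, w s'} = {v z_{m-1}, v z'_{m-1}}`.
* `0 < n < m`: `{s, s'} = {lt s s' n, lt s s' (n-1)}`, `{w s, w s'} = {v z_{n+1}, v z_{n-1}}`. `c_n < 0` and `c_{n-1} > 0` (by `h2`).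
  By (*): `c_k > 0` for all `k ≤ n-1` (if `c_k < 0`, `k < n - 1`, then with `c_n < 0` we get `c_{n-1} < 0`), `c_k < 0` for all
  `n ≤ k < m` (if `c_k > 0`, `k > n`, then with `c_{n-1} > 0` we get `c_n > 0`). So `v z_{n-1} →* v`, `v z_{n+1} →* v z_m`, `α > 0`,
  `β < 0`. On the other arm `c'_0 < 0`, `c'_{m-1} > 0`; let `j` be minimal with `c'_j > 0` (`0 < j ≤ m-1`). Then `c'_k < 0` for `k < j`
  and `c'_k > 0` for `k ≥ j` (if `c'_k < 0`, `k > j`, then with `c'_0 < 0` we get `c'_j < 0`). So `v = v z'_0 →* v z'_j` and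
  `v z_m = v z'_m →* v z'_j`. Take `z = v z'_j`.
-/

set_option autoImplicit false

namespace H42.NU

open Relation

universe u v

variable {S : Type u} {W : Type v} [Group W] {M : CoxeterMatrix S} (cs : CoxeterSystem M W)

/-! ### Signs along an arm -/

private theorem conf_trig (α β ρ φ x y z : ℝ) :
    (Real.sin (y + φ) * α + ρ * Real.sin y * β) * Real.sin (z - x) =
      (Real.sin (x + φ) * α + ρ * Real.sin x * β) * Real.sin (z - y) +
      (Real.sin (z + φ) * α + ρ * Real.sin z * β) * Real.sin (y - x) := by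
  simp only [Real.sin_sub, Real.sin_add]
  ring

private theorem conf_sin_pos {m : ℕ} {i j : ℕ} (h1 : i < j) (h2 : j < m + i) :
    0 < Real.sin ((j : ℝ) * (Real.pi / m) - (i : ℝ) * (Real.pi / m)) := by
  have hm : 0 < m := by omega
  have hm' : (0 : ℝ) < m := by exact_mod_cast hm
  have h1' : (i : ℝ) < j := by exact_mod_cast h1
  have h2' : (j : ℝ) < m + i := by exact_mod_cast h2
  have hπ := Real.pi_pos
  have e : (j : ℝ) * (Real.pi / m) - (i : ℝ) * (Real.pi / m) =
      (((j : ℝ) - i) / m) * Real.pi := by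
    field_simp
  rw [e]
  apply Real.sin_pos_of_pos_of_lt_pi
  · have : 0 < ((j : ℝ) - i) / m := div_pos (by linarith) hm'
    positivity
  · have : ((j : ℝ) - i) / m < 1 := by
      rw [div_lt_one hm']
      linarith
    nlinarith

private theorem conf_arm {m : ℕ} (hm : 2 ≤ m) {c τ : ℕ → ℝ} {α β ρ : ℝ} (hτ : ∀ n, 0 < τ n)
    (hρ : 0 < ρ)
    (hc : ∀ n < m, c n = τ n * (Real.sin (((n : ℝ) + 1) * (Real.pi / m)) * α +
      ρ * Real.sin ((n : ℝ) * (Real.pi / m)) * β)) :
    (∀ i j k, i < j → j < k → k < m → 0 < c i → 0 < c k → 0 < c j) ∧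
    (∀ i j k, i < j → j < k → k < m → c i < 0 → c k < 0 → c j < 0) ∧
    (∃ p, 0 < p ∧ c 0 = p * α) ∧ (∃ p, 0 < p ∧ c (m - 1) = p * β) := by
  have key : ∀ i j k, i < j → j < k → k < m → ∃ p q r : ℝ, 0 < p ∧ 0 < q ∧ 0 < r ∧
      c j * p = c i * q + c k * r := by
    intro i j k hij hjk hkm
    have t := conf_trig α β ρ (Real.pi / m) ((i : ℝ) * (Real.pi / m)) ((j : ℝ) * (Real.pi / m))
      ((k : ℝ) * (Real.pi / m))
    have e1 : ∀ n : ℕ, (n : ℝ) * (Real.pi / m) + Real.pi / m = ((n : ℝ) + 1) * (Real.pi / m) :=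
      fun n => by ring
    rw [e1, e1, e1] at t
    have p1 : 0 < Real.sin ((k : ℝ) * (Real.pi / m) - (i : ℝ) * (Real.pi / m)) :=
      conf_sin_pos (by omega) (by omega)
    have p2 : 0 < Real.sin ((k : ℝ) * (Real.pi / m) - (j : ℝ) * (Real.pi / m)) :=
      conf_sin_pos (by omega) (by omega)
    have p3 : 0 < Real.sin ((j : ℝ) * (Real.pi / m) - (i : ℝ) * (Real.pi / m)) :=
      conf_sin_pos (by omega) (by omega)
    refine ⟨_, _, _, div_pos p1 (hτ j), div_pos p2 (hτ i), div_pos p3 (hτ k), ?_⟩
    rw [hc i (by omega), hc j (by omega), hc k (by omega)]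
    have gen : ∀ x y z : ℝ, x ≠ 0 → x * y * (z / x) = y * z := by
      intro x y z hx
      field_simp
    rw [gen _ _ _ (hτ i).ne', gen _ _ _ (hτ j).ne', gen _ _ _ (hτ k).ne']
    exact t
  refine ⟨?_, ?_, ?_, ?_⟩
  · intro i j k hij hjk hkm h1 h2
    obtain ⟨p, q, r, hp, hq, hr, h⟩ := key i j k hij hjk hkm
    by_contra hcon
    push Not at hcon
    nlinarith [mul_pos h1 hq, mul_pos h2 hr, mul_nonneg (neg_nonneg.2 hcon) hp.le]
  · intro i j k hij hjk hkm h1 h2
    obtain ⟨p, q, r, hp, hq, hr, h⟩ := key i j k hij hjk hkm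
    by_contra hcon
    push Not at hcon
    nlinarith [mul_pos (neg_pos.2 h1) hq, mul_pos (neg_pos.2 h2) hr, mul_nonneg hcon hp.le]
  · refine ⟨τ 0 * Real.sin (Real.pi / m), mul_pos (hτ 0) ?_, ?_⟩
    · have := conf_sin_pos (m := m) (i := 0) (j := 1) (by omega) (by omega)
      simpa using this
    · rw [hc 0 (by omega)]
      simp
      ring
  · have hm' : (m : ℝ) ≠ 0 := by
      have : m ≠ 0 := by omega
      exact_mod_cast this
    refine ⟨τ (m - 1) * (ρ * Real.sin (((m - 1 : ℕ) : ℝ) * (Real.pi / m))),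
      mul_pos (hτ _) (mul_pos hρ ?_), ?_⟩
    · have := conf_sin_pos (m := m) (i := 0) (j := m - 1) (by omega) (by omega)
      simpa using this
    · rw [hc (m - 1) (by omega)]
      have e : (((m - 1 : ℕ) : ℝ) + 1) * (Real.pi / m) = Real.pi := by
        rw [Nat.cast_sub (by omega)]
        push_cast
        field_simp
        ring
      rw [e, Real.sin_pi]
      ring

/-! ### Walks along an arm -/

private theorem conf_up (f : W → S → ℝ) (v : W) (s s' : S) {i j : ℕ} (hij : i ≤ j)
    (h : ∀ k, i ≤ k → k < j → f (v * pr cs.simple s s' k) (lt s s' k) < 0) :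
    ReflTransGen (Rw cs f) (v * pr cs.simple s s' i) (v * pr cs.simple s s' j) := by
  induction j, hij using Nat.le_induction with
  | base => exact ReflTransGen.refl
  | succ j hij ih =>
    refine (ih fun k h1 h2 => h k h1 (by omega)).tail ?_
    refine ⟨lt s s' j, ?_, h j hij (by omega)⟩
    show v * (pr cs.simple s s' j * cs.simple (lt s s' j)) = _
    rw [mul_assoc]

private theorem conf_h2 {f : W → S → ℝ} (h2 : ∀ v s, f (v * cs.simple s) s * f v s < 0) (v : W)
    (s s' : S) (k : ℕ) :
    f (v * pr cs.simple s s' (k + 1)) (lt s s' k) * f (v * pr cs.simple s s' k) (lt s s' k) < 0 := by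
  have := h2 (v * pr cs.simple s s' k) (lt s s' k)
  rw [mul_assoc] at this
  exact this

private theorem conf_back (v : W) (s s' : S) (k : ℕ) :
    v * pr cs.simple s s' (k + 1) * cs.simple (lt s s' k) = v * pr cs.simple s s' k := by
  show v * (pr cs.simple s s' k * cs.simple (lt s s' k)) * cs.simple (lt s s' k) = _
  simp [mul_assoc]

private theorem conf_down {f : W → S → ℝ} (h2 : ∀ v s, f (v * cs.simple s) s * f v s < 0) (v : W)
    (s s' : S) {i j : ℕ} (hij : i ≤ j)
    (h : ∀ k, i ≤ k → k < j → 0 < f (v * pr cs.simple s s' k) (lt s s' k)) :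
    ReflTransGen (Rw cs f) (v * pr cs.simple s s' j) (v * pr cs.simple s s' i) := by
  induction j, hij using Nat.le_induction with
  | base => exact ReflTransGen.refl
  | succ j hij ih =>
    refine ReflTransGen.head ?_ (ih fun k h1 h2 => h k h1 (by omega))
    refine ⟨lt s s' j, (conf_back cs v s s' j).symm, ?_⟩
    have h3 := conf_h2 cs h2 v s s' j
    have h4 := h j hij (by omega)
    by_contra hcon
    push Not at hcon
    nlinarith [mul_nonneg hcon h4.le]

/-- If the chamber lies on the arm which starts with `s`. -/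
private theorem conf_main [Finite W] {f : W → S → ℝ} (h1 : ∀ v s, f v s ≠ 0)
    (h2 : ∀ v s, f (v * cs.simple s) s * f v s < 0)
    (h3 : ∀ s s', s ≠ s' → ∀ v, ¬ cs.IsRightDescent v s → ¬ cs.IsRightDescent v s' →
      ∃ (τ : ℕ → ℝ) (ρ : ℝ), (∀ n, 0 < τ n) ∧ 0 < ρ ∧ ∀ n < M s s',
        f (v * pr cs.simple s s' n) (lt s s' n) =
          τ n * (Real.sin (((n : ℝ) + 1) * (Real.pi / M s s')) * f v s +
            ρ * Real.sin ((n : ℝ) * (Real.pi / M s s')) * f v s'))
    {s s' : S} (hne : s ≠ s') {v : W} (hv : ¬ cs.IsRightDescent v s)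
    (hv' : ¬ cs.IsRightDescent v s') {n : ℕ} (hn : n ≤ M s s')
    (hs : f (v * pr cs.simple s s' n) s < 0) (hs' : f (v * pr cs.simple s s' n) s' < 0) :
    ∃ d, ReflTransGen (Rw cs f) (v * pr cs.simple s s' n * cs.simple s) d ∧
      ReflTransGen (Rw cs f) (v * pr cs.simple s s' n * cs.simple s') d := by
  have hM0 : M s s' ≠ 0 := M_ne_zero cs s s'
  have hM1 : M s s' ≠ 1 := M.off_diagonal s s' hne
  have hMs : M s' s = M s s' := M.symmetric s' s
  obtain ⟨τ, ρ, hτ, hρ, hc⟩ := h3 s s' hne v hv hv'
  obtain ⟨τ', ρ', hτ', hρ', hc'⟩ := h3 s' s hne.symm v hv' hv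
  have htop := dih_top cs s s'
  rw [hMs] at hc'
  set m : ℕ := M s s' with hm
  have hm2 : 2 ≤ m := by omega
  obtain ⟨c, hcdef⟩ : ∃ c : ℕ → ℝ, ∀ k, c k = f (v * pr cs.simple s s' k) (lt s s' k) :=
    ⟨_, fun _ => rfl⟩
  obtain ⟨c', hcdef'⟩ : ∃ c : ℕ → ℝ, ∀ k, c k = f (v * pr cs.simple s' s k) (lt s' s k) :=
    ⟨_, fun _ => rfl⟩
  obtain ⟨hpos, hneg, ⟨p, hp, hp0⟩, ⟨q, hq, hq0⟩⟩ := conf_arm (c := c) hm2 hτ hρ
    (fun k hk => by rw [hcdef, hc k hk])
  obtain ⟨hpos', hneg', ⟨p', hp', hp0'⟩, ⟨q', hq', hq0'⟩⟩ := conf_arm (c := c') hm2 hτ' hρ'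
    (fun k hk => by rw [hcdef', hc' k hk])
  have hcne : ∀ k, c k ≠ 0 := fun k => by rw [hcdef]; exact h1 _ _
  have hcne' : ∀ k, c' k ≠ 0 := fun k => by rw [hcdef']; exact h1 _ _
  have hup : ∀ {i j : ℕ}, i ≤ j → (∀ k, i ≤ k → k < j → c k < 0) →
      ReflTransGen (Rw cs f) (v * pr cs.simple s s' i) (v * pr cs.simple s s' j) :=
    fun hij h => conf_up cs f v s s' hij fun k h1 h2 => by rw [← hcdef]; exact h k h1 h2
  have hup' : ∀ {i j : ℕ}, i ≤ j → (∀ k, i ≤ k → k < j → c' k < 0) →
      ReflTransGen (Rw cs f) (v * pr cs.simple s' s i) (v * pr cs.simple s' s j) :=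
    fun hij h => conf_up cs f v s' s hij fun k h1 h2 => by rw [← hcdef']; exact h k h1 h2
  have hdn : ∀ {i j : ℕ}, i ≤ j → (∀ k, i ≤ k → k < j → 0 < c k) →
      ReflTransGen (Rw cs f) (v * pr cs.simple s s' j) (v * pr cs.simple s s' i) :=
    fun hij h => conf_down cs h2 v s s' hij fun k h1 h2 => by rw [← hcdef]; exact h k h1 h2
  have hdn' : ∀ {i j : ℕ}, i ≤ j → (∀ k, i ≤ k → k < j → 0 < c' k) →
      ReflTransGen (Rw cs f) (v * pr cs.simple s' s j) (v * pr cs.simple s' s i) :=
    fun hij h => conf_down cs h2 v s' s hij fun k h1 h2 => by rw [← hcdef']; exact h k h1 h2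
  rcases Nat.eq_zero_or_pos n with hn0 | hn0
  · -- the bottom of the coset
    subst hn0
    have e0 : v * pr cs.simple s s' 0 = v := mul_one v
    rw [e0] at hs hs' ⊢
    have a0 : c 0 < 0 := by rw [hp0]; exact mul_neg_of_pos_of_neg hp hs
    have a1 : c (m - 1) < 0 := by rw [hq0]; exact mul_neg_of_pos_of_neg hq hs'
    have b0 : c' 0 < 0 := by rw [hp0']; exact mul_neg_of_pos_of_neg hp' hs'
    have b1 : c' (m - 1) < 0 := by rw [hq0']; exact mul_neg_of_pos_of_neg hq' hs
    have hall : ∀ k, k < m → c k < 0 := by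
      intro k hk
      rcases Nat.eq_zero_or_pos k with h | h
      · rw [h]; exact a0
      · rcases Nat.lt_or_ge k (m - 1) with h' | h'
        · exact hneg 0 k (m - 1) h h' (by omega) a0 a1
        · rw [show k = m - 1 by omega]; exact a1
    have hall' : ∀ k, k < m → c' k < 0 := by
      intro k hk
      rcases Nat.eq_zero_or_pos k with h | h
      · rw [h]; exact b0
      · rcases Nat.lt_or_ge k (m - 1) with h' | h'
        · exact hneg' 0 k (m - 1) h h' (by omega) b0 b1
        · rw [show k = m - 1 by omega]; exact b1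
    refine ⟨v * pr cs.simple s s' m, ?_, ?_⟩
    · have h := hup (i := 1) (j := m) (by omega) (fun k _ hk => hall k hk)
      have e : v * pr cs.simple s s' 1 = v * cs.simple s := by
        simp [pr, lt]
      rw [e] at h
      exact h
    · have h := hup' (i := 1) (j := m) (by omega) (fun k _ hk => hall' k hk)
      have e : v * pr cs.simple s' s 1 = v * cs.simple s' := by
        simp [pr, lt]
      rw [e, ← htop] at h
      exact h
  · rcases Nat.lt_or_ge n m with hnm | hnm
    · -- the interior of the arm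
      obtain ⟨r, rfl⟩ : ∃ r, n = r + 1 := ⟨n - 1, by omega⟩
      have hl : (lt s s' (r + 1) = s ∧ lt s s' r = s') ∨ (lt s s' (r + 1) = s' ∧ lt s s' r = s) := by
        unfold lt
        rcases Nat.mod_two_eq_zero_or_one r with h | h
        · right
          rw [if_neg (by omega), if_pos h]
          exact ⟨rfl, rfl⟩
        · left
          rw [if_pos (by omega), if_neg (by omega)]
          exact ⟨rfl, rfl⟩
      have hf1 : c (r + 1) < 0 := by
        rw [hcdef]
        rcases hl with h | h
        · rw [h.1]; exact hs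
        · rw [h.1]; exact hs'
      have hf2 : 0 < c r := by
        have h4 : f (v * pr cs.simple s s' (r + 1)) (lt s s' r) < 0 := by
          rcases hl with h | h
          · rw [h.2]; exact hs'
          · rw [h.2]; exact hs
        have h5 := conf_h2 cs h2 v s s' r
        rw [← hcdef] at h5
        by_contra hcon
        push Not at hcon
        nlinarith [mul_nonneg (neg_nonneg.2 h4.le) (neg_nonneg.2 hcon)]
      have hlow : ∀ k, k ≤ r → 0 < c k := by
        intro k hk
        rcases Nat.lt_or_ge k r with h | h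
        · by_contra hcon
          have h6 : c k < 0 := lt_of_le_of_ne (not_lt.1 hcon) (hcne k)
          exact absurd (hneg k r (r + 1) h (by omega) hnm h6 hf1) (not_lt.2 hf2.le)
        · rw [show k = r by omega]; exact hf2
      have hhigh : ∀ k, r + 1 ≤ k → k < m → c k < 0 := by
        intro k hk hkm
        rcases Nat.lt_or_ge (r + 1) k with h | h
        · by_contra hcon
          have h6 : 0 < c k := lt_of_le_of_ne (not_lt.1 hcon) (hcne k).symm
          exact absurd (hpos r (r + 1) k (by omega) h hkm hf2 h6) (not_lt.2 hf1.le)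
        · rw [show k = r + 1 by omega]; exact hf1
      have hα : 0 < f v s := by
        have h6 := hlow 0 (by omega)
        rw [hp0] at h6
        exact (mul_pos_iff_of_pos_left hp).1 h6
      have hβ : f v s' < 0 := by
        have h6 := hhigh (m - 1) (by omega) (by omega)
        rw [hq0] at h6
        by_contra hcon
        push Not at hcon
        nlinarith [mul_nonneg hq.le hcon]
      have b0 : c' 0 < 0 := by rw [hp0']; exact mul_neg_of_pos_of_neg hp' hβ
      have b1 : 0 < c' (m - 1) := by rw [hq0']; exact mul_pos hq' hα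
      classical
      have hex : ∃ j, 0 < c' j := ⟨m - 1, b1⟩
      set j : ℕ := Nat.find hex with hj
      have hj1 : 0 < c' j := Nat.find_spec hex
      have hj2 : ∀ k, k < j → c' k < 0 := by
        intro k hk
        have h6 := Nat.find_min hex hk
        exact lt_of_le_of_ne (not_lt.1 h6) (hcne' k)
      have hj3 : j ≤ m - 1 := Nat.find_min' hex b1
      have hj4 : 0 < j := by
        rcases Nat.eq_zero_or_pos j with h | h
        · rw [h] at hj1
          exact absurd hj1 (not_lt.2 b0.le)
        · exact h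
      have hj5 : ∀ k, j ≤ k → k < m → 0 < c' k := by
        intro k hk hkm
        rcases Nat.lt_or_ge j k with h | h
        · by_contra hcon
          have h6 : c' k < 0 := lt_of_le_of_ne (not_lt.1 hcon) (hcne' k)
          exact absurd (hneg' 0 j k hj4 h hkm b0 h6) (not_lt.2 hj1.le)
        · rw [show k = j by omega]; exact hj1
      have w1 : ReflTransGen (Rw cs f) (v * pr cs.simple s s' r) (v * pr cs.simple s' s j) := by
        have h6 := hdn (i := 0) (j := r) (by omega) (fun k _ hk => hlow k hk.le)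
        have h7 := hup' (i := 0) (j := j) (by omega) (fun k _ hk => hj2 k hk)
        exact h6.trans h7
      have w2 : ReflTransGen (Rw cs f) (v * pr cs.simple s s' (r + 2))
          (v * pr cs.simple s' s j) := by
        have h6 := hup (i := r + 2) (j := m) (by omega) (fun k hk hk' => hhigh k (by omega) hk')
        have h7 := hdn' (i := j) (j := m) (by omega) hj5
        rw [← htop] at h7
        exact h6.trans h7
      have e1 : v * pr cs.simple s s' (r + 1) * cs.simple (lt s s' r) =
          v * pr cs.simple s s' r := conf_back cs v s s' r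
      have e2 : v * pr cs.simple s s' (r + 1) * cs.simple (lt s s' (r + 1)) =
          v * pr cs.simple s s' (r + 2) := mul_assoc _ _ _
      refine ⟨v * pr cs.simple s' s j, ?_⟩
      rcases hl with h | h
      · rw [h.1] at e2
        rw [h.2] at e1
        rw [e1, e2]
        exact ⟨w2, w1⟩
      · rw [h.1] at e2
        rw [h.2] at e1
        rw [e1, e2]
        exact ⟨w1, w2⟩
    · -- the top of the coset
      have hnm' : n = m := by omega
      subst hnm'
      obtain ⟨r, hr⟩ : ∃ r, m = r + 1 := ⟨m - 1, by omega⟩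
      have hr' : m - 1 = r := by omega
      have hl : (lt s s' r = s ∧ lt s' s r = s') ∨ (lt s s' r = s' ∧ lt s' s r = s) := by
        unfold lt
        rcases Nat.mod_two_eq_zero_or_one r with h | h
        · left
          rw [if_pos h, if_pos h]
          exact ⟨rfl, rfl⟩
        · right
          rw [if_neg (by omega), if_neg (by omega)]
          exact ⟨rfl, rfl⟩
      have htop' := htop
      rw [hr] at htop'
      have hf1 : 0 < c r := by
        have h4 : f (v * pr cs.simple s s' (r + 1)) (lt s s' r) < 0 := by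
          rw [← hr]
          rcases hl with h | h
          · rw [h.1]; exact hs
          · rw [h.1]; exact hs'
        have h5 := conf_h2 cs h2 v s s' r
        rw [← hcdef] at h5
        by_contra hcon
        push Not at hcon
        nlinarith [mul_nonneg (neg_nonneg.2 h4.le) (neg_nonneg.2 hcon)]
      have hf2 : 0 < c' r := by
        have h4 : f (v * pr cs.simple s' s (r + 1)) (lt s' s r) < 0 := by
          rw [← htop', ← hr]
          rcases hl with h | h
          · rw [h.2]; exact hs'
          · rw [h.2]; exact hs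
        have h5 := conf_h2 cs h2 v s' s r
        rw [← hcdef'] at h5
        by_contra hcon
        push Not at hcon
        nlinarith [mul_nonneg (neg_nonneg.2 h4.le) (neg_nonneg.2 hcon)]
      have hβ : 0 < f v s' := by
        rw [← hr', hq0] at hf1
        exact (mul_pos_iff_of_pos_left hq).1 hf1
      have hα : 0 < f v s := by
        rw [← hr', hq0'] at hf2
        exact (mul_pos_iff_of_pos_left hq').1 hf2
      have a0 : 0 < c 0 := by rw [hp0]; exact mul_pos hp hα
      have b0 : 0 < c' 0 := by rw [hp0']; exact mul_pos hp' hβ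
      have w1 : ReflTransGen (Rw cs f) (v * pr cs.simple s s' r) v := by
        have h6 := hdn (i := 0) (j := r) (by omega) (fun k _ hk => by
          rcases Nat.eq_zero_or_pos k with h | h
          · rw [h]; exact a0
          · exact hpos 0 k r h hk (by omega) a0 hf1)
        have e0 : v * pr cs.simple s s' 0 = v := mul_one v
        rw [e0] at h6
        exact h6
      have w2 : ReflTransGen (Rw cs f) (v * pr cs.simple s' s r) v := by
        have h6 := hdn' (i := 0) (j := r) (by omega) (fun k _ hk => by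
          rcases Nat.eq_zero_or_pos k with h | h
          · rw [h]; exact b0
          · exact hpos' 0 k r h hk (by omega) b0 hf2)
        have e0 : v * pr cs.simple s' s 0 = v := mul_one v
        rw [e0] at h6
        exact h6
      have e1 : v * pr cs.simple s s' m * cs.simple (lt s s' r) =
          v * pr cs.simple s s' r := by
        rw [hr]
        exact conf_back cs v s s' r
      have e2 : v * pr cs.simple s s' m * cs.simple (lt s' s r) =
          v * pr cs.simple s' s r := by
        rw [htop, hr]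
        exact conf_back cs v s' s r
      refine ⟨v, ?_⟩
      rcases hl with h | h
      · rw [h.1] at e1
        rw [h.2] at e2
        rw [e1, e2]
        exact ⟨w1, w2⟩
      · rw [h.1] at e1
        rw [h.2] at e2
        rw [e1, e2]
        exact ⟨w2, w1⟩

theorem local_confluence [Finite W] (f : W → S → ℝ) (h1 : ∀ v s, f v s ≠ 0)
    (h2 : ∀ v s, f (v * cs.simple s) s * f v s < 0)
    (h3 : ∀ s s', s ≠ s' → ∀ v, ¬ cs.IsRightDescent v s → ¬ cs.IsRightDescent v s' →
      ∃ (τ : ℕ → ℝ) (ρ : ℝ), (∀ n, 0 < τ n) ∧ 0 < ρ ∧ ∀ n < M s s',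
        f (v * pr cs.simple s s' n) (lt s s' n) =
          τ n * (Real.sin (((n : ℝ) + 1) * (Real.pi / M s s')) * f v s +
            ρ * Real.sin ((n : ℝ) * (Real.pi / M s s')) * f v s')) :
    ∀ a b c, Rw cs f a b → Rw cs f a c → ∃ d, ReflTransGen (Rw cs f) b d ∧
      ReflTransGen (Rw cs f) c d := by
  rintro a b c ⟨s, hb, hs⟩ ⟨s', hc, hs'⟩
  subst hb hc
  by_cases hne : s = s'
  · subst hne
    exact ⟨_, ReflTransGen.refl, ReflTransGen.refl⟩
  · obtain ⟨v, n, hv, hv', hn, ha | ha⟩ := dih_cases cs hne (M_ne_zero cs s s') a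
    · subst ha
      exact conf_main cs h1 h2 h3 hne hv hv' hn hs hs'
    · subst ha
      have hMs : M s' s = M s s' := M.symmetric s' s
      obtain ⟨d, h4, h5⟩ := conf_main cs h1 h2 h3 (Ne.symm hne) hv' hv (by omega) hs' hs
      exact ⟨d, h5, h4⟩

end H42.NU
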