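import Pool.Agent.H42.NU.LiftP

/-!
# NCU E1: Hurwitz orbits, group part
-/

set_option autoImplicit false

namespace H42.NU

open Relation

universe u w

variable {S : Type u} {G : Type w} [Group G] {σ : S → G}

private theorem hm_mem {τ τ' : List G} (H : Subgroup G) (h : EqvGen HMove τ τ') :
    (∀ x ∈ τ, x ∈ H) ↔ (∀ x ∈ τ', x ∈ H) := by
  induction h with
  | rel _ _ h =>
    obtain ⟨l, r, a, b⟩ := h
    simp only [List.mem_append, List.mem_cons]
    constructor
    · intro h x hx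
      have ha := h a (by simp)
      have hb := h b (by simp)
      rcases hx with hx | rfl | rfl | hx
      · exact h x (Or.inl hx)
      · exact hb
      · exact mul_mem (mul_mem (inv_mem hb) ha) hb
      · exact h x (Or.inr (Or.inr (Or.inr hx)))
    · intro h x hx
      have hb := h b (by simp)
      have hc := h (b⁻¹ * a * b) (by simp)
      have ha : a ∈ H := by
        have := mul_mem (mul_mem hb hc) (inv_mem hb)
        have e : b * (b⁻¹ * a * b) * b⁻¹ = a := by group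
        rwa [e] at this
      rcases hx with hx | rfl | rfl | hx
      · exact h x (Or.inl hx)
      · exact ha
      · exact hb
      · exact h x (Or.inr (Or.inr (Or.inr hx)))
  | refl => exact Iff.rfl
  | symm _ _ _ ih => exact ih.symm
  | trans _ _ _ _ _ ih₁ ih₂ => exact ih₁.trans ih₂

private theorem hm_append {τ τ' : List G} (h : EqvGen HMove τ τ') (ρ : List G) :
    EqvGen HMove (τ ++ ρ) (τ' ++ ρ) := by
  induction h with
  | rel _ _ h =>
    obtain ⟨l, r, a, b⟩ := h
    have h1 : l ++ a :: b :: r ++ ρ = l ++ a :: b :: (r ++ ρ) := by simp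
    have h2 : l ++ b :: (b⁻¹ * a * b) :: r ++ ρ = l ++ b :: (b⁻¹ * a * b) :: (r ++ ρ) := by simp
    rw [h1, h2]
    exact .rel _ _ (.move _ _ _ _)
  | refl => exact .refl _
  | symm _ _ _ ih => exact .symm _ _ ih
  | trans _ _ _ _ _ ih₁ ih₂ => exact .trans _ _ _ ih₁ ih₂

private theorem hm_cons {τ τ' : List G} (h : EqvGen HMove τ τ') (a : G) :
    EqvGen HMove (a :: τ) (a :: τ') := by
  induction h with
  | rel _ _ h =>
    obtain ⟨l, r, x, b⟩ := h
    exact .rel _ _ (.move (a :: l) r x b)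
  | refl => exact .refl _
  | symm _ _ _ ih => exact .symm _ _ ih
  | trans _ _ _ _ _ ih₁ ih₂ => exact .trans _ _ _ ih₁ ih₂

private theorem hm_conj {τ τ' : List G} (h : EqvGen HMove τ τ') (c : G) :
    EqvGen HMove (τ.map fun x => c⁻¹ * x * c) (τ'.map fun x => c⁻¹ * x * c) := by
  induction h with
  | rel _ _ h =>
    obtain ⟨l, r, a, b⟩ := h
    simp only [List.map_append, List.map_cons]
    have h1 : c⁻¹ * (b⁻¹ * a * b) * c = (c⁻¹ * b * c)⁻¹ * (c⁻¹ * a * c) * (c⁻¹ * b * c) := by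
      group
    rw [h1]
    exact .rel _ _ (.move _ _ _ _)
  | refl => exact .refl _
  | symm _ _ _ ih => exact .symm _ _ ih
  | trans _ _ _ _ _ ih₁ ih₂ => exact .trans _ _ _ ih₁ ih₂

private theorem hm_shift (τ : List G) (c : G) :
    EqvGen HMove (τ ++ [c]) (c :: τ.map fun x => c⁻¹ * x * c) := by
  induction τ with
  | nil => exact .refl _
  | cons a τ ih =>
    have h1 := hm_cons ih a
    refine .trans _ _ _ h1 (.rel _ _ ?_)
    exact HMove.move [] (τ.map fun x => c⁻¹ * x * c) a c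

theorem dg_mem_GP {l : List S} {θ : G} (h : θ ∈ dg σ l) : θ ∈ GP σ {s | s ∈ l} := by
  obtain ⟨τ, hτ, hθ⟩ := h
  refine (hm_mem (GP σ {s | s ∈ l}) hτ).mp ?_ θ hθ
  intro x hx
  obtain ⟨s, hs, rfl⟩ := List.mem_map.mp hx
  exact Subgroup.subset_closure ⟨s, hs, rfl⟩

theorem dg_gen {l : List S} {s : S} (h : s ∈ l) : σ s ∈ dg σ l :=
  ⟨l.map σ, .refl _, List.mem_map_of_mem h⟩

theorem dg_append_left {l : List S} {θ : G} (h : θ ∈ dg σ l) (s : S) : θ ∈ dg σ (l ++ [s]) := by
  obtain ⟨τ, hτ, hθ⟩ := h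
  refine ⟨τ ++ [σ s], ?_, List.mem_append_left _ hθ⟩
  rw [List.map_append, List.map_singleton]
  exact hm_append hτ _

theorem dg_conj {l : List S} {s : S} {θ : G} (h : θ ∈ dg σ (s :: l)) :
    (σ s)⁻¹ * θ * σ s ∈ dg σ (l ++ [s]) := by
  obtain ⟨τ, hτ, hθ⟩ := h
  refine ⟨τ.map fun x => (σ s)⁻¹ * x * σ s, ?_, List.mem_map.mpr ⟨θ, hθ, rfl⟩⟩
  have h1 := hm_conj hτ (σ s)
  have h2 := hm_shift (l.map σ) (σ s)
  rw [List.map_append, List.map_singleton]
  refine .trans _ _ _ h2 ?_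
  have h3 : ((s :: l).map σ).map (fun x => (σ s)⁻¹ * x * σ s) =
      σ s :: (l.map σ).map (fun x => (σ s)⁻¹ * x * σ s) := by
    simp
  rw [h3] at h1
  exact h1

end H42.NU
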