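import Pool.Agent.H42.NU.Basic

/-!
# NCU D1: supports and conjugation of the cocycle on a parabolic subgroup

`GP σ J` is the subgroup generated by the `σ s`, `s ∈ J`. `IsRep F σ L` over any commutative ring.
`supp_row`, `supp_col`: for `g ∈ GP σ J` the matrix `L g` is zero outside `J × J`. By `Subgroup.closure_induction`: generators
`single s s 1`; `1` clear; products by the formula `L g + L k - L g * F * L k` (rows of the last term: rows of `L g`; columns:
columns of `L k`); inverse: `0 = L (g⁻¹ g) = L g⁻¹ + (1 - L g⁻¹ F) L g` gives the columns, and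
`0 = L (g g⁻¹) = L g⁻¹ + L g (1 - F L g⁻¹)` (`mul_right'`) gives the rows.

`conj_block`: `d i * F' i j = F i j * d j` for `i, j ∈ J` implies `d i * L' g i j = L g i j * d j` for `g ∈ GP σ J` and all `i, j`,
that is `D L'(g) = L(g) D` with `D = Matrix.diagonal d`. Induction as above. Generators: both sides are `d s` at `(s, s)`, else `0`.
Product: `D L'(g k) = D L'(g) + D L'(k) - D L'(g) F' L'(k) = L(g) D + L(k) D - L(g) D F' L'(k)`; since `L(g)` has columns in
`J` and `L'(k)` rows in `J`, `L(g) D F' L'(k) = L(g) F D L'(k) = L(g) F L(k) D` (entrywise double sum over `a, b ∈ J`: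
`L(g) i a * d a * F' a b * L'(k) b j = L(g) i a * F a b * d b * L'(k) b j`; for `a ∉ J` or `b ∉ J` both are `0`).
Inverse: let `D L'(g) = L(g) D`. From `0 = L'(g g⁻¹) = L'(g) + L'(g⁻¹) - L'(g) F' L'(g⁻¹)` multiply by `D` from the left:
with `Y = D L'(g⁻¹)`: `0 = L(g) D + Y - L(g) F Y` (same block argument), and with `Z = L(g⁻¹) D`:
`0 = L(g) D + Z - L(g) F Z`. So `(1 - L(g) F)(Y - Z) = 0`; multiply by the inverse (`am_inv'`): `Y = Z`.
-/

set_option autoImplicit false

namespace H42.NU

universe u v w

variable {S : Type u} [Fintype S] [DecidableEq S] {R : Type v} [CommRing R] {G : Type w} [Group G]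
  {F F' : Matrix S S R} {σ : S → G} {L L' : G → Matrix S S R} {J : Set S}

theorem supp_row (h : IsRep F σ L) {g : G} (hg : g ∈ GP σ J) {i : S} (hi : i ∉ J) (j : S) :
    L g i j = 0 := by
  have key : ∀ g ∈ Subgroup.closure (σ '' J), ∀ j, L g i j = 0 := by
    intro g hg
    refine Subgroup.closure_induction (p := fun g _ => ∀ j, L g i j = 0) ?_ ?_ ?_ ?_ hg
    · rintro _ ⟨s, hs, rfl⟩ j
      rw [h.gen, Matrix.single_apply, if_neg]
      rintro ⟨h1, -⟩
      exact hi (h1 ▸ hs)
    · intro j
      rw [h.one]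
      rfl
    · intro g k _ _ ihg ihk j
      rw [mul_right' h, Matrix.add_apply, ihk j, zero_add, Matrix.mul_apply]
      exact Finset.sum_eq_zero fun a _ => by rw [ihg a, zero_mul]
    · intro g _ ihg j
      have h1 := mul_right' h g g⁻¹
      rw [mul_inv_cancel, h.one] at h1
      have h2 := congrFun (congrFun h1 i) j
      rw [Matrix.add_apply, Matrix.mul_apply,
        Finset.sum_eq_zero fun a _ => by rw [ihg a, zero_mul], add_zero] at h2
      exact h2.symm
  exact key g hg j

theorem supp_col (h : IsRep F σ L) {g : G} (hg : g ∈ GP σ J) {j : S} (hj : j ∉ J) (i : S) :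
    L g i j = 0 := by
  have key : ∀ g ∈ Subgroup.closure (σ '' J), ∀ i, L g i j = 0 := by
    intro g hg
    refine Subgroup.closure_induction (p := fun g _ => ∀ i, L g i j = 0) ?_ ?_ ?_ ?_ hg
    · rintro _ ⟨s, hs, rfl⟩ i
      rw [h.gen, Matrix.single_apply, if_neg]
      rintro ⟨-, h1⟩
      exact hj (h1 ▸ hs)
    · intro i
      rw [h.one]
      rfl
    · intro g k _ _ ihg ihk i
      rw [mul_left' h, Matrix.add_apply, ihg i, zero_add, Matrix.mul_apply]
      exact Finset.sum_eq_zero fun a _ => by rw [ihk a, mul_zero]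
    · intro g _ ihg i
      have h1 := mul_left' h g⁻¹ g
      rw [inv_mul_cancel, h.one] at h1
      have h2 := congrFun (congrFun h1 i) j
      rw [Matrix.add_apply, Matrix.mul_apply,
        Finset.sum_eq_zero fun a _ => by rw [ihg a, mul_zero], add_zero] at h2
      exact h2.symm
  exact key g hg i

private theorem Supp_block (d : S → R)
    (hF : ∀ i ∈ J, ∀ j ∈ J, d i * F' i j = F i j * d j) (X Y : Matrix S S R)
    (hX : ∀ a, a ∉ J → ∀ i, X i a = 0) (hY : ∀ b, b ∉ J → ∀ j, Y b j = 0) :
    X * Matrix.diagonal d * F' * Y = X * F * (Matrix.diagonal d * Y) := by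
  ext1 i j
  rw [Matrix.mul_apply, Matrix.mul_apply]
  refine Finset.sum_congr rfl fun b _ => ?_
  rw [Matrix.diagonal_mul]
  by_cases hb : b ∈ J
  · rw [← mul_assoc]
    congr 1
    rw [Matrix.mul_apply, Matrix.mul_apply, Finset.sum_mul]
    refine Finset.sum_congr rfl fun a _ => ?_
    rw [Matrix.mul_diagonal]
    by_cases ha : a ∈ J
    · rw [mul_assoc, hF a ha b hb, mul_assoc]
    · rw [hX a ha i]
      ring
  · rw [hY b hb j]
    ring

theorem conj_block (h : IsRep F σ L) (h' : IsRep F' σ L') (d : S → R)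
    (hF : ∀ i ∈ J, ∀ j ∈ J, d i * F' i j = F i j * d j) {g : G} (hg : g ∈ GP σ J) (i j : S) :
    d i * L' g i j = L g i j * d j := by
  have key : ∀ g ∈ Subgroup.closure (σ '' J),
      Matrix.diagonal d * L' g = L g * Matrix.diagonal d := by
    intro g hg
    refine Subgroup.closure_induction
      (p := fun g _ => Matrix.diagonal d * L' g = L g * Matrix.diagonal d) ?_ ?_ ?_ ?_ hg
    · rintro _ ⟨s, hs, rfl⟩
      rw [h.gen, h'.gen]
      ext1 i j
      rw [Matrix.diagonal_mul, Matrix.mul_diagonal, Matrix.single_apply]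
      by_cases h1 : s = i ∧ s = j
      · rw [if_pos h1, ← h1.1, ← h1.2]
        ring
      · rw [if_neg h1]
        ring
    · rw [h.one, h'.one, mul_zero, zero_mul]
    · intro g k hg' hk' ihg ihk
      have h1 := Supp_block (F := F) (F' := F') d hF (L g) (L' k)
        (fun a ha i => supp_col h hg' ha i) (fun b hb j => supp_row h' hk' hb j)
      rw [h.mul, h'.mul]
      calc Matrix.diagonal d * (L' g + L' k - L' g * F' * L' k) =
            Matrix.diagonal d * L' g + Matrix.diagonal d * L' k -
              Matrix.diagonal d * L' g * F' * L' k := by noncomm_ring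
        _ = L g * Matrix.diagonal d + L k * Matrix.diagonal d -
              L g * F * (L k * Matrix.diagonal d) := by rw [ihg, ihk, h1, ihk]
        _ = (L g + L k - L g * F * L k) * Matrix.diagonal d := by noncomm_ring
    · intro g hg' ihg
      have hg'' : g⁻¹ ∈ GP σ J := Subgroup.inv_mem _ hg'
      have h1 := Supp_block (F := F) (F' := F') d hF (L g) (L' g⁻¹)
        (fun a ha i => supp_col h hg' ha i) (fun b hb j => supp_row h' hg'' hb j)
      have h2 := h.mul g g⁻¹
      have h3 := h'.mul g g⁻¹
      rw [mul_inv_cancel, h.one] at h2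
      rw [mul_inv_cancel, h'.one] at h3
      have h4 : (1 - L g * F) * (Matrix.diagonal d * L' g⁻¹) = -(L g * Matrix.diagonal d) := by
        have h5 : Matrix.diagonal d * (L' g + L' g⁻¹ - L' g * F' * L' g⁻¹) = 0 := by
          rw [← h3, mul_zero]
        have h6 : Matrix.diagonal d * (L' g + L' g⁻¹ - L' g * F' * L' g⁻¹) =
            Matrix.diagonal d * L' g + Matrix.diagonal d * L' g⁻¹ -
              Matrix.diagonal d * L' g * F' * L' g⁻¹ := by noncomm_ring
        rw [h6, ihg, h1] at h5
        have h7 : (1 - L g * F) * (Matrix.diagonal d * L' g⁻¹) + L g * Matrix.diagonal d = 0 := by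
          rw [← h5]
          noncomm_ring
        exact eq_neg_of_add_eq_zero_left h7
      have h8 : (1 - L g * F) * (L g⁻¹ * Matrix.diagonal d) = -(L g * Matrix.diagonal d) := by
        have h9 : (1 - L g * F) * (L g⁻¹ * Matrix.diagonal d) + L g * Matrix.diagonal d =
            (L g + L g⁻¹ - L g * F * L g⁻¹) * Matrix.diagonal d := by noncomm_ring
        rw [← h2, zero_mul] at h9
        exact eq_neg_of_add_eq_zero_left h9
      have h10 : (1 - L g⁻¹ * F) * ((1 - L g * F) * (Matrix.diagonal d * L' g⁻¹)) =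
          (1 - L g⁻¹ * F) * ((1 - L g * F) * (L g⁻¹ * Matrix.diagonal d)) := by rw [h4, h8]
      rw [← mul_assoc (1 - L g⁻¹ * F), ← mul_assoc (1 - L g⁻¹ * F), am_inv' h, one_mul,
        one_mul] at h10
      exact h10
  have h1 := congrFun (congrFun (key g hg) i) j
  rw [Matrix.diagonal_mul, Matrix.mul_diagonal] at h1
  exact h1

end H42.NU
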