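import Pool.Agent.H42.NU.Basic
import Pool.Agent.H42.NU.Supp
import Pool.Agent.H42.NU.HurwA

/-!
# NCU E2: the dual generators have constant rank one cocycles

`F = Fm M pos (T 1)`, `t = T 1`, `t⁻¹ = T (-1)`. `Fm_decomp`: `F i j = C (E i j) + T 1 * C (E j i)` with `E = Fm M pos (0 : ℝ)`
(`pos` injective, `kk M i j = kk M j i` by `M.symmetric`): `E i i = 1`, for `i ≠ j`: `E i j = -k` if `pos i < pos j`, else `0`.
Write `E(x, y) = Ef M pos x y`. So for constant vectors `xᵀ F y = E(x, y) + t E(y, x)` (`ef_F`).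

Claim: for every tuple `τ` in the class of `l.map σ` (`l` increasing for `pos`) there is a list `P` of pairs `(θ, β)` with
`P.map Prod.fst = τ` such that for all `(θ, β) ∈ P`: `Rank1 (L θ) β`, `E(β, β) = 1`, `β q = 0` for `q ∉ l`; and
`P.Pairwise (fun x y => E(y.2, x.2) = 0)` (later first). It holds for the start: `β = Pi.single s 1`, `E(e_j, e_i) = E j i = 0` if
`pos i < pos j`. A move `(a, α), (b, β) ↦ (b, β), (b⁻¹ a b, α')` with `α' = α - E(α, β) β`, where `E(β, α) = 0`:
`L (b⁻¹ a b) = (1 - L b⁻¹ F) L a (1 - F L b)` (`conj_rank1`), `L b⁻¹ = t⁻¹ β βᵀ` (`rank1_inv`, `βᵀ F β = 1 + t` as `E(β,β) = 1`),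
`(1 - L b⁻¹ F) α = α - t⁻¹ β (E(β, α) + t E(α, β)) = α - E(α, β) β = α'`,
`αᵀ (1 - F L b) = αᵀ - (E(α, β) + t E(β, α)) βᵀ = α'ᵀ`. So `L (b⁻¹ a b) = α' α'ᵀ`. `E(α', α') = 1 - E(α,β)² + E(α,β)² = 1`
(`E(β, α) = 0`), `E(α', β) = E(α, β) - E(α, β) = 0`, and `E(x, α') = E(x, α) - E(α,β) E(x, β) = 0` for later `x`,
`E(α', y) = 0` for earlier `y`. Inverse move `(b, β), (c, γ) ↦ (b c b⁻¹, γ'), (b, β)` with `E(γ, β) = 0`,
`γ' = γ - E(β, γ) β`: `L (b c b⁻¹) = (1 - L b F) L c (1 - F L b⁻¹)` (`conj_rank1` with `b⁻¹`),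
`(1 - L b F) γ = γ - β (E(β, γ) + t E(γ, β)) = γ'`, `γᵀ (1 - F L b⁻¹) = γᵀ - t⁻¹ (E(γ, β) + t E(β, γ)) βᵀ = γ'ᵀ`;
`E(γ', γ') = 1`, `E(β, γ') = E(β, γ) - E(β, γ) = 0` (now `b` is the later one), the others as before.
So the existence of such a `P` is invariant under moves in both directions (induction on `EqvGen`, prove an `↔`;
write the list as `P₁ ++ x :: y :: P₂` by `List.map_eq_append_iff`, `List.map_eq_cons_iff`; `List.pairwise_append`,
`List.pairwise_cons`).

`rank1_unique`: `β i β j = γ i γ j` for all `i, j` implies `β = γ` or `β = -γ` (if `β ≠ 0` pick `i` with `β i ≠ 0`, `γ i = ± β i`,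
then `γ j = ± β j`).
`rank1_quad`: if `E(β, β) = 1` then `∑ i, ∑ j, C (β i) * F i j * C (β j) = 1 + T 1`.
`dg_inv`: for `θ ∈ dg σ l` with `Rank1 (L θ) β`: `L θ⁻¹ i j = T (-1) * C (β i * β j)`.
-/

set_option autoImplicit false

namespace H42.NU

open LaurentPolynomial

universe u v w

variable {S : Type u} [Fintype S] [DecidableEq S] {M : CoxeterMatrix S} {G : Type w} [Group G]
  {σ : S → G} {pos : S → ℕ} {L : G → Matrix S S Lau}

theorem Fm_decomp (hpos : Function.Injective pos) (i j : S) : Fm M pos (T 1 : Lau) i j =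
    C (Fm M pos (0 : ℝ) i j) + T 1 * C (Fm M pos (0 : ℝ) j i) := by
  unfold Fm
  simp only [Matrix.of_apply]
  by_cases hij : i = j
  · subst hij
    simp
  · have hji : ¬ j = i := fun h => hij h.symm
    rw [if_neg hij, if_neg hij, if_neg hji]
    have hk : kk M j i = kk M i j := by
      unfold kk
      rw [M.symmetric j i]
    rw [hk, LaurentPolynomial.C_eq_algebraMap]
    rcases lt_trichotomy (pos i) (pos j) with h | h | h
    · rw [if_neg (not_lt.2 h.le), if_neg (not_lt.2 h.le), if_pos h]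
      simp
    · exact absurd (hpos h) hij
    · rw [if_pos h, if_pos h, if_neg (not_lt.2 h.le)]
      simp only [mul_zero, neg_zero, map_zero, zero_add, mul_one, map_neg, Algebra.algebraMap_self,
        RingHom.id_apply]
      rw [← LaurentPolynomial.C_eq_algebraMap, mul_comm, mul_neg]

private theorem HurwB_C_inj {a b : ℝ} (h : (C a : Lau) = C b) : a = b := by
  have := congrArg (fun p : Lau => p.coeff 0) h
  simpa [C_apply] using this

theorem rank1_unique {X : Matrix S S Lau} {β γ : S → ℝ} (h : Rank1 X β) (h' : Rank1 X γ) :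
    β = γ ∨ β = -γ := by
  have key : ∀ i j, β i * β j = γ i * γ j := fun i j =>
    HurwB_C_inj ((h i j).symm.trans (h' i j))
  by_cases hβ : β = 0
  · left
    rw [hβ]
    funext i
    have h1 := key i i
    rw [hβ] at h1
    simp only [Pi.zero_apply, mul_zero] at h1 ⊢
    exact (mul_self_eq_zero.1 h1.symm).symm
  · obtain ⟨i, hi⟩ := Function.ne_iff.1 hβ
    simp only [Pi.zero_apply] at hi
    rcases mul_self_eq_mul_self_iff.1 (key i i) with h1 | h1
    · left
      funext j
      have h2 := key i j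
      rw [← h1] at h2
      exact mul_left_cancel₀ hi h2
    · right
      funext j
      have h2 := key i j
      have h3 : γ i = -β i := by linarith
      rw [h3] at h2
      have h4 : β i * β j = β i * (-γ j) := by linarith
      exact mul_left_cancel₀ hi h4

/-- the form of two constant vectors -/
private theorem HurwB_ef_F (hpos : Function.Injective pos) (x y : S → ℝ) :
    ∑ i, ∑ j, C (x i) * Fm M pos (T 1 : Lau) i j * C (y j) =
      C (Ef M pos x y) + T 1 * C (Ef M pos y x) := by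
  have h1 : ∑ i, ∑ j, C (x i) * Fm M pos (T 1 : Lau) i j * C (y j) =
      ∑ i, ∑ j, C (x i * Fm M pos (0 : ℝ) i j * y j) +
        T 1 * ∑ i, ∑ j, C (y j * Fm M pos (0 : ℝ) j i * x i) := by
    rw [Finset.mul_sum, ← Finset.sum_add_distrib]
    refine Finset.sum_congr rfl fun i _ => ?_
    rw [Finset.mul_sum, ← Finset.sum_add_distrib]
    refine Finset.sum_congr rfl fun j _ => ?_
    rw [Fm_decomp hpos]
    simp only [map_mul]
    ring
  rw [h1]
  unfold Ef
  congr 1
  · simp only [map_sum]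
  · rw [Finset.sum_comm]
    simp only [map_sum]

theorem rank1_quad (hpos : Function.Injective pos) {β : S → ℝ} (h : Ef M pos β β = 1) :
    ∑ i, ∑ j, C (β i) * Fm M pos (T 1 : Lau) i j * C (β j) = 1 + T 1 := by
  rw [HurwB_ef_F hpos, h, map_one, mul_one]

private theorem HurwB_Ef_left (x y z : S → ℝ) (c : ℝ) :
    Ef M pos (fun i => x i - c * z i) y = Ef M pos x y - c * Ef M pos z y := by
  unfold Ef
  rw [Finset.mul_sum, ← Finset.sum_sub_distrib]
  refine Finset.sum_congr rfl fun i _ => ?_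
  rw [Finset.mul_sum, ← Finset.sum_sub_distrib]
  refine Finset.sum_congr rfl fun j _ => ?_
  ring

private theorem HurwB_Ef_right (x y z : S → ℝ) (c : ℝ) :
    Ef M pos y (fun i => x i - c * z i) = Ef M pos y x - c * Ef M pos y z := by
  unfold Ef
  rw [Finset.mul_sum, ← Finset.sum_sub_distrib]
  refine Finset.sum_congr rfl fun i _ => ?_
  rw [Finset.mul_sum, ← Finset.sum_sub_distrib]
  refine Finset.sum_congr rfl fun j _ => ?_
  ring

omit [Fintype S] [DecidableEq S] in
private theorem HurwB_vm {X : Matrix S S Lau} {β : S → ℝ} (h : Rank1 X β) :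
    X = Matrix.vecMulVec (fun i => C (β i)) (fun i => C (β i)) := by
  ext1 i j
  rw [h i j, Matrix.vecMulVec_apply, map_mul]

/-- `(1 - c β βᵀ F) α` -/
private theorem HurwB_left (hpos : Function.Injective pos) (c : Lau) (α β : S → ℝ) :
    (1 - (c • Matrix.vecMulVec (fun i => (C (β i) : Lau)) (fun i => C (β i))) *
      Fm M pos (T 1 : Lau)).mulVec (fun i => C (α i)) =
    fun i => C (α i) - c * (C (Ef M pos β α) + T 1 * C (Ef M pos α β)) * C (β i) := by
  funext i
  rw [Matrix.sub_mulVec, Matrix.one_mulVec, ← Matrix.mulVec_mulVec, Pi.sub_apply, ← HurwB_ef_F hpos]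
  congr 1
  rw [Matrix.mulVec, dotProduct]
  simp only [Matrix.smul_apply, Matrix.vecMulVec_apply, smul_eq_mul, Matrix.mulVec, dotProduct]
  rw [Finset.mul_sum, Finset.sum_mul]
  refine Finset.sum_congr rfl fun j _ => ?_
  rw [Finset.mul_sum, Finset.mul_sum, Finset.sum_mul]
  refine Finset.sum_congr rfl fun k _ => ?_
  ring

/-- `αᵀ (1 - F c β βᵀ)` -/
private theorem HurwB_right (hpos : Function.Injective pos) (c : Lau) (α β : S → ℝ) :
    Matrix.vecMul (fun i => (C (α i) : Lau)) (1 - Fm M pos (T 1 : Lau) *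
      (c • Matrix.vecMulVec (fun i => (C (β i) : Lau)) (fun i => C (β i)))) =
    fun i => C (α i) - c * (C (Ef M pos α β) + T 1 * C (Ef M pos β α)) * C (β i) := by
  funext i
  rw [Matrix.vecMul_sub, Matrix.vecMul_one, ← Matrix.vecMul_vecMul, Pi.sub_apply,
    ← HurwB_ef_F hpos]
  congr 1
  rw [Matrix.vecMul, dotProduct]
  simp only [Matrix.smul_apply, Matrix.vecMulVec_apply, smul_eq_mul, Matrix.vecMul, dotProduct]
  rw [Finset.sum_comm, Finset.mul_sum, Finset.sum_mul]
  refine Finset.sum_congr rfl fun j _ => ?_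
  rw [Finset.sum_mul, Finset.mul_sum, Finset.sum_mul]
  refine Finset.sum_congr rfl fun k _ => ?_
  ring

private theorem HurwB_inv (hpos : Function.Injective pos) (h : IsRep (Fm M pos (T 1 : Lau)) σ L)
    {θ : G} {β : S → ℝ} (hβ : Rank1 (L θ) β) (hE : Ef M pos β β = 1) :
    L θ⁻¹ = (T (-1) : Lau) • Matrix.vecMulVec (fun i => (C (β i) : Lau)) (fun i => C (β i)) :=
  rank1_inv h (HurwB_vm hβ) (rank1_quad hpos hE)
    (by rw [← T_add]; simp)

private theorem HurwB_conjA (hpos : Function.Injective pos)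
    (h : IsRep (Fm M pos (T 1 : Lau)) σ L) {a b : G} {α β : S → ℝ} (hα : Rank1 (L a) α)
    (hβ : Rank1 (L b) β) (hE : Ef M pos β β = 1) (h0 : Ef M pos β α = 0) :
    Rank1 (L (b⁻¹ * a * b)) (fun i => α i - Ef M pos α β * β i) := by
  have h1 : L (b⁻¹ * a * b) = Matrix.vecMulVec
      (fun i => (C (α i) : Lau) - T (-1) * (C (Ef M pos β α) + T 1 * C (Ef M pos α β)) * C (β i))
      (fun i => (C (α i) : Lau) - 1 * (C (Ef M pos α β) + T 1 * C (Ef M pos β α)) * C (β i)) := by
    rw [conj_rank1 h, HurwB_inv hpos h hβ hE, HurwB_vm hα, Matrix.mul_vecMulVec,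
      HurwB_left hpos, Matrix.vecMulVec_mul, HurwB_vm hβ]
    congr 1
    have := HurwB_right (M := M) hpos 1 α β
    rw [one_smul] at this
    exact this
  intro i j
  rw [h1, Matrix.vecMulVec_apply, h0]
  have h2 : (T (-1) : Lau) * T 1 = 1 := by rw [← T_add]; simp
  simp only [map_zero, zero_add, mul_zero, add_zero, one_mul, map_mul, map_sub]
  rw [← mul_assoc, h2, one_mul]

private theorem HurwB_conjB (hpos : Function.Injective pos)
    (h : IsRep (Fm M pos (T 1 : Lau)) σ L) {b c : G} {β γ : S → ℝ} (hγ : Rank1 (L c) γ)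
    (hβ : Rank1 (L b) β) (hE : Ef M pos β β = 1) (h0 : Ef M pos γ β = 0) :
    Rank1 (L (b * c * b⁻¹)) (fun i => γ i - Ef M pos β γ * β i) := by
  have h1 : L (b * c * b⁻¹) = Matrix.vecMulVec
      (fun i => (C (γ i) : Lau) - 1 * (C (Ef M pos β γ) + T 1 * C (Ef M pos γ β)) * C (β i))
      (fun i => (C (γ i) : Lau) - T (-1) * (C (Ef M pos γ β) + T 1 * C (Ef M pos β γ)) * C (β i)) := by
    have h3 := conj_rank1 h b⁻¹ c
    rw [inv_inv] at h3
    rw [h3, HurwB_inv hpos h hβ hE, HurwB_vm hγ, Matrix.mul_vecMulVec,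
      Matrix.vecMulVec_mul, HurwB_right hpos, HurwB_vm hβ]
    congr 1
    have := HurwB_left (M := M) hpos 1 γ β
    rw [one_smul] at this
    exact this
  intro i j
  rw [h1, Matrix.vecMulVec_apply, h0]
  have h2 : (T (-1) : Lau) * T 1 = 1 := by rw [← T_add]; simp
  simp only [map_zero, zero_add, mul_zero, add_zero, one_mul, map_mul, map_sub]
  rw [← mul_assoc, h2, one_mul]

/-- the data for one entry of a tuple -/
private def HurwB_P (M : CoxeterMatrix S) (pos : S → ℕ) (L : G → Matrix S S Lau) (l : List S)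
    (x : G × (S → ℝ)) : Prop :=
  Rank1 (L x.1) x.2 ∧ Ef M pos x.2 x.2 = 1 ∧ ∀ q, q ∉ l → x.2 q = 0

private def HurwB_Good (M : CoxeterMatrix S) (pos : S → ℕ) (L : G → Matrix S S Lau) (l : List S)
    (τ : List G) : Prop :=
  ∃ P : List (G × (S → ℝ)), P.map Prod.fst = τ ∧ (∀ x ∈ P, HurwB_P M pos L l x) ∧
    P.Pairwise (fun x y => Ef M pos y.2 x.2 = 0)

private theorem HurwB_fwd (hpos : Function.Injective pos)
    (h : IsRep (Fm M pos (T 1 : Lau)) σ L) (l : List S) (l' r : List G) (a b : G)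
    (hg : HurwB_Good M pos L l (l' ++ a :: b :: r)) :
    HurwB_Good M pos L l (l' ++ b :: (b⁻¹ * a * b) :: r) := by
  obtain ⟨P, hP, hall, hpw⟩ := hg
  obtain ⟨P₁, P₂, rfl, h1, h2⟩ := List.map_eq_append_iff.1 hP
  obtain ⟨⟨a', α⟩, P₃, rfl, rfl, h3⟩ := List.map_eq_cons_iff.1 h2
  obtain ⟨⟨b', β⟩, P₄, rfl, rfl, h4⟩ := List.map_eq_cons_iff.1 h3
  have hx := hall (a', α) (by simp)
  have hy := hall (b', β) (by simp)
  rw [List.pairwise_append, List.pairwise_cons, List.pairwise_cons] at hpw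
  obtain ⟨hp1, ⟨hp2, hp3, hp4⟩, hp5⟩ := hpw
  have e0 : Ef M pos β α = 0 := hp2 (b', β) (by simp)
  refine ⟨P₁ ++ (b', β) :: (b'⁻¹ * a' * b', fun i => α i - Ef M pos α β * β i) :: P₄, by
    simp [h1, h4], ?_, ?_⟩
  · intro x hx'
    rw [List.mem_append, List.mem_cons, List.mem_cons] at hx'
    rcases hx' with hx' | rfl | rfl | hx'
    · exact hall x (by simp [hx'])
    · exact hy
    · refine ⟨HurwB_conjA hpos h hx.1 hy.1 hy.2.1 e0, ?_, fun q hq => ?_⟩
      · simp only
        rw [HurwB_Ef_left, HurwB_Ef_right, HurwB_Ef_right, hx.2.1, hy.2.1, e0]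
        ring
      · simp only
        have e1 : α q = 0 := hx.2.2 q hq
        have e2 : β q = 0 := hy.2.2 q hq
        rw [e1, e2]
        ring
    · exact hall x (by simp [hx'])
  · rw [List.pairwise_append, List.pairwise_cons, List.pairwise_cons]
    refine ⟨hp1, ⟨?_, ?_, hp4⟩, ?_⟩
    · intro q hq
      rw [List.mem_cons] at hq
      rcases hq with rfl | hq
      · simp only
        have e1 : Ef M pos β β = 1 := hy.2.1
        rw [HurwB_Ef_left, e1]
        ring
      · exact hp3 q hq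
    · intro q hq
      simp only
      have e1 : Ef M pos q.2 α = 0 := hp2 q (by simp [hq])
      have e2 : Ef M pos q.2 β = 0 := hp3 q hq
      rw [HurwB_Ef_right, e1, e2]
      ring
    · intro p hp q hq
      rw [List.mem_cons, List.mem_cons] at hq
      rcases hq with rfl | rfl | hq
      · exact hp5 p hp _ (by simp)
      · simp only
        have e1 : Ef M pos α p.2 = 0 := hp5 p hp (a', α) (by simp)
        have e2 : Ef M pos β p.2 = 0 := hp5 p hp (b', β) (by simp)
        rw [HurwB_Ef_left, e1, e2]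
        ring
      · exact hp5 p hp q (by simp [hq])

private theorem HurwB_bwd (hpos : Function.Injective pos)
    (h : IsRep (Fm M pos (T 1 : Lau)) σ L) (l : List S) (l' r : List G) (a b : G)
    (hg : HurwB_Good M pos L l (l' ++ b :: (b⁻¹ * a * b) :: r)) :
    HurwB_Good M pos L l (l' ++ a :: b :: r) := by
  obtain ⟨P, hP, hall, hpw⟩ := hg
  obtain ⟨P₁, P₂, rfl, h1, h2⟩ := List.map_eq_append_iff.1 hP
  obtain ⟨⟨b', β⟩, P₃, rfl, rfl, h3⟩ := List.map_eq_cons_iff.1 h2
  obtain ⟨⟨c, γ⟩, P₄, rfl, hc, h4⟩ := List.map_eq_cons_iff.1 h3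
  have hx := hall (b', β) (by simp)
  have hy := hall (c, γ) (by simp)
  simp only at hc
  rw [List.pairwise_append, List.pairwise_cons, List.pairwise_cons] at hpw
  obtain ⟨hp1, ⟨hp2, hp3, hp4⟩, hp5⟩ := hpw
  have e0 : Ef M pos γ β = 0 := hp2 (c, γ) (by simp)
  have hca : b' * c * b'⁻¹ = a := by
    rw [hc]
    group
  have hR : Rank1 (L a) (fun i => γ i - Ef M pos β γ * β i) := by
    rw [← hca]
    exact HurwB_conjB hpos h hy.1 hx.1 hx.2.1 e0
  have eβ : Ef M pos β β = 1 := hx.2.1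
  have eγ : Ef M pos γ γ = 1 := hy.2.1
  refine ⟨P₁ ++ (a, fun i => γ i - Ef M pos β γ * β i) :: (b', β) :: P₄, by
    simp [h1, h4], ?_, ?_⟩
  · intro x hx'
    rw [List.mem_append, List.mem_cons, List.mem_cons] at hx'
    rcases hx' with hx' | rfl | rfl | hx'
    · exact hall x (by simp [hx'])
    · refine ⟨hR, ?_, fun q hq => ?_⟩
      · simp only
        rw [HurwB_Ef_left, HurwB_Ef_right, HurwB_Ef_right, eβ, eγ, e0]
        ring
      · simp only
        have e1 : γ q = 0 := hy.2.2 q hq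
        have e2 : β q = 0 := hx.2.2 q hq
        rw [e1, e2]
        ring
    · exact hx
    · exact hall x (by simp [hx'])
  · rw [List.pairwise_append, List.pairwise_cons, List.pairwise_cons]
    refine ⟨hp1, ⟨?_, ?_, hp4⟩, ?_⟩
    · intro q hq
      rw [List.mem_cons] at hq
      rcases hq with rfl | hq
      · simp only
        rw [HurwB_Ef_right, eβ]
        ring
      · simp only
        have e1 : Ef M pos q.2 γ = 0 := hp3 q hq
        have e2 : Ef M pos q.2 β = 0 := hp2 q (by simp [hq])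
        rw [HurwB_Ef_right, e1, e2]
        ring
    · intro q hq
      exact hp2 q (by simp [hq])
    · intro p hp q hq
      rw [List.mem_cons, List.mem_cons] at hq
      rcases hq with rfl | rfl | hq
      · simp only
        have e1 : Ef M pos γ p.2 = 0 := hp5 p hp (c, γ) (by simp)
        have e2 : Ef M pos β p.2 = 0 := hp5 p hp (b', β) (by simp)
        rw [HurwB_Ef_left, e1, e2]
        ring
      · exact hp5 p hp _ (by simp)
      · exact hp5 p hp q (by simp [hq])

private theorem HurwB_eqv (hpos : Function.Injective pos)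
    (h : IsRep (Fm M pos (T 1 : Lau)) σ L) (l : List S) {τ τ' : List G}
    (he : Relation.EqvGen HMove τ τ') :
    HurwB_Good M pos L l τ ↔ HurwB_Good M pos L l τ' := by
  induction he with
  | rel x y hxy =>
    cases hxy with
    | move l' r a b => exact ⟨HurwB_fwd hpos h l l' r a b, HurwB_bwd hpos h l l' r a b⟩
  | refl x => exact Iff.rfl
  | symm x y _ ih => exact ih.symm
  | trans x y z _ _ ih1 ih2 => exact ih1.trans ih2

omit [Fintype S] in
private theorem HurwB_single (i s : S) : (Pi.single s (1 : ℝ) : S → ℝ) i = if i = s then 1 else 0 := by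
  by_cases h : i = s
  · subst h; simp
  · simp [h]

private theorem HurwB_Ef_single (i j : S) :
    Ef M pos (Pi.single i 1) (Pi.single j 1) = Fm M pos (0 : ℝ) i j := by
  unfold Ef
  simp only [HurwB_single]
  rw [Finset.sum_eq_single i, Finset.sum_eq_single j]
  · simp
  · intro b _ hb
    simp [hb]
  · simp
  · intro b _ hb
    simp [hb]
  · simp

private theorem HurwB_start (h : IsRep (Fm M pos (T 1 : Lau)) σ L)
    {l : List S} (hl : l.Pairwise (fun i j => pos i < pos j)) :
    HurwB_Good M pos L l (l.map σ) := by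
  refine ⟨l.map fun s => (σ s, Pi.single s 1), by simp, ?_, ?_⟩
  · intro x hx
    obtain ⟨s, hs, rfl⟩ := List.mem_map.1 hx
    refine ⟨fun i j => ?_, ?_, fun q hq => ?_⟩
    · simp only
      rw [h.gen, HurwB_single, HurwB_single, Matrix.single_apply]
      by_cases h1 : s = i
      · by_cases h2 : s = j
        · subst h1; subst h2; simp
        · have h2' : ¬ j = s := fun h' => h2 h'.symm
          simp [h2, h2']
      · have h1' : ¬ i = s := fun h' => h1 h'.symm
        simp [h1, h1']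
    · simp only
      rw [HurwB_Ef_single]
      simp [Fm]
    · simp only
      rw [HurwB_single, if_neg]
      rintro rfl
      exact hq hs
  · rw [List.pairwise_map]
    refine hl.imp fun {i j} hij => ?_
    simp only
    rw [HurwB_Ef_single]
    have hne : ¬ j = i := by
      rintro rfl
      exact lt_irrefl _ hij
    simp [Fm, hne, hij]

theorem dg_rank1 (hpos : Function.Injective pos) (h : IsRep (Fm M pos (T 1 : Lau)) σ L)
    {l : List S} (hl : l.Pairwise (fun i j => pos i < pos j)) {θ : G} (hθ : θ ∈ dg σ l) :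
    ∃ β : S → ℝ, Rank1 (L θ) β ∧ Ef M pos β β = 1 ∧ ∀ q, q ∉ l → β q = 0 := by
  obtain ⟨τ, hτ, hm⟩ := hθ
  obtain ⟨P, rfl, hall, -⟩ := (HurwB_eqv hpos h l hτ).1 (HurwB_start h hl)
  obtain ⟨x, hx, rfl⟩ := List.mem_map.1 hm
  exact ⟨x.2, hall x hx⟩

theorem ef_of_rank1 (hpos : Function.Injective pos) (h : IsRep (Fm M pos (T 1 : Lau)) σ L)
    {l : List S} (hl : l.Pairwise (fun i j => pos i < pos j)) {θ : G} (hθ : θ ∈ dg σ l)
    {β : S → ℝ} (hβ : Rank1 (L θ) β) : Ef M pos β β = 1 ∧ ∀ q, q ∉ l → β q = 0 := by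
  obtain ⟨γ, h1, h2, h3⟩ := dg_rank1 hpos h hl hθ
  rcases rank1_unique hβ h1 with rfl | rfl
  · exact ⟨h2, h3⟩
  · refine ⟨?_, fun q hq => by rw [Pi.neg_apply, h3 q hq, neg_zero]⟩
    rw [← h2]
    unfold Ef
    refine Finset.sum_congr rfl fun i _ => Finset.sum_congr rfl fun j _ => ?_
    simp only [Pi.neg_apply]
    ring

theorem dg_inv (hpos : Function.Injective pos) (h : IsRep (Fm M pos (T 1 : Lau)) σ L)
    {l : List S} (hl : l.Pairwise (fun i j => pos i < pos j)) {θ : G} (hθ : θ ∈ dg σ l)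
    {β : S → ℝ} (hβ : Rank1 (L θ) β) (i j : S) : L θ⁻¹ i j = T (-1) * C (β i * β j) := by
  rw [HurwB_inv hpos h hβ (ef_of_rank1 hpos h hl hθ hβ).1, Matrix.smul_apply,
    Matrix.vecMulVec_apply, smul_eq_mul, map_mul]

end H42.NU
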