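import Pool.Agent.H42.NU.RP
import Pool.Agent.H42.NU.HurwB

/-!
# NCU E3: the vectors of covers have constant sign
-/

set_option autoImplicit false

namespace H42.NU

open LaurentPolynomial

universe u v w

variable {S : Type u} [Fintype S] [DecidableEq S] {W : Type v} [Group W] [Finite W]
  {M : CoxeterMatrix S} {cs : CoxeterSystem M W} {G : Type w} [Group G] {σ : S → G}
  {lift : W → G} {pos : S → ℕ} {L : G → Matrix S S Lau}

theorem cov_sign (hpos : Function.Injective pos) (h : IsRep (Fm M pos (T 1 : Lau)) σ L)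
    (hlf : IsLift cs σ lift) {u w : W} {θ : G} (he : lift u * θ = lift w) {γ : S → ℝ}
    (hγ : Rank1 (L θ) γ) : (∀ q, 0 ≤ γ q) ∨ (∀ q, γ q ≤ 0) := by
  have hθ : θ = (lift u)⁻¹ * lift w := by rw [← he]; group
  have hp : ∀ i j, 0 ≤ γ i * γ j := by
    intro i j
    have h1 := rp hpos h hlf u w i j 1 (by simp)
    rw [← hθ, hγ i j] at h1
    have h2 : ev 1 (C (γ i * γ j)) = γ i * γ j := by
      unfold ev
      rw [eval₂_C]
      rfl
    rwa [h2] at h1
  by_contra hcon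
  push Not at hcon
  obtain ⟨⟨a, ha⟩, b, hb⟩ := hcon
  exact absurd (hp a b) (not_le.mpr (mul_neg_of_neg_of_pos ha hb))

theorem cov_exists (hpos : Function.Injective pos) (h : IsRep (Fm M pos (T 1 : Lau)) σ L)
    (hlf : IsLift cs σ lift) {l : List S} (hl : l.Pairwise (fun i j => pos i < pos j)) {u w : W}
    {θ : G} (hθ : θ ∈ dg σ l) (he : lift u * θ = lift w) :
    ∃ β ∈ Cov σ lift L l u, Rank1 (L θ) β ∧ Ef M pos β β = 1 ∧ ∀ q, q ∉ l → β q = 0 := by
  obtain ⟨γ, hγ, hE, hs⟩ := dg_rank1 hpos h hl hθ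
  rcases cov_sign hpos h hlf he hγ with h1 | h1
  · exact ⟨γ, ⟨h1, θ, hθ, w, he, hγ⟩, hγ, hE, hs⟩
  · have hγ' : Rank1 (L θ) (-γ) := by
      intro i j
      rw [hγ i j]
      simp
    have hE' : Ef M pos (-γ) (-γ) = 1 := by
      rw [← hE]
      unfold Ef
      simp
    refine ⟨-γ, ⟨fun q => ?_, θ, hθ, w, he, hγ'⟩, hγ', hE', fun q hq => ?_⟩
    · simpa using h1 q
    · simp [hs q hq]

theorem cov_props (hpos : Function.Injective pos) (h : IsRep (Fm M pos (T 1 : Lau)) σ L)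
    {l : List S} (hl : l.Pairwise (fun i j => pos i < pos j)) {u : W} {β : S → ℝ}
    (hβ : β ∈ Cov σ lift L l u) : Ef M pos β β = 1 ∧ (∀ q, q ∉ l → β q = 0) ∧ ∃ a, 0 < β a := by
  obtain ⟨h0, θ, hθ, w, he, hr⟩ := hβ
  obtain ⟨h1, h2⟩ := ef_of_rank1 hpos h hl hθ hr
  refine ⟨h1, h2, ?_⟩
  by_contra hcon
  push Not at hcon
  have h3 : ∀ a, β a = 0 := fun a => le_antisymm (hcon a) (h0 a)
  have h4 : Ef M pos β β = 0 := by
    unfold Ef
    simp [h3]
  rw [h4] at h1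
  exact zero_ne_one h1

end H42.NU
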