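import Pool.Agent.H42.NU.Defs

/-!
# NCU C6: the lowest coefficient of a nonnegative Laurent polynomial is nonnegative

`ev_eq`: `ev t f = ∑ n ∈ f.coeff.support, f.coeff n * t^n` (induction on `f`, `LaurentPolynomial.induction_on'` or
`ext` of ring homs / additive maps; `eval₂_C_mul_T`; see also `smeval`).
`low_nonneg`: let `f.coeff n = 0` for `n < N`, and `ev t f ≥ 0` for all real `t > 0`. Then
`t^{-N} ev t f = f.coeff N + ∑_{n > N, n ∈ support} f.coeff n * t^{n-N}` tends to `f.coeff N` for `t → 0+` (every term with `n > N`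
tends to `0`), and it is `≥ 0` for all `t > 0`; `ge_of_tendsto`. So `f.coeff N ≥ 0`.
-/

set_option autoImplicit false

namespace H42.NU

open LaurentPolynomial

theorem ev_eq (t : ℝˣ) (f : Lau) :
    ev t f = ∑ n ∈ f.coeff.support, f.coeff n * ((t : ℝ) ^ n) := by
  have h : ev t f = f.smeval t := by
    induction f using LaurentPolynomial.induction_on' with
    | add p q hp hq => rw [map_add, hp, hq, LaurentPolynomial.smeval_add]
    | C_mul_T n a =>
      rw [LaurentPolynomial.smeval_C_mul_T_n]
      show eval₂ (RingHom.id ℝ) t (C a * T n) = _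
      rw [eval₂_C_mul_T]
      simp
  rw [h, LaurentPolynomial.smeval_eq_sum, Finsupp.sum]
  refine Finset.sum_congr rfl fun n _ => ?_
  rw [smul_eq_mul, Units.val_zpow_eq_zpow_val]

theorem low_nonneg (f : Lau) (hf : ∀ t : ℝˣ, 0 < (t : ℝ) → 0 ≤ ev t f) (N : ℤ)
    (hN : ∀ n < N, f.coeff n = 0) : 0 ≤ f.coeff N := by
  have key : ∀ x : ℝ, 0 < x →
      0 ≤ f.coeff N + ∑ n ∈ f.coeff.support.erase N, f.coeff n * x ^ (n - N) := by
    intro x hx
    have h1 := hf (Units.mk0 x hx.ne') hx
    rw [ev_eq] at h1
    have h2 : 0 ≤ x ^ (-N) * ∑ n ∈ f.coeff.support, f.coeff n * x ^ n :=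
      mul_nonneg (zpow_nonneg hx.le _) h1
    have h3 : x ^ (-N) * ∑ n ∈ f.coeff.support, f.coeff n * x ^ n =
        ∑ n ∈ f.coeff.support, f.coeff n * x ^ (n - N) := by
      rw [Finset.mul_sum]
      refine Finset.sum_congr rfl fun n _ => ?_
      rw [sub_eq_neg_add, zpow_add₀ hx.ne']
      ring
    rw [h3] at h2
    by_cases hm : N ∈ f.coeff.support
    · rw [← Finset.add_sum_erase _ _ hm] at h2
      simpa using h2
    · rw [Finset.erase_eq_of_notMem hm]
      have : f.coeff N = 0 := Finsupp.notMem_support_iff.mp hm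
      rw [this, zero_add]
      exact h2
  have lim : Filter.Tendsto
      (fun x : ℝ => f.coeff N + ∑ n ∈ f.coeff.support.erase N, f.coeff n * x ^ (n - N))
      (nhdsWithin 0 (Set.Ioi 0)) (nhds (f.coeff N)) := by
    have h0 : Filter.Tendsto
        (fun x : ℝ => ∑ n ∈ f.coeff.support.erase N, f.coeff n * x ^ (n - N))
        (nhdsWithin 0 (Set.Ioi 0)) (nhds (∑ n ∈ f.coeff.support.erase N, (0 : ℝ))) := by
      refine tendsto_finsetSum _ fun n hn => ?_
      rw [Finset.mem_erase] at hn
      have hlt : N < n := by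
        rcases lt_trichotomy n N with h | h | h
        · exact absurd (hN n h) (Finsupp.mem_support_iff.mp hn.2)
        · exact absurd h hn.1
        · exact h
      obtain ⟨k, hk⟩ := Int.eq_ofNat_of_zero_le (sub_nonneg.mpr hlt.le)
      have hk0 : k ≠ 0 := by
        rintro rfl
        simp at hk
        omega
      have h4 : Filter.Tendsto (fun x : ℝ => f.coeff n * x ^ k) (nhds 0)
          (nhds (f.coeff n * 0 ^ k)) :=
        ((continuous_pow k).tendsto 0).const_mul _
      rw [zero_pow hk0, mul_zero] at h4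
      have h5 := h4.mono_left (nhdsWithin_le_nhds (s := Set.Ioi (0 : ℝ)))
      refine h5.congr fun x => ?_
      rw [hk]
      simp
    have h6 := h0.const_add (f.coeff N)
    simpa using h6
  refine ge_of_tendsto lim ?_
  filter_upwards [self_mem_nhdsWithin] with x hx
  exact key x hx

end H42.NU
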