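import Pool.Agent.H42.NU.Defs

/-!
# NCU A4: lifts and parabolic subgroups

`lift_mem_GP`: `v ∈ WP cs J` has a reduced word `ω` with letters in `J` (`exists_reduced_word_mem`, module
`H73/HVN/Parab.lean`); every prefix is reduced (`IsReduced.take`), so by induction from the right
(`List.reverseRecOn`) `lift (wordProd ω) = (ω.map σ).prod`, a product of elements of `σ '' J`.
`proj_lift`: induction on the length of `w`, with a right descent; `π (lift 1) = π 1 = 1`, and
`π (lift (w s)) = π (lift w) π (σ s) = w s` if `s` is not a right descent of `w`.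
`proj_GP`: `Subgroup.closure_induction` (or `Subgroup.map_closure`).
`GP_mono`, `gen_mem_GP`: `Subgroup.closure_mono`, `Subgroup.subset_closure`.
-/

set_option autoImplicit false

namespace H42.NU

open Pool.Agent.H73.HVN

universe u v w

variable {S : Type u} {W : Type v} [Group W] {M : CoxeterMatrix S} {cs : CoxeterSystem M W}
  {G : Type w} [Group G] {σ : S → G} {lift : W → G}

private theorem liftp_prod (hl : IsLift cs σ lift) (ω : List S) (hω : cs.IsReduced ω) :
    lift (cs.wordProd ω) = (ω.map σ).prod := by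
  induction ω using List.reverseRecOn with
  | nil => simp [hl.one]
  | append_singleton ω i ih =>
    have h1 : cs.IsReduced ω := by
      have := hω.take ω.length
      simpa using this
    have h2 : ¬ cs.IsRightDescent (cs.wordProd ω) i := by
      unfold CoxeterSystem.IsRightDescent
      have h3 := hω.eq
      rw [cs.wordProd_append, cs.wordProd_singleton, List.length_append, List.length_singleton] at h3
      rw [h3, h1.eq]
      omega
    rw [cs.wordProd_append, cs.wordProd_singleton, hl.step _ _ h2, ih h1]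
    simp

theorem lift_mem_GP (hl : IsLift cs σ lift) {J : Set S} {v : W} (hv : v ∈ WP cs J) :
    lift v ∈ GP σ J := by
  obtain ⟨ω, hω, rfl, hJ⟩ := exists_reduced_word_mem cs hv
  rw [liftp_prod hl ω hω]
  refine Subgroup.list_prod_mem _ fun x hx => ?_
  obtain ⟨s, hs, rfl⟩ := List.mem_map.1 hx
  exact Subgroup.subset_closure ⟨s, hJ s hs, rfl⟩

theorem proj_lift (hl : IsLift cs σ lift) (π : G →* W) (hπ : ∀ s, π (σ s) = cs.simple s) (w : W) :
    π (lift w) = w := by
  obtain ⟨ω, hω, h⟩ := cs.exists_isReduced w
  rw [h, liftp_prod hl ω hω]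
  rw [map_list_prod, List.map_map]
  have h1 : (⇑π ∘ σ) = cs.simple := by
    funext s
    exact hπ s
  rw [h1]
  rfl

theorem proj_GP (π : G →* W) (hπ : ∀ s, π (σ s) = cs.simple s) {J : Set S} {g : G}
    (hg : g ∈ GP σ J) : π g ∈ WP cs J := by
  have h : GP σ J ≤ (WP cs J).comap π := by
    unfold GP
    rw [Subgroup.closure_le]
    rintro _ ⟨s, hs, rfl⟩
    show π (σ s) ∈ WP cs J
    rw [hπ s]
    exact Subgroup.subset_closure ⟨s, hs, rfl⟩
  exact h hg

theorem gen_mem_GP {J : Set S} {s : S} (hs : s ∈ J) : σ s ∈ GP σ J :=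
  Subgroup.subset_closure ⟨s, hs, rfl⟩

theorem GP_mono {J K : Set S} (h : J ⊆ K) : GP σ J ≤ GP σ K :=
  Subgroup.closure_mono (Set.image_mono h)

theorem WP_mono (cs : CoxeterSystem M W) {J K : Set S} (h : J ⊆ K) : WP cs J ≤ WP cs K :=
  Subgroup.closure_mono (Set.image_mono h)

end H42.NU
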