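import Pool.Agent.H42.NU.Supp
import Pool.Agent.H42.NU.LiftP

/-!
# NCU D2: pole orders of `F x` and `x`

`F = Fm M pos (T 1)`. `fpole`: `x : S → Lau` with support in the list `l`, `N : ℤ`, all coordinates `(F x)_q`, `q ∈ l`, have no
coefficients below `N`. Then the same is true for `x`. Proof: the coefficient of `(F x)_q = ∑_j F q j * x j` at `n` is
`(x q)_n + (x q)_{n-1} + ∑_{j ≠ q, pos j < pos q} (-k) (x j)_{n-1} + ∑_{j ≠ q, pos j > pos q} (-k) (x j)_n`
(`k = kk M q j`). Suppose some coefficient of `x` below `N` is not zero; the set of such exponents over all `q` is finite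
(finite supports, `S` finite), let `n₀ < N` be the least one (over all `q`), so all `(x j)_n = 0` for `n < n₀`. Among the `q` with
`(x q)_{n₀} ≠ 0` choose one with `pos q` maximal (`Finset.exists_max_image`); `q ∈ l` as `x q ≠ 0`. Then
`((F x)_q)_{n₀} = (x q)_{n₀} ≠ 0` (terms with `n₀ - 1` vanish; terms with `pos j > pos q` vanish by maximality):
contradiction. (`pos` injective: `j ≠ q` implies `pos j ≠ pos q`.) Alternative: strong induction on `n` from below
(`x` has finite support, so start below all supports) and for fixed `n` downward induction on `pos q`.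
Coefficients of products with `T 1` and `C a`: `(C a * f).coeff n = a * f.coeff n`, `(T 1 * f).coeff n = f.coeff (n - 1)`:
provided as `coeff_C_mul`, `coeff_T_mul` (prove them first; e.g. by `LaurentPolynomial.induction_on` or
`AddMonoidAlgebra.coeff_single_mul`-type lemmas).

`ym_pole`: `u, v ∈ WP l`, `p ∈ l`, `m : ℕ`, all `Ym u v q p`, `q ∈ l`, have no coefficients below `-m`. Then the column `p` of
`L ((lift u)⁻¹ * lift v)` has none below `-m`. Proof: `x q = L (..) q p` is supported in `l` (`supp_row`, `lift_mem_GP`),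
`Ym q p = [q = p] - (F x)_q`, and `[q = p]` has only the coefficient number `0`, so `(F x)_q` has none below `-m ≤ 0`; `fpole`.
`ym_pole'`: if column `p` of `L (..)` has no coefficients below `-m`, `m : ℕ`, then the entries `Ym q p` have none for all `q`.
-/

set_option autoImplicit false

namespace H42.NU

open LaurentPolynomial Pool.Agent.H73.HVN

universe u v w

theorem coeff_C_mul (a : ℝ) (f : Lau) (n : ℤ) : (C a * f).coeff n = a * f.coeff n := by
  rw [← single_eq_C]
  exact AddMonoidAlgebra.coeff_single_mul_eq_mul_coeff n fun m' _ => by rw [zero_add]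

theorem coeff_T_mul (k : ℤ) (f : Lau) (n : ℤ) : (T k * f).coeff n = f.coeff (n - k) := by
  have h := AddMonoidAlgebra.coeff_single_mul_eq_mul_coeff (x := f) (m := k) (m₁ := n)
    (r := (1 : ℝ)) (n - k) fun m' _ => by
      constructor
      · intro h
        omega
      · intro h
        omega
  rw [one_mul] at h
  exact h

/-- a product of two Laurent polynomials without coefficients below `N₁`, `N₂` -/
theorem coeff_mul_low {f g : Lau} {N₁ N₂ : ℤ} (hf : ∀ n < N₁, f.coeff n = 0)
    (hg : ∀ n < N₂, g.coeff n = 0) : (∀ n < N₁ + N₂, (f * g).coeff n = 0) ∧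
      (f * g).coeff (N₁ + N₂) = f.coeff N₁ * g.coeff N₂ := by
  constructor
  · intro n hn
    rw [AddMonoidAlgebra.coeff_mul]
    refine Finset.sum_eq_zero fun m₁ _ => Finset.sum_eq_zero fun m₂ _ => ?_
    show (if m₁ + m₂ = n then f.coeff m₁ * g.coeff m₂ else 0) = 0
    split_ifs with h
    · rcases lt_or_ge m₁ N₁ with h1 | h1
      · rw [hf m₁ h1, zero_mul]
      · rw [hg m₂ (by omega), mul_zero]
    · rfl
  · rw [AddMonoidAlgebra.coeff_mul]
    rw [Finsupp.sum_of_support_subset (s := insert N₁ f.coeff.support) _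
      (Finset.subset_insert _ _) _ (fun m₁ _ => Finset.sum_eq_zero fun m₂ _ => by
        show (if m₁ + m₂ = N₁ + N₂ then 0 * g.coeff m₂ else 0) = 0
        split_ifs
        · rw [zero_mul]
        · rfl)]
    rw [Finset.sum_eq_single N₁]
    · rw [Finsupp.sum_of_support_subset (s := insert N₂ g.coeff.support) _
        (Finset.subset_insert _ _) _ (fun m₂ _ => by
          show (if N₁ + m₂ = N₁ + N₂ then f.coeff N₁ * 0 else 0) = 0
          split_ifs
          · rw [mul_zero]
          · rfl)]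
      rw [Finset.sum_eq_single N₂]
      · exact if_pos rfl
      · intro m₂ _ hne
        exact if_neg fun h => hne (by omega)
      · intro h
        exact absurd (Finset.mem_insert_self _ _) h
    · intro m₁ _ hne
      refine Finset.sum_eq_zero fun m₂ _ => ?_
      show (if m₁ + m₂ = N₁ + N₂ then f.coeff m₁ * g.coeff m₂ else 0) = 0
      split_ifs with h
      · rcases lt_or_ge m₁ N₁ with h1 | h1
        · rw [hf m₁ h1, zero_mul]
        · rw [hg m₂ (by omega), mul_zero]
      · rfl
    · intro h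
      exact absurd (Finset.mem_insert_self _ _) h

private theorem Pole_one_coeff {n : ℤ} (hn : n ≠ 0) : (1 : Lau).coeff n = 0 := by
  rw [← T_zero, T_apply, if_neg (Ne.symm hn)]

variable {S : Type u} [Fintype S] [DecidableEq S] {W : Type v} [Group W]
  {M : CoxeterMatrix S} {cs : CoxeterSystem M W} {G : Type w} [Group G] {σ : S → G}
  {lift : W → G} {pos : S → ℕ} {L : G → Matrix S S Lau}

omit [Fintype S] in
private theorem Pole_F (q j : S) (y : Lau) (n : ℤ) : (Fm M pos (T 1 : Lau) q j * y).coeff n =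
    if q = j then y.coeff n + y.coeff (n - 1)
    else -(kk M q j * if pos j < pos q then y.coeff (n - 1) else y.coeff n) := by
  have e : Fm M pos (T 1 : Lau) q j = if q = j then 1 + T 1 else
    -(C (kk M q j) * (if pos j < pos q then T 1 else 1)) := rfl
  rw [e]
  split_ifs with h1 h2
  · rw [add_mul, one_mul, AddMonoidAlgebra.coeff_add, Finsupp.add_apply, coeff_T_mul]
  · rw [neg_mul, AddMonoidAlgebra.coeff_neg, Finsupp.neg_apply, mul_assoc, coeff_C_mul,
      coeff_T_mul]
  · rw [neg_mul, AddMonoidAlgebra.coeff_neg, Finsupp.neg_apply, mul_one, coeff_C_mul]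

private theorem Pole_Fv (x : S → Lau) (q : S) (n : ℤ) :
    (Matrix.mulVec (Fm M pos (T 1 : Lau)) x q).coeff n =
      ∑ j, (Fm M pos (T 1 : Lau) q j * x j).coeff n := by
  have e : Matrix.mulVec (Fm M pos (T 1 : Lau)) x q = ∑ j, Fm M pos (T 1 : Lau) q j * x j := rfl
  rw [e, AddMonoidAlgebra.coeff_sum, Finsupp.finsetSum_apply]

theorem fpole (hpos : Function.Injective pos) (l : List S) (x : S → Lau)
    (hx : ∀ q, q ∉ l → x q = 0) (N : ℤ)
    (h : ∀ q ∈ l, ∀ n < N, (Matrix.mulVec (Fm M pos (T 1 : Lau)) x q).coeff n = 0) (q : S) (n : ℤ)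
    (hn : n < N) : (x q).coeff n = 0 := by
  classical
  set E := (Finset.univ.biUnion fun q => (x q).coeff.support).filter (· < N) with hE
  have hmem : ∀ q n, n < N → (x q).coeff n ≠ 0 → n ∈ E := by
    intro q n hn hne
    rw [hE, Finset.mem_filter, Finset.mem_biUnion]
    exact ⟨⟨q, Finset.mem_univ _, Finsupp.mem_support_iff.2 hne⟩, hn⟩
  by_contra hcon
  have hEne : E.Nonempty := ⟨n, hmem q n hn hcon⟩
  obtain ⟨n₀, hn₀⟩ : ∃ n₀, n₀ = E.min' hEne := ⟨_, rfl⟩
  have hn₀E : n₀ ∈ E := by
    rw [hn₀]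
    exact E.min'_mem hEne
  have hn₀N : n₀ < N := by
    rw [hE, Finset.mem_filter] at hn₀E
    exact hn₀E.2
  have hlow : ∀ q n, n < n₀ → (x q).coeff n = 0 := by
    intro q n hn
    by_contra h1
    have h2 := E.min'_le n (hmem q n (hn.trans hn₀N) h1)
    rw [← hn₀] at h2
    omega
  set Q := Finset.univ.filter fun q => (x q).coeff n₀ ≠ 0 with hQ
  have hQne : Q.Nonempty := by
    rw [hE, Finset.mem_filter, Finset.mem_biUnion] at hn₀E
    obtain ⟨⟨q, -, hq⟩, -⟩ := hn₀E
    exact ⟨q, by
      rw [hQ, Finset.mem_filter]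
      exact ⟨Finset.mem_univ _, Finsupp.mem_support_iff.1 hq⟩⟩
  obtain ⟨r, hr, hmax⟩ := Finset.exists_max_image Q pos hQne
  rw [hQ, Finset.mem_filter] at hr
  have hrl : r ∈ l := by
    by_contra h1
    apply hr.2
    rw [hx r h1]
    rfl
  have h1 := h r hrl n₀ hn₀N
  rw [Pole_Fv, Finset.sum_eq_single r] at h1
  · rw [Pole_F, if_pos rfl, hlow r (n₀ - 1) (by omega), add_zero] at h1
    exact hr.2 h1
  · intro j _ hj
    rw [Pole_F, if_neg (Ne.symm hj)]
    split_ifs with h2
    · rw [hlow j (n₀ - 1) (by omega), mul_zero, neg_zero]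
    · have h3 : (x j).coeff n₀ = 0 := by
        by_contra h4
        have h5 := hmax j (by
          rw [hQ, Finset.mem_filter]
          exact ⟨Finset.mem_univ _, h4⟩)
        exact hj (hpos (by omega))
      rw [h3, mul_zero, neg_zero]
  · intro h2
    exact absurd (Finset.mem_univ _) h2

private theorem Pole_Ym (u v : W) (q p : S) {n : ℤ} (hn : n ≠ 0) :
    (Ym (Fm M pos (T 1 : Lau)) L lift u v q p).coeff n =
      -(Matrix.mulVec (Fm M pos (T 1 : Lau)) (fun j => L ((lift u)⁻¹ * lift v) j p) q).coeff n := by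
  have e : Ym (Fm M pos (T 1 : Lau)) L lift u v q p = (1 : Matrix S S Lau) q p -
      Matrix.mulVec (Fm M pos (T 1 : Lau)) (fun j => L ((lift u)⁻¹ * lift v) j p) q := rfl
  have h1 : ((1 : Matrix S S Lau) q p).coeff n = 0 := by
    rw [Matrix.one_apply]
    split_ifs
    · exact Pole_one_coeff hn
    · rfl
  rw [e, AddMonoidAlgebra.coeff_sub, Finsupp.sub_apply, h1, zero_sub]

theorem ym_pole (hpos : Function.Injective pos) (h : IsRep (Fm M pos (T 1 : Lau)) σ L)
    (hl : IsLift cs σ lift) {l : List S} {u v : W} (hu : u ∈ WP cs {s | s ∈ l})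
    (hv : v ∈ WP cs {s | s ∈ l}) {p : S} (m : ℕ)
    (hY : ∀ q ∈ l, ∀ n : ℤ, n < -(m : ℤ) →
      (Ym (Fm M pos (T 1 : Lau)) L lift u v q p).coeff n = 0) (q : S) (n : ℤ)
    (hn : n < -(m : ℤ)) : (L ((lift u)⁻¹ * lift v) q p).coeff n = 0 := by
  have hg : (lift u)⁻¹ * lift v ∈ GP σ {s | s ∈ l} :=
    mul_mem (inv_mem (lift_mem_GP hl hu)) (lift_mem_GP hl hv)
  refine fpole (M := M) (pos := pos) hpos l (fun j => L ((lift u)⁻¹ * lift v) j p)
    (fun q hq => supp_row h hg hq p) (-(m : ℤ)) ?_ q n hn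
  intro q hq n hn
  have h1 := hY q hq n hn
  rw [Pole_Ym u v q p (by omega)] at h1
  exact neg_eq_zero.1 h1

theorem ym_pole' {u v : W} {p : S} (m : ℕ)
    (hY : ∀ q, ∀ n : ℤ, n < -(m : ℤ) → (L ((lift u)⁻¹ * lift v) q p).coeff n = 0) (q : S) (n : ℤ)
    (hn : n < -(m : ℤ)) : (Ym (Fm M pos (T 1 : Lau)) L lift u v q p).coeff n = 0 := by
  rw [Pole_Ym u v q p (by omega), Pole_Fv, neg_eq_zero]
  refine Finset.sum_eq_zero fun j _ => ?_
  rw [Pole_F]
  have h1 := hY j n hn
  have h2 := hY j (n - 1) (by omega)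
  split_ifs
  · rw [h1, h2, add_zero]
  · rw [h2, mul_zero, neg_zero]
  · rw [h1, mul_zero, neg_zero]

end H42.NU
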