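import Pool.Agent.H42.NU.CovA
import Pool.Agent.H42.NU.Pole
import Pool.Agent.H42.NU.Low

/-!
# NCU F1: the vector of a cover is in the dual cone

Let `β ∈ Cov σ lift L l u`: `β ≥ 0`, `θ ∈ dg σ l`, `lift u * θ = lift w`, `L θ = β βᵀ`. By `cov_props` `β` is supported in `l` and
`β a > 0` for some `a`. Let `v ∈ WP l`, `p ∈ l`, `m : ℕ` with `(Ym u v q p)_n = 0` for `q ∈ l`, `n < -m`. Put
`g = (lift u)⁻¹ * lift v`. Then `(lift w)⁻¹ * lift v = θ⁻¹ * g`, and by `mul_left'`/`mul_right'`, `dg_inv` (`L θ⁻¹ = T(-1) β βᵀ`):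
`L (θ⁻¹ g) = L g + L θ⁻¹ (1 - F L g)`, so entrywise (`step_eq`)
 `L ((lift w)⁻¹ * lift v) a p = L g a p + T (-1) * C (β a) * ∑ q, C (β q) * Ym u v q p`.
By `ym_pole` `(L g a p)_n = 0` for all `n < -m`. The second term has the coefficient
`β a * ∑ q, β q * (Ym u v q p)_{n+1}` at `n`, which is `0` for `n < -m-1` (for `q ∉ l`, `β q = 0`), and at `n = -m-1` it is
`β a * X` with `X = ∑ q, β q * (Ym u v q p).coeff (-m)`. So `f = L ((lift w)⁻¹ * lift v) a p` has no coefficients below `-m-1` and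
`f.coeff (-m-1) = β a * X`. By `rp` (for `w`, `v`) and `low_nonneg` it is `≥ 0`, and `β a > 0`, so `X ≥ 0`.
-/

set_option autoImplicit false

namespace H42.NU

open LaurentPolynomial Pool.Agent.H73.HVN

universe u v w

variable {S : Type u} [Fintype S] [DecidableEq S] {W : Type v} [Group W] [Finite W]
  {M : CoxeterMatrix S} {cs : CoxeterSystem M W} {G : Type w} [Group G] {σ : S → G}
  {lift : W → G} {pos : S → ℕ} {L : G → Matrix S S Lau}

theorem step_eq (hpos : Function.Injective pos) (h : IsRep (Fm M pos (T 1 : Lau)) σ L)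
    {l : List S} (hl : l.Pairwise (fun i j => pos i < pos j)) {u w : W} {θ : G}
    (hθ : θ ∈ dg σ l) (he : lift u * θ = lift w) {β : S → ℝ} (hβ : Rank1 (L θ) β) (v : W)
    (a p : S) : L ((lift w)⁻¹ * lift v) a p = L ((lift u)⁻¹ * lift v) a p +
      T (-1) * C (β a) * ∑ q, C (β q) * Ym (Fm M pos (T 1 : Lau)) L lift u v q p := by
  have e1 : (lift w)⁻¹ * lift v = θ⁻¹ * ((lift u)⁻¹ * lift v) := by
    rw [← he]
    group
  rw [e1, mul_right' h, Matrix.add_apply, Matrix.mul_apply, Finset.mul_sum]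
  congr 1
  refine Finset.sum_congr rfl fun q _ => ?_
  rw [dg_inv hpos h hl hθ hβ a q, map_mul]
  unfold Ym
  ring

theorem cov_sub_dual (hpos : Function.Injective pos) (h : IsRep (Fm M pos (T 1 : Lau)) σ L)
    (hlf : IsLift cs σ lift) {l : List S} (hl : l.Pairwise (fun i j => pos i < pos j)) {u : W}
    (hu : u ∈ WP cs {s | s ∈ l}) {β : S → ℝ} (hβ : β ∈ Cov σ lift L l u) :
    β ∈ Dual cs (Fm M pos (T 1 : Lau)) L lift l u := by
  obtain ⟨_, hsupp, a, ha⟩ := cov_props hpos h hl hβ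
  obtain ⟨_, θ, hθ, w, he, hr⟩ := hβ
  refine ⟨hsupp, fun v hv p _ m hY => ?_⟩
  have hco : ∀ n : ℤ, (L ((lift w)⁻¹ * lift v) a p).coeff n =
      (L ((lift u)⁻¹ * lift v) a p).coeff n +
        β a * ∑ q, β q * (Ym (Fm M pos (T 1 : Lau)) L lift u v q p).coeff (n + 1) := by
    intro n
    rw [step_eq hpos h hl hθ he hr v a p, mul_assoc, AddMonoidAlgebra.coeff_add,
      Finsupp.add_apply, coeff_T_mul, coeff_C_mul, AddMonoidAlgebra.coeff_sum,
      Finsupp.finsetSum_apply, sub_neg_eq_add]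
    congr 2
    refine Finset.sum_congr rfl fun q _ => ?_
    rw [coeff_C_mul]
  have hlow : ∀ n : ℤ, n < -(m : ℤ) - 1 → (L ((lift w)⁻¹ * lift v) a p).coeff n = 0 := by
    intro n hn
    rw [hco, ym_pole hpos h hlf hu hv m hY a n (by omega), zero_add]
    have h0 : ∑ q, β q * (Ym (Fm M pos (T 1 : Lau)) L lift u v q p).coeff (n + 1) = 0 := by
      refine Finset.sum_eq_zero fun q _ => ?_
      by_cases hq : q ∈ l
      · rw [hY q hq (n + 1) (by omega), mul_zero]
      · rw [hsupp q hq, zero_mul]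
    rw [h0, mul_zero]
  have h1 := low_nonneg (L ((lift w)⁻¹ * lift v) a p) (fun t ht => rp hpos h hlf w v a p t ht)
    (-(m : ℤ) - 1) hlow
  rw [hco, ym_pole hpos h hlf hu hv m hY a _ (by omega), zero_add, sub_add_cancel] at h1
  exact nonneg_of_mul_nonneg_right h1 ha

end H42.NU
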