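import Pool.Agent.H42.NU.Ord

/-!
# NCU A2: dihedral cosets

Notation: `z_n = pr cs.simple s s' n`, `z'_n = pr cs.simple s' s n`, `m = M s s' ≠ 0` (so `m ≥ 2`), `L = {s, s'}`,
`WP cs L` the parabolic subgroup (module `H73/HVN/Parab.lean`; useful theorems there, namespace `Pool.Agent.H73.HVN`:
`exists_reduced_word_mem`, `mem_of_isReduced`, `right_descent_mem`, `length_mul_of_min`, `exists_min`, `strong_exchange`).

Auxiliary facts on `pr` (in any monoid / group), by induction:
 * `z_{2k} = (s s')^k`, `z_{2k+1} = (s s')^k s`;  `pr f s s' (n+1) = f s * pr f s' s n`;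
 * `z'_j⁻¹ * z_i = (s s')^((i+j)/2)` when `i + j` is even (for involutions `s`, `s'`), and `z_j⁻¹ z_i = z_{i-j}`-type
   identities: for `j ≤ i`, `i - j` even, `z_i = z_j` implies `(s s')^((i-j)/2) = 1` or `(s' s)^((i-j)/2) = 1`
   (cancel the common first letters).
`dih_top`: `z_m = z'_m` from `(s s')^m = 1` (`cs.simple_mul_simple_pow`). (Mathlib: `wordProd_braidWord_eq`,
`alternatingWord`; but it may be easier to do it directly: `z'_m⁻¹ z_m = (s s')^m = 1`.)

`pr_mem`: products of elements of `cs.simple '' L`.

`dih_len` for `v = 1`: `ℓ(z_n) = n` for `n ≤ m`. Suppose not; take a reduced word `ω` of `z_n` with letters in `L`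
(`exists_reduced_word_mem`), `ω.length = ℓ(z_n) < n` (`length_wordProd_le`) and `ℓ(z_n) ≡ n mod 2`
(`cs.length_mul_mod_two` or `lengthParity`). A reduced word has no two equal neighbouring letters, so, its letters being
in `{s, s'}`, it is alternating: `z_n = z_k` or `z_n = z'_k` with `k = ω.length < n`, `k ≡ n mod 2`. (Lemma: a reduced word
with letters in `{s, s'}` has `wordProd = pr s s' length` or `pr s' s length`: induction from the left with
`pr f s s' (n+1) = f s * pr f s' s n`.) In the first case `(s s')^((n-k)/2) = 1` with `0 < (n-k)/2 < m`, in the second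
`(s s')^((n+k)/2) = 1` with `0 < (n+k)/2 < n ≤ m`: contradiction to `pow_ne_one` (also for `s' s`, use
`M.symmetric`).
General `v`: `length_mul_of_min` with `L` (`hu : ∀ i ∈ L, ¬ descent`), `pr_mem`: `ℓ(v z_n) = ℓ(v) + ℓ(z_n) = ℓ(v) + n`.

`dih_asc`: from `dih_len` for `n` and `n + 1`.

`dih_cases`: `exists_min` with `L`: `w = v l`, `l ∈ WP L`, `v` without right descent in `L`. By the lemma on words
`l = z_k` or `l = z'_k` with `k = ℓ(l)`; if `k > m` then `z_k = z_m * (rest)`... simpler: `k = ℓ(l)` and the word is
reduced so `k ≤ m`: otherwise its first `m+1` letters form a reduced word (`IsReduced.take`), but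
`not_isReduced_alternatingWord` in Mathlib, or directly: `z_{m+1} = z_m * letter = z'_m * letter` where `letter` is the last
letter of `z'_m` so `z_{m+1} = z'_{m-1}` has length `≤ m - 1`.
-/

set_option autoImplicit false

namespace H42.NU

open Pool.Agent.H73.HVN

universe u v w

variable {S : Type u} {W : Type v} [Group W] {M : CoxeterMatrix S} (cs : CoxeterSystem M W)

private theorem dih_lt_succ (s s' : S) (n : ℕ) : lt s s' (n + 1) = lt s' s n := by
  unfold lt
  by_cases h : n % 2 = 0
  · rw [if_pos h, if_neg (by omega)]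
  · rw [if_neg h, if_pos (by omega)]

private theorem dih_lt_mem (s s' : S) (n : ℕ) : lt s s' n ∈ ({s, s'} : Set S) := by
  unfold lt
  split_ifs
  · exact Or.inl rfl
  · exact Or.inr rfl

theorem pr_succ' {G : Type w} [Monoid G] (f : S → G) (s s' : S) (n : ℕ) :
    pr f s s' (n + 1) = f s * pr f s' s n := by
  induction n with
  | zero =>
    show 1 * f (lt s s' 0) = f s * 1
    rw [one_mul, mul_one]
    rfl
  | succ n ih =>
    show pr f s s' (n + 1) * f (lt s s' (n + 1)) = f s * (pr f s' s n * f (lt s' s n))
    rw [ih, dih_lt_succ, mul_assoc]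

private theorem dih_even {G : Type w} [Monoid G] (f : S → G) (s s' : S) (k : ℕ) :
    pr f s s' (2 * k) = (f s * f s') ^ k := by
  induction k with
  | zero => rw [pow_zero]; rfl
  | succ k ih =>
    rw [pow_succ', ← ih]
    show pr f s s' (2 * k + 1 + 1) = _
    rw [pr_succ', pr_succ', mul_assoc]

theorem pr_mem (s s' : S) (n : ℕ) : pr cs.simple s s' n ∈ WP cs ({s, s'} : Set S) := by
  induction n with
  | zero => exact one_mem _
  | succ n ih => exact mul_mem ih (Subgroup.subset_closure ⟨_, dih_lt_mem s s' n, rfl⟩)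

private theorem dih_same (k n : ℕ) : ∀ (s s' : S), pr cs.simple s s' k = pr cs.simple s s' (n + k) →
    pr cs.simple s s' n = 1 ∨ pr cs.simple s' s n = 1 := by
  induction k with
  | zero =>
    intro s s' h
    exact Or.inl h.symm
  | succ k ih =>
    intro s s' h
    rw [← add_assoc, pr_succ', pr_succ', mul_right_inj] at h
    exact (ih s' s h).symm

private theorem dih_diff (k : ℕ) : ∀ (s s' : S) (n : ℕ), pr cs.simple s' s k = pr cs.simple s s' n →
    pr cs.simple s s' (n + k) = 1 ∨ pr cs.simple s' s (n + k) = 1 := by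
  induction k with
  | zero =>
    intro s s' n h
    exact Or.inl h.symm
  | succ k ih =>
    intro s s' n h
    have h1 : pr cs.simple s s' k = pr cs.simple s' s (n + 1) := by
      rw [pr_succ', ← h, pr_succ', cs.simple_mul_simple_cancel_left]
    have h2 := ih s' s (n + 1) h1
    rw [show n + 1 + k = n + (k + 1) by omega] at h2
    exact h2.symm

private theorem dih_of_one (k : ℕ) : ∀ (s s' : S) (n : ℕ), pr cs.simple s s' (n + k) = 1 →
    pr cs.simple s' s (n + k) = 1 → pr cs.simple s' s k = pr cs.simple s s' n := by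
  induction k with
  | zero =>
    intro s s' n h _
    exact h.symm
  | succ k ih =>
    intro s s' n h h'
    have h1 := ih s' s (n + 1) (by rw [show n + 1 + k = n + (k + 1) by omega]; exact h')
      (by rw [show n + 1 + k = n + (k + 1) by omega]; exact h)
    rw [pr_succ', h1, pr_succ', cs.simple_mul_simple_cancel_left]

theorem dih_top (s s' : S) : pr cs.simple s s' (M s s') = pr cs.simple s' s (M s s') := by
  refine (dih_of_one cs (M s s') s s' (M s s') ?_ ?_).symm
  · rw [← two_mul, dih_even, cs.simple_mul_simple_pow]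
  · rw [← two_mul, dih_even, cs.simple_mul_simple_pow']

/-- reduced words in two letters are alternating -/
private theorem dih_word (s s' : S) (ω : List S) (hω : cs.IsReduced ω)
    (hL : ∀ i ∈ ω, i ∈ ({s, s'} : Set S)) :
    (cs.wordProd ω = pr cs.simple s s' ω.length ∧ ω.head? ≠ some s' ∨
      cs.wordProd ω = pr cs.simple s' s ω.length ∧ ω.head? ≠ some s) ∨ s = s' := by
  by_cases hss : s = s'
  · exact Or.inr hss
  left
  induction ω with
  | nil =>
    left
    exact ⟨by rw [cs.wordProd_nil]; rfl, by simp⟩
  | cons i ω ih =>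
    have h1 : cs.IsReduced ω := by
      have := hω.drop 1
      simpa using this
    have h2 := ih h1 (fun k hk => hL k (List.mem_cons_of_mem _ hk))
    have hne : ω.head? ≠ some i := by
      intro h
      cases ω with
      | nil => simp at h
      | cons j ω =>
        have hj : j = i := by simpa using h
        subst hj
        have h3 := hω.eq
        rw [cs.wordProd_cons, cs.wordProd_cons, cs.simple_mul_simple_cancel_left] at h3
        have h4 := cs.length_wordProd_le ω
        rw [h3] at h4
        simp at h4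
    rw [cs.wordProd_cons, List.length_cons]
    rcases hL i (List.mem_cons_self) with hi | hi
    · subst hi
      left
      refine ⟨?_, by simpa using hss⟩
      rw [pr_succ']
      rcases h2 with ⟨h2, h3⟩ | ⟨h2, h3⟩
      · cases ω with
        | nil => rw [cs.wordProd_nil]; rfl
        | cons j ω =>
          exfalso
          rcases hL j (by simp) with hj | hj
          · subst hj
            exact hne (by simp)
          · rw [Set.mem_singleton_iff] at hj
            subst hj
            exact h3 (by simp)
      · rw [h2]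
    · rw [Set.mem_singleton_iff] at hi
      subst hi
      right
      refine ⟨?_, by simpa using fun h => hss h.symm⟩
      rw [pr_succ']
      rcases h2 with ⟨h2, h3⟩ | ⟨h2, h3⟩
      · rw [h2]
      · cases ω with
        | nil => rw [cs.wordProd_nil]; rfl
        | cons j ω =>
          exfalso
          rcases hL j (by simp) with hj | hj
          · subst hj
            exact h3 (by simp)
          · rw [Set.mem_singleton_iff] at hj
            subst hj
            exact hne (by simp)

private theorem dih_len_le (s s' : S) (n : ℕ) : cs.length (pr cs.simple s s' n) ≤ n ∧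
    cs.length (pr cs.simple s s' n) % 2 = n % 2 := by
  induction n with
  | zero =>
    show cs.length 1 ≤ 0 ∧ cs.length 1 % 2 = 0 % 2
    rw [cs.length_one]
    exact ⟨le_rfl, rfl⟩
  | succ n ih =>
    have h1 := cs.length_mul_simple (pr cs.simple s s' n) (lt s s' n)
    show cs.length (pr cs.simple s s' n * cs.simple (lt s s' n)) ≤ n + 1 ∧
      cs.length (pr cs.simple s s' n * cs.simple (lt s s' n)) % 2 = (n + 1) % 2
    omega

private theorem dih_len_add (s s' : S) (a b : ℕ) : cs.length (pr cs.simple s s' (a + b)) ≤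
    cs.length (pr cs.simple s s' a) + b := by
  induction b with
  | zero => exact le_rfl
  | succ b ih =>
    have h1 := cs.length_mul_simple (pr cs.simple s s' (a + b)) (lt s s' (a + b))
    show cs.length (pr cs.simple s s' (a + b) * cs.simple (lt s s' (a + b))) ≤ _
    omega

private theorem dih_pow {s s' : S} (hne : s ≠ s') (hM : M s s' ≠ 0) {j : ℕ} (hj : 0 < j)
    (hj' : j < 2 * M s s') (he : j % 2 = 0) :
    ¬ (pr cs.simple s s' j = 1 ∨ pr cs.simple s' s j = 1) := by
  obtain ⟨i, rfl⟩ : ∃ i, j = 2 * i := ⟨j / 2, by omega⟩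
  rw [dih_even, dih_even]
  rintro (h | h)
  · exact pow_ne_one cs hne hM (by omega) (by omega) h
  · exact pow_ne_one cs hne.symm (by rwa [M.symmetric s' s]) (by omega)
      (by rw [M.symmetric s' s]; omega) h

private theorem dih_len_one {s s' : S} (hne : s ≠ s') (hM : M s s' ≠ 0) {n : ℕ}
    (hn : n ≤ M s s') : cs.length (pr cs.simple s s' n) = n := by
  obtain ⟨h1, h2⟩ := dih_len_le cs s s' n
  by_contra hcon
  obtain ⟨ω, hω, hz, hL⟩ := exists_reduced_word_mem cs (pr_mem cs s s' n)
  have h3 := hω.eq
  rw [← hz] at h3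
  rcases dih_word cs s s' ω hω hL with (⟨h, -⟩ | ⟨h, -⟩) | h
  · rw [← hz] at h
    have h4 := dih_same cs ω.length (n - ω.length) s s'
      (by rw [show n - ω.length + ω.length = n by omega]; exact h.symm)
    exact dih_pow cs hne hM (by omega) (by omega) (by omega) h4
  · rw [← hz] at h
    have h4 := dih_diff cs ω.length s s' n h.symm
    exact dih_pow cs hne hM (by omega) (by omega) (by omega) h4
  · exact hne h

theorem dih_len {s s' : S} (hne : s ≠ s') (hM : M s s' ≠ 0) {v : W}
    (h1 : ¬ cs.IsRightDescent v s) (h2 : ¬ cs.IsRightDescent v s') {n : ℕ} (hn : n ≤ M s s') :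
    cs.length (v * pr cs.simple s s' n) = cs.length v + n := by
  rw [length_mul_of_min cs (L := {s, s'}) ?_ (pr_mem cs s s' n), dih_len_one cs hne hM hn]
  intro i hi
  rcases hi with hi | hi
  · subst hi
    exact h1
  · rw [Set.mem_singleton_iff] at hi
    subst hi
    exact h2

theorem dih_asc {s s' : S} (hne : s ≠ s') (hM : M s s' ≠ 0) {v : W}
    (h1 : ¬ cs.IsRightDescent v s) (h2 : ¬ cs.IsRightDescent v s') {n : ℕ} (hn : n < M s s') :
    ¬ cs.IsRightDescent (v * pr cs.simple s s' n) (lt s s' n) := by
  intro h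
  unfold CoxeterSystem.IsRightDescent at h
  have h3 := dih_len cs hne hM h1 h2 (n := n) hn.le
  have h4 := dih_len cs hne hM h1 h2 (n := n + 1) hn
  rw [mul_assoc] at h
  have h5 : pr cs.simple s s' n * cs.simple (lt s s' n) = pr cs.simple s s' (n + 1) := rfl
  rw [h5] at h
  omega

private theorem dih_bound {s s' : S} (hM : M s s' ≠ 0) {k : ℕ}
    (hk : cs.length (pr cs.simple s s' k) = k) : k ≤ M s s' := by
  by_contra hcon
  obtain ⟨j, rfl⟩ : ∃ j, k = M s s' + 1 + j := ⟨k - (M s s' + 1), by omega⟩
  obtain ⟨m, hm⟩ : ∃ m, M s s' = m + 1 := ⟨M s s' - 1, by omega⟩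
  have h1 := dih_len_add cs s s' (M s s' + 1) j
  have h2 : pr cs.simple s s' (M s s' + 1) = pr cs.simple s' s m := by
    show pr cs.simple s s' (M s s') * cs.simple (lt s s' (M s s')) = _
    rw [dih_top]
    rw [hm, dih_lt_succ]
    show pr cs.simple s' s m * cs.simple (lt s' s m) * cs.simple (lt s' s m) = _
    rw [cs.simple_mul_simple_cancel_right]
  have h3 := (dih_len_le cs s' s m).1
  rw [h2] at h1
  omega

theorem dih_cases {s s' : S} (hne : s ≠ s') (hM : M s s' ≠ 0) (w : W) :
    ∃ (v : W) (n : ℕ), ¬ cs.IsRightDescent v s ∧ ¬ cs.IsRightDescent v s' ∧ n ≤ M s s' ∧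
      (w = v * pr cs.simple s s' n ∨ w = v * pr cs.simple s' s n) := by
  obtain ⟨v, l, hv, hl, hw⟩ := exists_min cs ({s, s'} : Set S) w
  obtain ⟨ω, hω, hz, hL⟩ := exists_reduced_word_mem cs hl
  have h3 := hω.eq
  refine ⟨v, ω.length, hv s (Or.inl rfl), hv s' (Or.inr rfl), ?_, ?_⟩
  · rcases dih_word cs s s' ω hω hL with (⟨h, -⟩ | ⟨h, -⟩) | h
    · rw [h] at h3
      exact dih_bound cs hM h3
    · rw [h] at h3
      have h4 := dih_bound cs (s := s') (s' := s) (by rwa [M.symmetric s' s]) h3
      rwa [M.symmetric s' s] at h4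
    · exact absurd h hne
  · rcases dih_word cs s s' ω hω hL with (⟨h, -⟩ | ⟨h, -⟩) | h
    · left
      rw [hw, hz, h]
    · right
      rw [hw, hz, h]
    · exact absurd h hne

end H42.NU
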