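import Pool.Agent.H42.NU.CovD
import Pool.Agent.H42.NU.Cone

/-!
# NCU G2: the separation step

`c` contains all of `S` and is increasing for `pos`; `F = Fm M pos (T 1)`. Hypothesis `hSD`: the covers of `u` generate the dual
cone at `u`. Let `x, u ∈ W`, `j : S` such that row `j` of `L ((lift x)⁻¹ * lift u)` is not integral. Put
`κ q = L ((lift x)⁻¹ * lift u) j q`, let `k ≥ 1` be maximal such that some `(κ q)_{-k} ≠ 0` (finite supports), and
`η q = (κ q)_{-k}`; `η ≠ 0`, `(κ q)_n = 0` for `n < -k`.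
For `v ∈ W`: `(lift x)⁻¹ * lift v = ((lift x)⁻¹ * lift u) * ((lift u)⁻¹ * lift v)`, so by `mul_right'`
 (*) `L ((lift x)⁻¹ * lift v) j p = L ((lift u)⁻¹ * lift v) j p + ∑ q, κ q * Ym u v q p`.
`η ∈ Dual cs F L lift c u`: (nothing to show about the support, `c` contains all of `S`.) Let `v ∈ W`, `p`, `m : ℕ`,
`(Ym u v q p)_n = 0` for all `q`, `n < -m`. By `ym_pole` `(L ((lift u)⁻¹ * lift v) j p)_n = 0` for `n < -m` (`WP cs {s | s ∈ c} = ⊤`:
prove `u ∈ WP cs {s | s ∈ c}` from `cs.subgroup_closure_range_simple`). By `coeff_mul_low` the left side of (*) has no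
coefficients below `-k-m`, and at `-k-m` it is `0 + ∑ q, η q * (Ym u v q p)_{-m}` (`k ≥ 1`). `rp` for `x, v` and `low_nonneg`: it is `≥ 0`.
By `hSD`: `η ∈ span NNReal (Cov σ lift L c u)`, and by `cone_exists_sub`: `η = c' β + ζ`, `β ∈ Cov`, `c' > 0`, `ζ ∈ span`.
`β` comes from `θ ∈ dg σ c`, `lift u * θ = lift u'`, `L θ = β βᵀ`.
Let `w ∈ W` with `L ((lift u)⁻¹ * lift w)` integral and row `j` of `L ((lift x)⁻¹ * lift w)` integral. `Ym u w` is integral
(`ym_pole'` with `m = 0`). For every `p` put `y q = (Ym u w q p)_0`. The coefficient of (*) (for `v = w`) at `-k < 0` is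
`0 = 0 + ∑ q, η q * y q` (`coeff_mul_low` with `N₁ = -k`, `N₂ = 0`). All `γ ∈ Cov` satisfy `∑ γ q y q ≥ 0`
(`cov_sub_dual` with `v = w`, `m = 0`), so `∑ ζ q y q ≥ 0` (`cone_le`), so from `0 = c' ∑ β q y q + ∑ ζ q y q`: `∑ β q y q = 0`.
By `step_eq`: `L ((lift u')⁻¹ * lift w) a p = L ((lift u)⁻¹ * lift w) a p + T (-1) * C (β a) * ∑ q, C (β q) * Ym u w q p`; the sum is integral
with constant coefficient `∑ β q y q = 0`, so after multiplication by `T (-1)` it is integral. So `L ((lift u')⁻¹ * lift w)` is integral.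
-/

set_option autoImplicit false

namespace H42.NU

open LaurentPolynomial Pool.Agent.H73.HVN

universe u v w

variable {S : Type u} [Fintype S] [DecidableEq S] {W : Type v} [Group W] [Finite W]
  {M : CoxeterMatrix S} {cs : CoxeterSystem M W} {G : Type w} [Group G] {σ : S → G}
  {lift : W → G} {pos : S → ℕ} {L : G → Matrix S S Lau}

omit [Fintype S] [DecidableEq S] [Finite W] in
private theorem fs_top {c : List S} (hc' : ∀ i, i ∈ c) (w : W) : w ∈ WP cs {s | s ∈ c} := by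
  have h1 : {s | s ∈ c} = (Set.univ : Set S) := Set.eq_univ_of_forall hc'
  have h2 : WP cs {s | s ∈ c} = ⊤ := by
    unfold WP
    rw [h1, Set.image_univ]
    exact cs.subgroup_closure_range_simple
  rw [h2]
  exact Subgroup.mem_top w

omit [Group W] [Finite W] in
private theorem fs_star (h : IsRep (Fm M pos (T 1 : Lau)) σ L) (x u v : W) (j p : S) :
    L ((lift x)⁻¹ * lift v) j p = L ((lift u)⁻¹ * lift v) j p +
      ∑ q, L ((lift x)⁻¹ * lift u) j q * Ym (Fm M pos (T 1 : Lau)) L lift u v q p := by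
  have e : (lift x)⁻¹ * lift v = ((lift x)⁻¹ * lift u) * ((lift u)⁻¹ * lift v) := by group
  rw [e, mul_right' h, Matrix.add_apply, Matrix.mul_apply]
  rfl

omit [DecidableEq S] in
private theorem fs_csum (f : S → Lau) (n : ℤ) :
    (∑ q, f q).coeff n = ∑ q, (f q).coeff n := by
  rw [AddMonoidAlgebra.coeff_sum, Finsupp.finsetSum_apply]

theorem fs (hpos : Function.Injective pos) (h : IsRep (Fm M pos (T 1 : Lau)) σ L)
    (hlf : IsLift cs σ lift) {c : List S} (hc : c.Pairwise (fun i j => pos i < pos j))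
    (hc' : ∀ i, i ∈ c) {u x : W}
    (hSD : ∀ β ∈ Dual cs (Fm M pos (T 1 : Lau)) L lift c u,
      β ∈ Submodule.span NNReal (Cov σ lift L c u)) {j : S}
    (hna : ∃ (q : S) (n : ℤ), n < 0 ∧ (L ((lift x)⁻¹ * lift u) j q).coeff n ≠ 0) :
    ∃ θ ∈ dg σ c, ∃ u' : W, lift u * θ = lift u' ∧ ∀ w : W, Intg (L ((lift u)⁻¹ * lift w)) →
      (∀ q, ∀ n : ℤ, n < 0 → (L ((lift x)⁻¹ * lift w) j q).coeff n = 0) →
      Intg (L ((lift u')⁻¹ * lift w)) := by
  have hu := fs_top (cs := cs) hc' u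
  -- the lowest exponent
  obtain ⟨n0, hn0, q0, hq0, hlow⟩ : ∃ n0 : ℤ, n0 < 0 ∧ ∃ q0 : S,
      (L ((lift x)⁻¹ * lift u) j q0).coeff n0 ≠ 0 ∧
      ∀ q, ∀ n < n0, (L ((lift x)⁻¹ * lift u) j q).coeff n = 0 := by
    obtain ⟨q1, n1, hn1, h1⟩ := hna
    let A : Finset ℤ := Finset.univ.biUnion
      (fun q => (L ((lift x)⁻¹ * lift u) j q).coeff.support)
    have hmem : ∀ q n, (L ((lift x)⁻¹ * lift u) j q).coeff n ≠ 0 → n ∈ A := by
      intro q n hn
      exact Finset.mem_biUnion.mpr ⟨q, Finset.mem_univ q, Finsupp.mem_support_iff.mpr hn⟩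
    have hA : A.Nonempty := ⟨n1, hmem q1 n1 h1⟩
    obtain ⟨q0, -, hq0⟩ := Finset.mem_biUnion.mp (A.min'_mem hA)
    refine ⟨A.min' hA, (A.min'_le n1 (hmem q1 n1 h1)).trans_lt hn1, q0,
      Finsupp.mem_support_iff.mp hq0, ?_⟩
    intro q n hn
    by_contra hne
    exact absurd (A.min'_le n (hmem q n hne)) (not_le.mpr hn)
  obtain ⟨η, hη⟩ : ∃ η : S → ℝ, η = fun q => (L ((lift x)⁻¹ * lift u) j q).coeff n0 := ⟨_, rfl⟩
  have hη0 : η ≠ 0 := by
    intro h0
    apply hq0
    have := congrFun h0 q0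
    rw [hη] at this
    exact this
  have hsum : ∀ (v : W) (p : S) (N : ℤ),
      (∀ q, ∀ n < N, (Ym (Fm M pos (T 1 : Lau)) L lift u v q p).coeff n = 0) →
      (∀ n < n0 + N, (∑ q, L ((lift x)⁻¹ * lift u) j q *
        Ym (Fm M pos (T 1 : Lau)) L lift u v q p).coeff n = 0) ∧
      (∑ q, L ((lift x)⁻¹ * lift u) j q *
        Ym (Fm M pos (T 1 : Lau)) L lift u v q p).coeff (n0 + N) =
        ∑ q, η q * (Ym (Fm M pos (T 1 : Lau)) L lift u v q p).coeff N := by
    intro v p N hY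
    constructor
    · intro n hn
      rw [fs_csum]
      exact Finset.sum_eq_zero fun q _ => (coeff_mul_low (hlow q) (hY q)).1 n hn
    · rw [fs_csum, hη]
      exact Finset.sum_congr rfl fun q _ => (coeff_mul_low (hlow q) (hY q)).2
  have hD : η ∈ Dual cs (Fm M pos (T 1 : Lau)) L lift c u := by
    refine ⟨fun q hq => absurd (hc' q) hq, ?_⟩
    intro v hv p hp m hY
    have hY' : ∀ q, ∀ n < -(m : ℤ), (Ym (Fm M pos (T 1 : Lau)) L lift u v q p).coeff n = 0 :=
      fun q n hn => hY q (hc' q) n hn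
    obtain ⟨s1, s2⟩ := hsum v p (-(m : ℤ)) hY'
    have hL : ∀ n < -(m : ℤ), (L ((lift u)⁻¹ * lift v) j p).coeff n = 0 := fun n hn =>
      ym_pole hpos h hlf hu hv m hY j n hn
    have hlo : ∀ n < n0 + -(m : ℤ), (L ((lift x)⁻¹ * lift v) j p).coeff n = 0 := by
      intro n hn
      rw [fs_star h x u v j p, AddMonoidAlgebra.coeff_add, Finsupp.add_apply, s1 n hn,
        hL n (by linarith), add_zero]
    have h1 := low_nonneg (L ((lift x)⁻¹ * lift v) j p)
      (fun t ht => rp hpos h hlf x v j p t ht) (n0 + -(m : ℤ)) hlo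
    rw [fs_star h x u v j p, AddMonoidAlgebra.coeff_add, Finsupp.add_apply, s2,
      hL _ (by linarith), zero_add] at h1
    exact h1
  obtain ⟨β, hβ, c', hc0, ζ, hζ, hsub⟩ := cone_exists_sub (hSD η hD) hη0
  obtain ⟨hβ0, θ, hθ, u', hu', hr⟩ := id hβ
  refine ⟨θ, hθ, u', hu', ?_⟩
  intro w hint hrow
  have hYw : ∀ p q, ∀ n : ℤ, n < -((0 : ℕ) : ℤ) →
      (Ym (Fm M pos (T 1 : Lau)) L lift u w q p).coeff n = 0 := by
    intro p q n hn
    refine ym_pole' 0 ?_ q n hn
    intro q' n' hn'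
    exact hint q' p n' (by simpa using hn')
  have hβy : ∀ p, ∑ q, β q * (Ym (Fm M pos (T 1 : Lau)) L lift u w q p).coeff 0 = 0 := by
    intro p
    have hcov : ∀ γ ∈ Cov σ lift L c u,
        0 ≤ ∑ q, γ q * (Ym (Fm M pos (T 1 : Lau)) L lift u w q p).coeff 0 := by
      intro γ hγ
      have h1 := (cov_sub_dual hpos h hlf hc hu hγ).2 w (fs_top hc' w) p (hc' p) 0
        (fun q _ n hn => hYw p q n hn)
      simpa using h1
    have h1 := hcov β hβ
    have h2 := cone_le hcov hζ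
    obtain ⟨-, s2⟩ := hsum w p 0 (fun q n hn => hYw p q n (by simpa using hn))
    have h3 : ∑ q, η q * (Ym (Fm M pos (T 1 : Lau)) L lift u w q p).coeff 0 = 0 := by
      rw [← s2, add_zero]
      have h4 := hrow p n0 hn0
      rw [fs_star h x u w j p, AddMonoidAlgebra.coeff_add, Finsupp.add_apply,
        hint j p n0 hn0, zero_add] at h4
      exact h4
    have h5 : ∑ q, η q * (Ym (Fm M pos (T 1 : Lau)) L lift u w q p).coeff 0 =
        c' * ∑ q, β q * (Ym (Fm M pos (T 1 : Lau)) L lift u w q p).coeff 0 +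
        ∑ q, ζ q * (Ym (Fm M pos (T 1 : Lau)) L lift u w q p).coeff 0 := by
      rw [hsub, Finset.mul_sum, ← Finset.sum_add_distrib]
      refine Finset.sum_congr rfl fun q _ => ?_
      simp only [Pi.add_apply, Pi.smul_apply, smul_eq_mul]
      ring
    rw [h3] at h5
    have h6 : 0 ≤ c' * ∑ q, β q * (Ym (Fm M pos (T 1 : Lau)) L lift u w q p).coeff 0 :=
      mul_nonneg hc0.le h1
    have h7 : c' * ∑ q, β q * (Ym (Fm M pos (T 1 : Lau)) L lift u w q p).coeff 0 = 0 := by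
      linarith
    rcases mul_eq_zero.mp h7 with h8 | h8
    · exact absurd h8 hc0.ne'
    · exact h8
  intro a p n hn
  rw [step_eq hpos h hc hθ hu' hr w a p, AddMonoidAlgebra.coeff_add, Finsupp.add_apply,
    hint a p n hn, zero_add, mul_assoc, coeff_T_mul, coeff_C_mul, fs_csum]
  have hz : ∑ q, (C (β q) * Ym (Fm M pos (T 1 : Lau)) L lift u w q p).coeff (n - -1) = 0 := by
    rcases eq_or_lt_of_le (show n - -1 ≤ 0 by linarith [Int.add_one_le_iff.mpr hn]) with h1 | h1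
    · rw [h1, ← hβy p]
      exact Finset.sum_congr rfl fun q _ => coeff_C_mul _ _ _
    · refine Finset.sum_eq_zero fun q _ => ?_
      rw [coeff_C_mul, hYw p q _ (by simpa using h1), mul_zero]
  rw [hz, mul_zero]

end H42.NU
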