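import Pool.Agent.H42.NU.Defs

/-!
# NCU C4: generic positive vectors are dense

`generic`: `Z` is a finite set of nonzero vectors of `ℝ^S`, `a ∈ ℝ^S`, and `∑ ζ_i a_i ≥ 0` for all `ζ` with positive coordinates
and `∑ ζ_i z_i ≠ 0` for all `z ∈ Z`. Then `a_j ≥ 0` for all `j`.
Proof. Let `e : S ≃ Fin N` (or any injective `n : S → ℕ`, `n i ≥ 1`, e.g. from `Fintype.equivFin` plus one). For `θ > 0` put
`ζ_i(θ) = θ^{n_i} + [i = j]`. `P_z(θ) = ∑ ζ_i(θ) z_i` is the value of the real polynomial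
`C (z j) + ∑ C (z i) * X^{n_i}`, which is not zero: its coefficient of `X^{n_i}` is `z i` and some `z i ≠ 0` (`n_i ≥ 1`,
`n` injective). So the product over `z ∈ Z` is a nonzero polynomial with finitely many roots; hence for `θ` in the
punctured right neighbourhood of `0` all `P_z(θ) ≠ 0` (the complement of a finite set is eventually true in `𝓝[>] 0`:
`Set.Finite.isClosed`, or: a finite set of positive reals has a minimum). For these `θ`: `a_j + ∑ θ^{n_i} a_i ≥ 0`; let `θ → 0+`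
(`ge_of_tendsto`): `a_j ≥ 0`.
`generic_exists`: the same curve gives some `ζ` with positive coordinates and `∑ ζ_i z_i ≠ 0` for all `z ∈ Z`.
(If `S` is empty everything is trivial; `j` exists in the first statement, in the second take `ζ_i = θ^{n_i}`.)
-/

set_option autoImplicit false

namespace H42.NU

universe u

variable {S : Type u} [Fintype S]

open Polynomial Filter Topology in
private theorem gener_poly_ne (n : S → ℕ) (hn : Function.Injective n) (hn1 : ∀ i, 1 ≤ n i)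
    {z : S → ℝ} (hz : z ≠ 0) (c : ℝ) : (C c + ∑ i, C (z i) * X ^ n i : ℝ[X]) ≠ 0 := by
  obtain ⟨i, hi⟩ := Function.ne_iff.1 hz
  intro h
  have h1 := congrArg (fun p : ℝ[X] => p.coeff (n i)) h
  simp only [coeff_add, finsetSum_coeff, coeff_C_mul, coeff_X_pow, coeff_C, coeff_zero] at h1
  rw [if_neg (by have := hn1 i; omega), zero_add, Finset.sum_eq_single i] at h1
  · rw [if_pos rfl, mul_one] at h1
    exact hi h1
  · intro b _ hb
    rw [if_neg (fun h => hb (hn h.symm)), mul_zero]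
  · intro h
    exact absurd (Finset.mem_univ i) h

open Polynomial Filter Topology in
private theorem gener_ev {Z : Set (S → ℝ)} (hZ : Z.Finite) (hz : ∀ z ∈ Z, z ≠ 0) (n : S → ℕ)
    (hn : Function.Injective n) (hn1 : ∀ i, 1 ≤ n i) (c : S → ℝ) :
    ∀ᶠ θ : ℝ in 𝓝[>] 0, ∀ z ∈ Z, ∑ i, (θ ^ n i + c i) * z i ≠ 0 := by
  rw [eventually_all_finite hZ]
  intro z hzZ
  obtain ⟨p, hp⟩ : ∃ p : ℝ[X], p = C (∑ i, c i * z i) + ∑ i, C (z i) * X ^ n i := ⟨_, rfl⟩
  have hp0 : p ≠ 0 := by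
    rw [hp]
    exact gener_poly_ne n hn hn1 (hz z hzZ) _
  have hev : ∀ θ : ℝ, p.eval θ = ∑ i, (θ ^ n i + c i) * z i := by
    intro θ
    rw [hp, eval_add, eval_C, eval_finsetSum, ← Finset.sum_add_distrib]
    refine Finset.sum_congr rfl fun i _ => ?_
    rw [eval_mul, eval_C, eval_pow, eval_X]
    ring
  have hfin : ({θ : ℝ | p.IsRoot θ} \ {0}).Finite := (finite_setOfPred_isRoot hp0).sdiff
  have hmem : ({θ : ℝ | p.IsRoot θ} \ {0})ᶜ ∈ 𝓝[>] (0 : ℝ) :=
    mem_nhdsWithin_of_mem_nhds (hfin.isClosed.isOpen_compl.mem_nhds (by simp))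
  filter_upwards [hmem, self_mem_nhdsWithin] with θ h1 h2 h3
  apply h1
  refine ⟨?_, ?_⟩
  · show p.eval θ = 0
    rw [hev, h3]
  · exact (ne_of_gt h2 : θ ≠ 0)

private theorem gener_n : ∃ n : S → ℕ, Function.Injective n ∧ ∀ i, 1 ≤ n i := by
  refine ⟨fun i => (Fintype.equivFin S i : ℕ) + 1, ?_, fun i => Nat.le_add_left 1 _⟩
  intro i j h
  have h1 : (Fintype.equivFin S i : ℕ) = Fintype.equivFin S j := by
    have h2 : (Fintype.equivFin S i : ℕ) + 1 = (Fintype.equivFin S j : ℕ) + 1 := h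
    omega
  exact (Fintype.equivFin S).injective (Fin.ext h1)

theorem generic {Z : Set (S → ℝ)} (hZ : Z.Finite) (hz : ∀ z ∈ Z, z ≠ 0) (a : S → ℝ)
    (h : ∀ ζ : S → ℝ, (∀ i, 0 < ζ i) → (∀ z ∈ Z, ∑ i, ζ i * z i ≠ 0) → 0 ≤ ∑ i, ζ i * a i)
    (j : S) : 0 ≤ a j := by
  classical
  obtain ⟨n, hn, hn1⟩ := gener_n (S := S)
  obtain ⟨c, hc⟩ : ∃ c : S → ℝ, c = fun i => if i = j then 1 else 0 := ⟨_, rfl⟩
  have hev := gener_ev hZ hz n hn hn1 c
  have hc0 : ∀ i, 0 ≤ c i := by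
    intro i
    rw [hc]
    dsimp only
    split_ifs <;> norm_num
  have h1 : ∀ᶠ θ : ℝ in nhdsWithin 0 (Set.Ioi 0), 0 ≤ ∑ i, (θ ^ n i + c i) * a i := by
    filter_upwards [hev, self_mem_nhdsWithin] with θ h2 h3
    have h3' : 0 < θ := h3
    refine h _ (fun i => ?_) h2
    have h4 : 0 < θ ^ n i := pow_pos h3' _
    have h5 := hc0 i
    linarith
  have h2 : Filter.Tendsto (fun θ : ℝ => ∑ i, (θ ^ n i + c i) * a i) (nhdsWithin 0 (Set.Ioi 0))
      (nhds (∑ i, ((0 : ℝ) ^ n i + c i) * a i)) := by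
    have h3 : Continuous fun θ : ℝ => ∑ i, (θ ^ n i + c i) * a i := by fun_prop
    exact (h3.tendsto 0).mono_left nhdsWithin_le_nhds
  have h3 := ge_of_tendsto h2 h1
  have h4 : ∑ i, ((0 : ℝ) ^ n i + c i) * a i = a j := by
    rw [Finset.sum_eq_single j]
    · rw [hc]
      have := hn1 j
      simp only [if_true]
      rw [zero_pow (by omega), zero_add, one_mul]
    · intro b _ hb
      rw [hc]
      have := hn1 b
      simp only [if_neg hb]
      rw [zero_pow (by omega), zero_add, zero_mul]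
    · intro h
      exact absurd (Finset.mem_univ j) h
  rwa [h4] at h3

theorem generic_exists {Z : Set (S → ℝ)} (hZ : Z.Finite) (hz : ∀ z ∈ Z, z ≠ 0) :
    ∃ ζ : S → ℝ, (∀ i, 0 < ζ i) ∧ ∀ z ∈ Z, ∑ i, ζ i * z i ≠ 0 := by
  obtain ⟨n, hn, hn1⟩ := gener_n (S := S)
  have hev := gener_ev hZ hz n hn hn1 (fun _ => 0)
  obtain ⟨θ, h1, h2⟩ := (hev.and self_mem_nhdsWithin).exists
  have h2' : 0 < θ := h2
  exact ⟨fun i => θ ^ n i + 0, fun i => by
    have h4 : 0 < θ ^ n i := pow_pos h2' _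
    linarith, h1⟩

end H42.NU
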