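import Pool.Agent.H42.NU.Dih

/-!
# NCU A3: the positive lift is well defined (Matsumoto)

`M` is a Coxeter matrix, `W` finite, so all `M s s' ≠ 0` (`M_ne_zero cs`). Let `f : S → G` satisfy the braid
relations (`Artin M f`) in a monoid `G`. Define the relation
`inductive LR : W → G → Prop | one : LR 1 1 | step : LR w g → ¬ cs.IsRightDescent w s → LR (w * cs.simple s) (g * f s)`.
Existence: for every `w` there is `g` with `LR w g`: induction on `ℓ(w)`; if `w ≠ 1` take a right descent `s`
(`exists_rightDescent_of_ne_one`), `w = (w s) s`, and `s` is not a descent of `w s`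
(`isRightDescent_iff_not_isRightDescent_mul`).
Uniqueness: by strong induction on `ℓ(w)`: `LR w g → LR w g' → g = g'`. Inversion: `LR w g` means `w = 1, g = 1` or
`w = w₁ s`, `g = g₁ f(s)`, `LR w₁ g₁`, `s` not a descent of `w₁` (so `ℓ(w) = ℓ(w₁) + 1`, `w₁ = w s`). For `w = 1` a step is
impossible by the length. Let both be steps with `s`, `s'`. If `s = s'` then `w₁ = w₁'` and the induction hypothesis
applies. Let `s ≠ s'`. By `dih_cases` for `(s, s')`: `w = v z_n` or `w = v z'_n` with `z_n = pr cs.simple s s' n`,
`n ≤ m = M s s'`, `v` having neither `s` nor `s'` as right descent; both `s` and `s'` are right descents of `w`.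
Then `n = m`: if `n < m` then by `dih_asc` the letter `lt s s' n ∈ {s, s'}` is not a right descent of `v z_n`
(same for `z'`). So `w = v z_m = v z'_m` (`dih_top`; `M.symmetric`). Let `LR v g₀` (existence). Along both arms
(`dih_asc`) `LR (v z_k) (g₀ * pr f s s' k)` and `LR (v z'_k) (g₀ * pr f s' s k)` for all `k ≤ m`. The last letter of `z_m` is
`lt s s' (m-1)` and that of `z'_m` is `lt s' s (m-1)`, the other one (`m ≥ 1`). Say `s = lt s s' (m-1)` (the other case is
symmetric): `w₁ = w s = v z_{m-1}` and by the induction hypothesis `g₁ = g₀ * pr f s s' (m-1)`, so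
`g = g₁ f(s) = g₀ * pr f s s' m`; and `w₁' = w s' = v z'_{m-1}`, `g₁' = g₀ * pr f s' s (m-1)`, `g' = g₀ * pr f s' s m`. They
are equal by `Artin`.
`exists_lift`: choose `lift w` with `LR w (lift w)`; the equations follow from uniqueness.
`lift_wordProd`: induction on the reduced word from the right (`List.reverseRecOn`, `IsReduced.take`).
`lift_mul`: induction on `ℓ(z)`: `z = 1` clear; otherwise `z = z₁ s`, `ℓ(z) = ℓ(z₁) + 1`; from
`ℓ(x z) = ℓ(x) + ℓ(z)` we get `ℓ(x z₁) = ℓ(x) + ℓ(z₁)` (`≤` by `length_mul_le`, `≥` since `ℓ(x z) ≤ ℓ(x z₁) + 1`) and `s` is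
not a descent of `x z₁`; apply `step` twice.
`lift_descent`: `w = (w s) s` and `s` is not a right descent of `w s`.
-/

set_option autoImplicit false

namespace H42.NU

open Pool.Agent.H73.HVN

universe u v w

variable {S : Type u} {W : Type v} [Group W] {M : CoxeterMatrix S} (cs : CoxeterSystem M W)
  {G : Type w} [Monoid G] {σ : S → G} {lift : W → G}

/-- the pairs of an element and a value of the lift -/
private inductive MatsLR (cs : CoxeterSystem M W) (σ : S → G) : W → G → Prop
  | one : MatsLR cs σ 1 1
  | step {x : W} {g : G} {s : S} : MatsLR cs σ x g → ¬ cs.IsRightDescent x s →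
      MatsLR cs σ (x * cs.simple s) (g * σ s)

private theorem MatsLR_exists (σ : S → G) : ∀ (n : ℕ) (x : W), cs.length x = n →
    ∃ g, MatsLR cs σ x g := by
  intro n
  induction n with
  | zero =>
    intro x hx
    have h1 : x = 1 := cs.length_eq_zero_iff.1 hx
    subst h1
    exact ⟨1, MatsLR.one⟩
  | succ n ih =>
    intro x hx
    have h1 : x ≠ 1 := by
      rintro rfl
      simp at hx
    obtain ⟨s, hs⟩ := cs.exists_rightDescent_of_ne_one h1
    have h2 := cs.isRightDescent_iff.1 hs
    obtain ⟨g, hg⟩ := ih (x * cs.simple s) (by omega)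
    have h3 := (cs.isRightDescent_iff_not_isRightDescent_mul).1 hs
    have h4 := MatsLR.step hg h3
    rw [mul_assoc, cs.simple_mul_simple_self, mul_one] at h4
    exact ⟨_, h4⟩

private theorem MatsLR_inv {σ : S → G} {x : W} {g : G} (h : MatsLR cs σ x g) :
    (x = 1 ∧ g = 1) ∨ ∃ (y : W) (g' : G) (s : S), MatsLR cs σ y g' ∧ ¬ cs.IsRightDescent y s ∧
      x = y * cs.simple s ∧ g = g' * σ s := by
  cases h with
  | one => exact Or.inl ⟨rfl, rfl⟩
  | step h1 h2 => exact Or.inr ⟨_, _, _, h1, h2, rfl, rfl⟩

private theorem MatsLR_arm {σ : S → G} {a b : S} (hab : a ≠ b) (hM : M a b ≠ 0) {v : W} {g₀ : G}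
    (hv : MatsLR cs σ v g₀) (h1 : ¬ cs.IsRightDescent v a) (h2 : ¬ cs.IsRightDescent v b) :
    ∀ k ≤ M a b, MatsLR cs σ (v * pr cs.simple a b k) (g₀ * pr σ a b k) := by
  intro k
  induction k with
  | zero => intro _; simpa [pr] using hv
  | succ k ih =>
    intro hk
    have h3 := MatsLR.step (ih (by omega)) (dih_asc cs hab hM h1 h2 (n := k) (by omega))
    rw [mul_assoc, mul_assoc] at h3
    exact h3

private theorem MatsLR_end {σ : S → G} {a b c : S} (hab : a ≠ b) (hM : M a b ≠ 0) {v x : W}
    {g₀ g₁ : G} (hv : MatsLR cs σ v g₀) (h1 : ¬ cs.IsRightDescent v a)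
    (h2 : ¬ cs.IsRightDescent v b) {k : ℕ} (hk : k < M a b) (hc : lt a b k = c)
    (hx : v * pr cs.simple a b (k + 1) = x * cs.simple c)
    (IH : ∀ g g', MatsLR cs σ x g → MatsLR cs σ x g' → g = g') (hg : MatsLR cs σ x g₁) :
    g₁ * σ c = g₀ * pr σ a b (k + 1) := by
  have e1 : v * pr cs.simple a b (k + 1) = (v * pr cs.simple a b k) * cs.simple c := by
    change v * (pr cs.simple a b k * cs.simple (lt a b k)) = _
    rw [hc, mul_assoc]
  have e2 : v * pr cs.simple a b k = x := mul_right_cancel (e1.symm.trans hx)
  have h3 := MatsLR_arm cs hab hM hv h1 h2 k hk.le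
  rw [e2] at h3
  rw [IH _ _ hg h3]
  change _ = g₀ * (pr σ a b k * σ (lt a b k))
  rw [hc, mul_assoc]

private theorem MatsLR_len {x : W} {s : S} (h : ¬ cs.IsRightDescent x s) :
    cs.length (x * cs.simple s) = cs.length x + 1 := cs.not_isRightDescent_iff.1 h

private theorem MatsLR_desc {x : W} {s : S} (h : ¬ cs.IsRightDescent x s) :
    cs.IsRightDescent (x * cs.simple s) s := by
  by_contra hc
  have h1 := MatsLR_len cs h
  have h2 := MatsLR_len cs hc
  rw [mul_assoc, cs.simple_mul_simple_self, mul_one] at h2
  omega

private theorem MatsLR_unique [Finite W] {σ : S → G} (h : Artin M σ) : ∀ (n : ℕ) (x : W),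
    cs.length x ≤ n → ∀ g g', MatsLR cs σ x g → MatsLR cs σ x g' → g = g' := by
  intro n
  induction n with
  | zero =>
    intro x hx g g' h1 h2
    rcases MatsLR_inv cs h1 with ⟨-, e1⟩ | ⟨y, g1, s, -, hy, rfl, -⟩
    · rcases MatsLR_inv cs h2 with ⟨-, e2⟩ | ⟨y, g1, s, -, hy, rfl, -⟩
      · rw [e1, e2]
      · have := MatsLR_len cs hy
        omega
    · have := MatsLR_len cs hy
      omega
  | succ n ih =>
    intro x hx g g' h1 h2
    rcases MatsLR_inv cs h1 with ⟨e0, e1⟩ | ⟨y, g1, s, hg1, hy, hxy, rfl⟩
    · rcases MatsLR_inv cs h2 with ⟨-, e2⟩ | ⟨y, g1, s, -, hy, hxy, -⟩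
      · rw [e1, e2]
      · have := MatsLR_len cs hy
        rw [← hxy, e0, cs.length_one] at this
        omega
    · rcases MatsLR_inv cs h2 with ⟨e0, -⟩ | ⟨y', g1', s', hg1', hy', hxy', rfl⟩
      · have := MatsLR_len cs hy
        rw [← hxy, e0, cs.length_one] at this
        omega
      · have l1 := MatsLR_len cs hy
        have l2 := MatsLR_len cs hy'
        rw [← hxy] at l1
        rw [← hxy'] at l2
        by_cases hss : s = s'
        · subst hss
          have e : y = y' := mul_right_cancel (hxy.symm.trans hxy')
          subst e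
          rw [ih y (by omega) _ _ hg1 hg1']
        · have d1 : cs.IsRightDescent x s := by rw [hxy]; exact MatsLR_desc cs hy
          have d2 : cs.IsRightDescent x s' := by rw [hxy']; exact MatsLR_desc cs hy'
          have hM := M_ne_zero cs s s'
          have hM' := M_ne_zero cs s' s
          have hsym : M s' s = M s s' := M.symmetric s' s
          have hss' : s' ≠ s := fun e => hss e.symm
          obtain ⟨v, m, hv1, hv2, hm, hxv⟩ := dih_cases cs hss hM x
          have hlt : ∀ (a b : S) (k : ℕ), lt a b k = a ∨ lt a b k = b := by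
            intro a b k
            unfold lt
            split
            · exact Or.inl rfl
            · exact Or.inr rfl
          have hmm : m = M s s' := by
            by_contra hne
            have hlt' : m < M s s' := lt_of_le_of_ne hm hne
            rcases hxv with e | e
            · have h3 := dih_asc cs hss hM hv1 hv2 hlt'
              rw [← e] at h3
              rcases hlt s s' m with h4 | h4
              · rw [h4] at h3; exact h3 d1
              · rw [h4] at h3; exact h3 d2
            · have h3 := dih_asc cs hss' hM' hv2 hv1 (n := m) (by rw [hsym]; exact hlt')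
              rw [← e] at h3
              rcases hlt s' s m with h4 | h4
              · rw [h4] at h3; exact h3 d2
              · rw [h4] at h3; exact h3 d1
          have htop := dih_top cs s s'
          subst hmm
          have x1 : x = v * pr cs.simple s s' (M s s') := by
            rcases hxv with e | e
            · exact e
            · rw [htop]; exact e
          have x2 : x = v * pr cs.simple s' s (M s s') := by
            rw [← htop]; exact x1
          obtain ⟨g₀, hg₀⟩ := MatsLR_exists cs σ _ v rfl
          obtain ⟨k, hk⟩ : ∃ k, M s s' = k + 1 := ⟨M s s' - 1, by omega⟩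
          have hA := h s s' hss
          rw [hk] at x1 x2 hA
          have IH1 := ih y (by omega)
          have IH2 := ih y' (by omega)
          rcases Nat.mod_two_eq_zero_or_one k with hp | hp
          · have c1 : lt s s' k = s := by unfold lt; rw [if_pos hp]
            have c2 : lt s' s k = s' := by unfold lt; rw [if_pos hp]
            have e1 := MatsLR_end cs hss hM hg₀ hv1 hv2 (k := k) (by omega) c1
              (x1.symm.trans hxy) IH1 hg1
            have e2 := MatsLR_end cs hss' hM' hg₀ hv2 hv1 (k := k) (by omega) c2
              (x2.symm.trans hxy') IH2 hg1'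
            rw [e1, e2, hA]
          · have c1 : lt s s' k = s' := by unfold lt; rw [if_neg (by omega)]
            have c2 : lt s' s k = s := by unfold lt; rw [if_neg (by omega)]
            have e1 := MatsLR_end cs hss hM hg₀ hv1 hv2 (k := k) (by omega) c1
              (x1.symm.trans hxy') IH2 hg1'
            have e2 := MatsLR_end cs hss' hM' hg₀ hv2 hv1 (k := k) (by omega) c2
              (x2.symm.trans hxy) IH1 hg1
            rw [e1, e2, hA]

theorem exists_lift [Finite W] (σ : S → G) (h : Artin M σ) : ∃ lift : W → G, IsLift cs σ lift := by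
  choose f hf using fun x : W => MatsLR_exists cs σ _ x rfl
  refine ⟨f, ?_, ?_⟩
  · exact MatsLR_unique cs h _ 1 le_rfl _ _ (hf 1) MatsLR.one
  · intro x s hs
    exact MatsLR_unique cs h _ _ le_rfl _ _ (hf _) (MatsLR.step (hf x) hs)

variable {cs}

theorem lift_wordProd (hl : IsLift cs σ lift) {ω : List S} (hω : cs.IsReduced ω) :
    lift (cs.wordProd ω) = (ω.map σ).prod := by
  induction ω using List.reverseRecOn with
  | nil => simpa using hl.one
  | append_singleton l s ih =>
    have h1 : cs.IsReduced l := by
      have := hω.take l.length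
      rwa [List.take_left] at this
    have h2 : ¬ cs.IsRightDescent (cs.wordProd l) s := by
      rw [cs.not_isRightDescent_iff]
      have h3 := hω.eq
      rw [cs.wordProd_append, cs.wordProd_singleton, List.length_append, List.length_singleton] at h3
      rw [h3, h1.eq]
    rw [cs.wordProd_append, cs.wordProd_singleton, hl.step _ _ h2, ih h1]
    simp

private theorem Mats_descent (hl : IsLift cs σ lift) {w : W} {s : S} (h : cs.IsRightDescent w s) :
    lift w = lift (w * cs.simple s) * σ s := by
  have h1 := (cs.isRightDescent_iff_not_isRightDescent_mul).1 h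
  have h2 := hl.step _ _ h1
  rwa [mul_assoc, cs.simple_mul_simple_self, mul_one] at h2

theorem lift_mul (hl : IsLift cs σ lift) {x z : W}
    (h : cs.length (x * z) = cs.length x + cs.length z) : lift (x * z) = lift x * lift z := by
  have key : ∀ (n : ℕ) (z : W), cs.length z = n → cs.length (x * z) = cs.length x + cs.length z →
      lift (x * z) = lift x * lift z := by
    intro n
    induction n with
    | zero =>
      intro z hz _
      have h1 : z = 1 := cs.length_eq_zero_iff.1 hz
      subst h1
      rw [mul_one, hl.one, mul_one]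
    | succ n ih =>
      intro z hz hxz
      have h1 : z ≠ 1 := by
        rintro rfl
        simp at hz
      obtain ⟨s, hs⟩ := cs.exists_rightDescent_of_ne_one h1
      have h2 := cs.isRightDescent_iff.1 hs
      have h3 := cs.length_mul_le x (z * cs.simple s)
      have h4 := cs.length_mul_simple (x * z) s
      rw [mul_assoc] at h4
      have h5 := ih (z * cs.simple s) (by omega) (by omega)
      have h6 : cs.IsRightDescent (x * z) s := by
        rw [cs.isRightDescent_iff, mul_assoc]
        omega
      rw [Mats_descent hl h6, mul_assoc, h5, Mats_descent hl hs, mul_assoc]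
  exact key _ z rfl h

theorem lift_descent (hl : IsLift cs σ lift) {w : W} {s : S} (h : cs.IsRightDescent w s) :
    lift w = lift (w * cs.simple s) * σ s := by
  exact Mats_descent hl h

theorem lift_simple (hl : IsLift cs σ lift) (s : S) : lift (cs.simple s) = σ s := by
  have h := hl.step 1 s (cs.not_isRightDescent_one s)
  rwa [one_mul, hl.one, one_mul] at h

end H42.NU
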