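import Pool.Agent.H42.NU.HurwB
import Pool.Agent.H42.NU.Pole
import Pool.Agent.H42.NU.Mats

/-!
# NCU G1: integrality

`Intg X`: no entry of `X` has a coefficient with negative exponent. `F = Fm M pos (T 1)` is integral; integral Laurent
polynomials are closed under `+`, `-`, `*`, finite sums (`coeff_mul_low` with `N₁ = N₂ = 0`).
* `intg_mul`: `L (g k) = L g + L k - L g F L k`.
* `intg_gen`: `single s s 1`. `intg_lift`: `L (lift w)` integral for all `w`, by induction on the length (a right descent `s`,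
  `lift_descent`, `intg_mul`, `intg_gen`).
* `intg_dg`: `dg_rank1`: entries `C (β i * β j)`.
* `symm_inv`: `L g⁻¹ i j = T (-1) * invert (L g j i)` for all `g ∈ GP σ Set.univ` (`invert` is `LaurentPolynomial.invert`, `T ↦ T⁻¹`).
  Put `N(g) i j = T (-1) * invert (L g j i)`. By `Fm_decomp`: `T 1 * invert (F j i) = T 1 * (C (E j i) + T (-1) * C (E i j)) = F i j`. For
  generators: `L (σ s)⁻¹ = single s s (T (-1))` (`gen_inv`) `= N(σ s)`. If `L g⁻¹ = N(g)`, `L k⁻¹ = N(k)`, then
  `L (g k)⁻¹ = L (k⁻¹ g⁻¹) = N(k) + N(g) - N(k) F N(g)` and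
  `N(g k) i j = T(-1) * invert (L g j i + L k j i - ∑_{a,b} L g j a * F a b * L k b i)`
  `= N(g) i j + N(k) i j - ∑_{a,b} T(-1) * invert (L k b i) * invert (F a b) * invert (L g j a)`, the last sum is
  `∑ N(k) i b * (T 1 * invert (F a b)) * N(g) a j = ∑ N(k) i b * F b a * N(g) a j`: equal. For `g = 1`: `0`. For the inverse
  (closure induction): from `L g⁻¹ = N(g)` get `L (g⁻¹)⁻¹ = L g = N(g⁻¹)`: `N(g⁻¹) i j = T(-1) * invert (L g⁻¹ j i)
  = T(-1) * invert (T(-1) * invert (L g i j)) = T(-1) * T 1 * L g i j = L g i j`.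
* `intg_antisymm`: `L g` and `L g⁻¹` integral, `g ∈ GP σ univ`: the entry `L g⁻¹ i j = T(-1) * invert (L g j i)` has coefficient
  `(L g j i).coeff (-(n+1))` at `n` (`coeff_T_mul`, `invert_apply`): `0` for `n ≥ 0`, and `0` for `n < 0` by integrality of
  `L g⁻¹`. So `L g⁻¹ = 0`, hence `L g = 0` (`0 = L (g⁻¹ g) = L g⁻¹ + (1 - L g⁻¹ F) L g = L g`).
-/

set_option autoImplicit false

namespace H42.NU

open LaurentPolynomial Pool.Agent.H73.HVN

universe u v w

variable {S : Type u} [Fintype S] [DecidableEq S] {W : Type v} [Group W]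
  {M : CoxeterMatrix S} {cs : CoxeterSystem M W} {G : Type w} [Group G] {σ : S → G}
  {lift : W → G} {pos : S → ℕ} {L : G → Matrix S S Lau}

private def lo (f : Lau) : Prop := ∀ n : ℤ, n < 0 → f.coeff n = 0

private theorem lo_zero : lo 0 := by
  intro n _
  simp

private theorem lo_add {f g : Lau} (hf : lo f) (hg : lo g) : lo (f + g) := by
  intro n hn
  rw [AddMonoidAlgebra.coeff_add, Finsupp.add_apply, hf n hn, hg n hn, add_zero]

private theorem lo_neg {f : Lau} (hf : lo f) : lo (-f) := by
  intro n hn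
  rw [AddMonoidAlgebra.coeff_neg, Finsupp.neg_apply, hf n hn, neg_zero]

private theorem lo_mul {f g : Lau} (hf : lo f) (hg : lo g) : lo (f * g) := by
  intro n hn
  exact (coeff_mul_low (N₁ := 0) (N₂ := 0) hf hg).1 n (by simpa using hn)

private theorem lo_sum {ι : Type u} (s : Finset ι) (f : ι → Lau) (h : ∀ i ∈ s, lo (f i)) :
    lo (∑ i ∈ s, f i) := by
  intro n hn
  rw [AddMonoidAlgebra.coeff_sum, Finsupp.finsetSum_apply]
  exact Finset.sum_eq_zero fun i hi => h i hi n hn

private theorem lo_C (a : ℝ) : lo (C a) := by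
  intro n hn
  rw [C_apply, if_neg hn.ne]

private theorem lo_one : lo 1 := by
  have h := lo_C 1
  rwa [map_one] at h

private theorem lo_T : lo (T 1) := by
  intro n hn
  rw [T_apply, if_neg (by omega)]

private theorem lo_F (M : CoxeterMatrix S) (pos : S → ℕ) (i j : S) :
    lo (Fm M pos (T 1 : Lau) i j) := by
  unfold Fm
  rw [Matrix.of_apply]
  split_ifs
  · exact lo_add lo_one lo_T
  · refine lo_neg (lo_mul ?_ lo_T)
    rw [LaurentPolynomial.algebraMap_apply]
    exact lo_C _
  · refine lo_neg (lo_mul ?_ lo_one)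
    rw [LaurentPolynomial.algebraMap_apply]
    exact lo_C _

private theorem intg_matmul {X Y : Matrix S S Lau} (hX : Intg X) (hY : Intg Y) :
    Intg (X * Y) := by
  intro i j
  rw [Matrix.mul_apply]
  exact lo_sum _ _ fun a _ => lo_mul (hX i a) (hY a j)

theorem intg_mul (h : IsRep (Fm M pos (T 1 : Lau)) σ L) {g k : G} (hg : Intg (L g))
    (hk : Intg (L k)) : Intg (L (g * k)) := by
  have h1 : Intg (L g * Fm M pos (T 1 : Lau) * L k) :=
    intg_matmul (intg_matmul hg (lo_F M pos)) hk
  intro i j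
  rw [h.mul, Matrix.sub_apply, Matrix.add_apply, sub_eq_add_neg]
  exact lo_add (lo_add (hg i j) (hk i j)) (lo_neg (h1 i j))

private theorem intg_zero : Intg (0 : Matrix S S Lau) := by
  intro i j
  exact lo_zero

private theorem intg_single (s : S) : Intg (Matrix.single s s (1 : Lau)) := by
  intro i j
  rw [Matrix.single_apply]
  split_ifs
  · exact lo_one
  · exact lo_zero

theorem intg_lift (h : IsRep (Fm M pos (T 1 : Lau)) σ L) (hlf : IsLift cs σ lift) (w : W) :
    Intg (L (lift w)) := by
  have key : ∀ n : ℕ, ∀ w : W, cs.length w = n → Intg (L (lift w)) := by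
    intro n
    induction n with
    | zero =>
      intro w hw
      rw [cs.length_eq_zero_iff.1 hw, hlf.one, h.one]
      exact intg_zero
    | succ n ih =>
      intro w hw
      have h1 : w ≠ 1 := by
        rintro rfl
        simp at hw
      obtain ⟨s, hs⟩ := cs.exists_rightDescent_of_ne_one h1
      have h2 := cs.isRightDescent_iff.1 hs
      rw [lift_descent hlf hs]
      refine intg_mul h (ih _ (by omega)) ?_
      rw [h.gen]
      exact intg_single s
  exact key _ w rfl

theorem intg_dg (hpos : Function.Injective pos) (h : IsRep (Fm M pos (T 1 : Lau)) σ L)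
    {l : List S} (hl : l.Pairwise (fun i j => pos i < pos j)) {θ : G} (hθ : θ ∈ dg σ l) :
    Intg (L θ) := by
  obtain ⟨β, hβ, -, -⟩ := dg_rank1 hpos h hl hθ
  intro i j
  rw [hβ i j]
  exact lo_C _

private noncomputable def iv : Lau →+* Lau :=
  (invert (R := ℝ) : Lau ≃ₐ[ℝ] Lau).toRingEquiv.toRingHom

private theorem iv_apply (f : Lau) : iv f = invert f := rfl

private theorem iv_iv (f : Lau) : iv (iv f) = f := by
  rw [iv_apply, iv_apply]
  exact involutive_invert f

private noncomputable def Nn (X : Matrix S S Lau) : Matrix S S Lau :=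
  (T (-1) : Lau) • (X.map iv).transpose

private theorem T_T : (T 1 : Lau) * T (-1) = 1 := by
  rw [← T_add]
  simp

private theorem T_T' : (T (-1) : Lau) * T 1 = 1 := by
  rw [← T_add]
  simp

private theorem Nn_Nn (X : Matrix S S Lau) : Nn (Nn X) = X := by
  ext1 i j
  unfold Nn
  rw [Matrix.smul_apply, Matrix.transpose_apply, Matrix.map_apply, Matrix.smul_apply,
    Matrix.transpose_apply, Matrix.map_apply, smul_eq_mul, smul_eq_mul, map_mul, iv_iv,
    iv_apply, invert_T, neg_neg, ← mul_assoc, T_T', one_mul]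

private theorem F_iv (hpos : Function.Injective pos) :
    (T 1 : Lau) • ((Fm M pos (T 1 : Lau)).map iv).transpose = Fm M pos (T 1 : Lau) := by
  ext1 i j
  rw [Matrix.smul_apply, Matrix.transpose_apply, Matrix.map_apply, smul_eq_mul,
    Fm_decomp hpos j i, Fm_decomp hpos i j, map_add, map_mul, iv_apply, iv_apply, iv_apply,
    invert_T, invert_C, invert_C, mul_add, ← mul_assoc, T_T, one_mul]
  ring

private theorem Nn_mul (hpos : Function.Injective pos) (X Y : Matrix S S Lau) :
    Nn (X + Y - X * Fm M pos (T 1 : Lau) * Y) =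
      Nn Y + Nn X - Nn Y * Fm M pos (T 1 : Lau) * Nn X := by
  have h1 : Nn (X * Fm M pos (T 1 : Lau) * Y) = Nn Y * Fm M pos (T 1 : Lau) * Nn X := by
    conv_rhs => rw [← F_iv (M := M) hpos]
    unfold Nn
    rw [Matrix.map_mul, Matrix.map_mul, Matrix.transpose_mul, Matrix.transpose_mul]
    simp only [Matrix.smul_mul, Matrix.mul_smul, smul_smul, Matrix.mul_assoc]
    congr 1
    rw [← mul_assoc, T_T', one_mul]
  rw [← h1]
  unfold Nn
  ext1 i j
  simp only [Matrix.smul_apply, Matrix.transpose_apply, Matrix.map_apply, Matrix.sub_apply,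
    Matrix.add_apply, smul_eq_mul, map_add, map_sub]
  ring

private theorem Nn_inv (hpos : Function.Injective pos) (h : IsRep (Fm M pos (T 1 : Lau)) σ L)
    {g : G} (hg : g ∈ GP σ Set.univ) : L g⁻¹ = Nn (L g) := by
  unfold GP at hg
  induction hg using Subgroup.closure_induction with
  | mem x hx =>
    obtain ⟨s, -, rfl⟩ := hx
    have hF : Fm M pos (T 1 : Lau) s s = 1 + T 1 := by
      unfold Fm
      rw [Matrix.of_apply, if_pos rfl]
    rw [gen_inv h hF T_T, h.gen]
    unfold Nn
    ext1 i j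
    rw [Matrix.smul_apply, Matrix.transpose_apply, Matrix.map_apply, Matrix.single_apply,
      Matrix.single_apply, smul_eq_mul]
    by_cases hc : s = i ∧ s = j
    · rw [if_pos hc, if_pos hc.symm, map_one, mul_one]
    · rw [if_neg hc, if_neg (fun e => hc e.symm), map_zero, mul_zero]
  | one =>
    rw [inv_one, h.one]
    unfold Nn
    ext1 i j
    simp
  | mul x y _ _ h1 h2 =>
    rw [mul_inv_rev, h.mul, h.mul, Nn_mul hpos, h1, h2]
  | inv x _ h1 =>
    rw [inv_inv, h1, Nn_Nn]

theorem symm_inv (hpos : Function.Injective pos) (h : IsRep (Fm M pos (T 1 : Lau)) σ L) {g : G}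
    (hg : g ∈ GP σ Set.univ) (i j : S) : L g⁻¹ i j = T (-1) * invert (L g j i) := by
  rw [Nn_inv hpos h hg]
  rfl

theorem intg_antisymm (hpos : Function.Injective pos) (h : IsRep (Fm M pos (T 1 : Lau)) σ L)
    {g : G} (hg : g ∈ GP σ Set.univ) (h1 : Intg (L g)) (h2 : Intg (L g⁻¹)) : L g = 0 := by
  have h3 : L g⁻¹ = 0 := by
    ext1 i j
    apply LaurentPolynomial.ext
    intro n
    rcases lt_or_ge n 0 with hn | hn
    · rw [h2 i j n hn]
      simp
    · rw [symm_inv hpos h hg i j, coeff_T_mul, invert_apply, h1 j i _ (by omega)]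
      simp
  have h4 := mul_left' h g⁻¹ g
  rw [inv_mul_cancel, h.one, h3, zero_mul, sub_zero, one_mul, zero_add] at h4
  exact h4.symm

end H42.NU
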