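import Pool.Agent.H42.NU.Pole
import Pool.Agent.H42.NU.Mats
import Pool.Agent.H42.NU.HurwA

/-!
# NCU F2: the parabolic step

`l = lK ++ [s]` is increasing for `pos` (so `s ∉ lK`, `pos i < pos s` for `i ∈ lK`). `x ∈ WP l` has no right descent in `lK`,
`z₀ ∈ WP lK`, `u = x z₀`. For every `z ∈ WP lK`: `ℓ(x z) = ℓ(x) + ℓ(z)` (`length_mul_of_min`, module `H73/HVN/Parab.lean`), so
`lift (x z) = lift x * lift z` (`lift_mul`) and `(lift u)⁻¹ * lift (x z) = (lift z₀)⁻¹ * lift z =: g`. Hence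
`Ym (x z₀) (x z) = Ym z₀ z` (as matrices).

`dual_parab`: let `β ∈ Dual cs F L lift (lK ++ [s]) (x z₀)`. `pj s β` is `0` outside `lK` (at `s` it is `0`, outside `l` it is `β`).
Let `z ∈ WP lK`, `p ∈ lK`, `m : ℕ` with `(Ym z₀ z q p)_n = 0` for `q ∈ lK`, `n < -m`. Put `λ_j = L g j p`: it is `0` for `j ∉ lK`
(`supp_row`, `lift_mem_GP`) and has no coefficients below `-m` (`ym_pole` for the list `lK`). The entry
`Ym z₀ z s p = [s = p] - ∑_j F s j λ_j = ∑_{j ∈ lK} C (kk M s j) * T 1 * λ_j` (`p ≠ s`; `F s j = -(k * t)` as `pos j < pos s`) has coefficient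
`∑_j k (λ_j)_{n-1}` at `n`: it is `0` for all `n ≤ -m` (`n - 1 < -m`). So the hypothesis of `β ∈ Dual` holds for
`v = x z ∈ WP l` (`WP_mono`), `p`, `m`, and gives `0 ≤ ∑ q, β q * (Ym z₀ z q p)_{-m}`; the term `q = s` is `0`, so the sum equals
`∑ q, (pj s β) q * (Ym z₀ z q p)_{-m}`.

`cov_parab`: let `β ∈ Cov σ lift L lK z₀` with `θ ∈ dg σ lK`, `lift z₀ * θ = lift z'`. Apply `π`: `z' = z₀ * π θ` (`proj_lift`), and
`π θ ∈ WP lK` (`dg_mem_GP`, `proj_GP`), so `z' ∈ WP lK` and `lift (x z₀) * θ = lift x * lift z₀ * θ = lift x * lift z' = lift (x z')`. And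
`θ ∈ dg σ (lK ++ [s])` by `dg_append_left`.
-/

set_option autoImplicit false

namespace H42.NU

open LaurentPolynomial Pool.Agent.H73.HVN

universe u v w

variable {S : Type u} [Fintype S] [DecidableEq S] {W : Type v} [Group W]
  {M : CoxeterMatrix S} {cs : CoxeterSystem M W} {G : Type w} [Group G] {σ : S → G}
  {lift : W → G} {pos : S → ℕ} {L : G → Matrix S S Lau}

omit [Fintype S] [DecidableEq S] in
private theorem parD_lift (hlf : IsLift cs σ lift) {lK : List S} {x z : W}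
    (hx' : ∀ k ∈ lK, ¬ cs.IsRightDescent x k) (hz : z ∈ WP cs {i | i ∈ lK}) :
    lift (x * z) = lift x * lift z :=
  lift_mul hlf (length_mul_of_min cs (L := {i | i ∈ lK}) (fun i hi => hx' i hi) hz)

theorem dual_parab (hpos : Function.Injective pos) (h : IsRep (Fm M pos (T 1 : Lau)) σ L)
    (hlf : IsLift cs σ lift) {lK : List S} {s : S}
    (hl : (lK ++ [s]).Pairwise (fun i j => pos i < pos j)) {x z₀ : W}
    (hx : x ∈ WP cs {i | i ∈ lK ++ [s]}) (hx' : ∀ k ∈ lK, ¬ cs.IsRightDescent x k)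
    (hz : z₀ ∈ WP cs {i | i ∈ lK}) {β : S → ℝ}
    (hβ : β ∈ Dual cs (Fm M pos (T 1 : Lau)) L lift (lK ++ [s]) (x * z₀)) :
    pj s β ∈ Dual cs (Fm M pos (T 1 : Lau)) L lift lK z₀ := by
  have hps : ∀ k ∈ lK, pos k < pos s := by
    intro k hk
    rw [List.pairwise_append] at hl
    exact hl.2.2 k hk s (List.mem_singleton_self s)
  have hsK : s ∉ lK := fun hs => lt_irrefl _ (hps s hs)
  refine ⟨fun q hq => ?_, fun z hzK p hp m hY => ?_⟩
  · by_cases hqs : q = s
    · rw [hqs]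
      exact Function.update_self _ _ _
    · have e1 : pj s β q = β q := Function.update_of_ne hqs _ _
      rw [e1]
      refine hβ.1 q fun hq' => ?_
      rcases List.mem_append.1 hq' with h1 | h1
      · exact hq h1
      · exact hqs (List.mem_singleton.1 h1)
  · have hps' : p ≠ s := fun e => hsK (e ▸ hp)
    have hYm : Ym (Fm M pos (T 1 : Lau)) L lift (x * z₀) (x * z) =
        Ym (Fm M pos (T 1 : Lau)) L lift z₀ z := by
      unfold Ym
      rw [parD_lift hlf hx' hz, parD_lift hlf hx' hzK]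
      congr 3
      group
    have hg : (lift z₀)⁻¹ * lift z ∈ GP σ {i | i ∈ lK} :=
      mul_mem (inv_mem (lift_mem_GP hlf hz)) (lift_mem_GP hlf hzK)
    have hs0 : ∀ n : ℤ, n ≤ -(m : ℤ) →
        (Ym (Fm M pos (T 1 : Lau)) L lift z₀ z s p).coeff n = 0 := by
      intro n hn
      have e1 : Ym (Fm M pos (T 1 : Lau)) L lift z₀ z s p =
          -∑ j, Fm M pos (T 1 : Lau) s j * L ((lift z₀)⁻¹ * lift z) j p := by
        unfold Ym
        rw [Matrix.sub_apply, Matrix.one_apply_ne hps'.symm, Matrix.mul_apply, zero_sub]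
      rw [e1, AddMonoidAlgebra.coeff_neg, Finsupp.neg_apply, AddMonoidAlgebra.coeff_sum,
        Finsupp.finsetSum_apply, neg_eq_zero]
      refine Finset.sum_eq_zero fun j _ => ?_
      by_cases hj : j ∈ lK
      · have hjs : s ≠ j := fun e => hsK (e ▸ hj)
        have e2 : Fm M pos (T 1 : Lau) s j = -(C (kk M s j) * T 1) := by
          unfold Fm
          rw [Matrix.of_apply, if_neg hjs, if_pos (hps j hj)]
          rfl
        rw [e2, neg_mul, mul_assoc, AddMonoidAlgebra.coeff_neg, Finsupp.neg_apply, coeff_C_mul,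
          coeff_T_mul, ym_pole hpos h hlf hz hzK m hY j (n - 1) (by omega), mul_zero, neg_zero]
      · rw [supp_row h hg (i := j) hj p, mul_zero]
        rfl
    have hv : x * z ∈ WP cs {i | i ∈ lK ++ [s]} := by
      refine mul_mem hx (WP_mono cs ?_ hzK)
      intro i hi
      exact List.mem_append_left _ hi
    have h1 := hβ.2 (x * z) hv p (List.mem_append_left _ hp) m (fun q hq n hn => by
      rw [hYm]
      rcases List.mem_append.1 hq with h1 | h1
      · exact hY q h1 n hn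
      · rw [List.mem_singleton.1 h1]
        exact hs0 n hn.le)
    rw [hYm] at h1
    refine h1.trans (le_of_eq ?_)
    refine Finset.sum_congr rfl fun q _ => ?_
    by_cases hqs : q = s
    · rw [hqs, hs0 _ le_rfl, mul_zero, mul_zero]
    · have e1 : pj s β q = β q := Function.update_of_ne hqs _ _
      rw [e1]

theorem cov_parab (hlf : IsLift cs σ lift) (π : G →* W) (hπ : ∀ s, π (σ s) = cs.simple s)
    {lK : List S} {s : S} {x z₀ : W} (hx' : ∀ k ∈ lK, ¬ cs.IsRightDescent x k)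
    (hz : z₀ ∈ WP cs {i | i ∈ lK}) :
    Cov σ lift L lK z₀ ⊆ Cov σ lift L (lK ++ [s]) (x * z₀) := by
  rintro β ⟨h0, θ, hθ, z', he, hr⟩
  have hz' : z' ∈ WP cs {i | i ∈ lK} := by
    have e1 : z₀ * π θ = z' := by
      have h2 := congrArg π he
      rw [map_mul, proj_lift hlf π hπ, proj_lift hlf π hπ] at h2
      exact h2
    rw [← e1]
    exact mul_mem hz (proj_GP π hπ (dg_mem_GP hθ))
  refine ⟨h0, θ, dg_append_left hθ s, x * z', ?_, hr⟩
  rw [parD_lift hlf hx' hz, parD_lift hlf hx' hz', mul_assoc, he]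

end H42.NU
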