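import Pool.Agent.H42.NU.StepC
import Pool.Agent.H42.NU.Cone
import Pool.Agent.H42.NU.CovD
import Pool.Agent.H42.NU.ParD

/-!
# NCU F7: the covers generate the dual cone
-/

set_option autoImplicit false

namespace H42.NU

open LaurentPolynomial Pool.Agent.H73.HVN

universe u v w

variable {S : Type u} [Fintype S] [DecidableEq S] {W : Type v} [Group W] [Finite W]
  {M : CoxeterMatrix S} {cs : CoxeterSystem M W} {G : Type w} [Group G] {σ : S → G}
  {lift : W → G}

/-- the position with `s` moved to the front -/
def front (pos : S → ℕ) (s : S) (i : S) : ℕ := if i = s then 0 else pos i + 1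

theorem front_injective {pos : S → ℕ} (hpos : Function.Injective pos) (s : S) :
    Function.Injective (front pos s) := by
  intro i j hij
  unfold front at hij
  split_ifs at hij with h1 h2 h2
  · rw [h1, h2]
  · exact hpos (by omega)

theorem single_mem_cov {pos : S → ℕ} {L : G → Matrix S S Lau}
    (h : IsRep (Fm M pos (T 1 : Lau)) σ L) (hlf : IsLift cs σ lift) {l : List S} {s : S}
    (hs : s ∈ l) {u : W} (hu : ¬ cs.IsRightDescent u s) :
    (Pi.single s 1 : S → ℝ) ∈ Cov σ lift L l u := by
  refine ⟨fun q => ?_, σ s, dg_gen hs, u * cs.simple s, (hlf.step u s hu).symm, fun i j => ?_⟩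
  · by_cases hq : q = s
    · subst hq; simp
    · simp [Pi.single_eq_of_ne hq]
  · rw [h.gen s, Matrix.single_apply]
    by_cases hi : i = s
    · by_cases hj : j = s
      · subst hi; subst hj; simp
      · rw [if_neg (fun hh => hj hh.2.symm), Pi.single_eq_of_ne hj]; simp
    · rw [if_neg (fun hh => hi hh.1.symm), Pi.single_eq_of_ne hi]; simp

theorem dual_nonneg {pos : S → ℕ} {L : G → Matrix S S Lau}
    (h : IsRep (Fm M pos (T 1 : Lau)) σ L) {l : List S} {u : W} (hu : u ∈ WP cs {s | s ∈ l})
    {β : S → ℝ} (hβ : β ∈ Dual cs (Fm M pos (T 1 : Lau)) L lift l u) {s : S} (hs : s ∈ l) :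
    0 ≤ β s := by
  have h1 : Ym (Fm M pos (T 1 : Lau)) L lift u u = 1 := by
    unfold Ym
    rw [inv_mul_cancel, h.one]
    simp
  have h2 := hβ.2 u hu s hs 0 (by
    intro q _ n hn
    rw [h1, Matrix.one_apply]
    split_ifs
    · have : (1 : Lau) = C 1 := by simp
      rw [this, C_apply, if_neg (by simpa using hn.ne)]
    · simp)
  rw [h1] at h2
  have h3 : ∀ q, β q * ((1 : Matrix S S Lau) q s).coeff (-((0 : ℕ) : ℤ)) =
      if q = s then β s else 0 := by
    intro q
    rw [Matrix.one_apply]
    split_ifs with hq
    · have : (1 : Lau) = C 1 := by simp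
      rw [this, C_apply, hq]; simp
    · simp
  rw [Finset.sum_congr rfl (fun q _ => h3 q), Finset.sum_ite_eq' Finset.univ s] at h2
  simpa using h2

theorem sd_main {LL : (S → ℕ) → G → Matrix S S Lau}
    (hLL : ∀ pos, Function.Injective pos → IsRep (Fm M pos (T 1 : Lau)) σ (LL pos))
    (hlf : IsLift cs σ lift) (π : G →* W) (hπ : ∀ s, π (σ s) = cs.simple s) (n : ℕ) :
    ∀ (N : ℕ) (l : List S) (pos : S → ℕ), Function.Injective pos → l.length = n →
      l.Pairwise (fun i j => pos i < pos j) → ∀ u ∈ WP cs {s | s ∈ l}, cs.length u = N →
      ∀ β ∈ Dual cs (Fm M pos (T 1 : Lau)) (LL pos) lift l u,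
        β ∈ Submodule.span NNReal (Cov σ lift (LL pos) l u) := by
  induction n with
  | zero =>
    intro N l pos hpos hlen hl u hu hN β hβ
    have hl0 : l = [] := List.length_eq_zero_iff.mp hlen
    subst hl0
    have : β = 0 := by
      funext q
      exact hβ.1 q (by simp)
    rw [this]
    exact Submodule.zero_mem _
  | succ n ih =>
    intro N
    induction N using Nat.strong_induction_on with
    | _ N ihN =>
      intro l pos hpos hlen hl u hu hN β hβ
      obtain ⟨lK, s, rfl⟩ : ∃ lK s, l = lK ++ [s] := by
        rcases List.eq_nil_or_concat l with h | ⟨lK, s, h⟩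
        · rw [h] at hlen; simp at hlen
        · exact ⟨lK, s, by simpa using h⟩
      have hlenK : lK.length = n := by
        rw [List.length_append, List.length_singleton] at hlen
        omega
      have hrep := hLL pos hpos
      rw [List.pairwise_append] at hl
      have hlK := hl.1
      have h1 : ∀ i ∈ lK, pos i < pos s := fun i hi => hl.2.2 i hi s (by simp)
      have hsK : s ∉ lK := fun hs => lt_irrefl _ (h1 s hs)
      have hl' : (lK ++ [s]).Pairwise (fun i j => pos i < pos j) := List.pairwise_append.mpr hl
      have hs : s ∈ lK ++ [s] := by simp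
      -- parabolic step
      obtain ⟨x, z₀, hx, hz, huxz⟩ := exists_min cs {i | i ∈ lK} u
      have hKl : {i | i ∈ lK} ⊆ {i | i ∈ lK ++ [s]} := by
        intro i hi
        change i ∈ lK ++ [s]
        exact List.mem_append_left _ hi
      have hxl : x ∈ WP cs {i | i ∈ lK ++ [s]} := by
        have : x = u * z₀⁻¹ := by rw [huxz]; group
        rw [this]
        exact mul_mem hu (inv_mem (WP_mono cs hKl hz))
      have hpar : ∀ γ ∈ Dual cs (Fm M pos (T 1 : Lau)) (LL pos) lift (lK ++ [s]) u,
          pj s γ ∈ Submodule.span NNReal (Cov σ lift (LL pos) (lK ++ [s]) u) := by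
        intro γ hγ
        rw [huxz] at hγ
        have h2 := dual_parab hpos hrep hlf hl' hxl (fun k hk => hx k hk) hz hγ
        have h3 := ih (cs.length z₀) lK pos hpos hlenK hlK z₀ hz rfl _ h2
        have h4 := cov_parab (L := LL pos) (s := s) hlf π hπ (fun k hk => hx k hk) hz
        rw [← huxz] at h4
        exact Submodule.span_mono h4 h3
      have hβs : 0 ≤ β s := dual_nonneg hrep hu hβ hs
      by_cases hus : cs.IsRightDescent u s
      · -- reflection step
        have hpos' := front_injective hpos s
        have hrep' := hLL (front pos s) hpos'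
        have h2 : ∀ i ∈ lK, front pos s s < front pos s i := by
          intro i hi
          unfold front
          rw [if_pos rfl, if_neg (show ¬ i = s from fun hh => hsK (hh ▸ hi))]
          omega
        have h3 : ∀ i ∈ lK, ∀ j ∈ lK, (pos i < pos j ↔ front pos s i < front pos s j) := by
          intro i hi j hj
          unfold front
          rw [if_neg (show ¬ i = s from fun hh => hsK (hh ▸ hi)),
            if_neg (show ¬ j = s from fun hh => hsK (hh ▸ hj))]
          omega
        have hlf' : (s :: lK).Pairwise (fun i j => front pos s i < front pos s j) := by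
          rw [List.pairwise_cons]
          refine ⟨h2, ?_⟩
          refine List.Pairwise.imp_of_mem ?_ hlK
          intro a b ha hb hab
          exact (h3 a ha b hb).mp hab
        have hd := dual_step hrep hrep' hlf hsK h1 h2 h3 hu hus hβ
        have hset : {i | i ∈ s :: lK} = {i | i ∈ lK ++ [s]} := by
          ext i
          simp [or_comm]
        have hq : u * cs.simple s ∈ WP cs {i | i ∈ s :: lK} := by
          rw [hset]
          exact mul_mem hu (Subgroup.subset_closure ⟨s, by simp, rfl⟩)
        have hqlen : cs.length (u * cs.simple s) < N := by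
          rw [← hN]; exact hus
        have h5 := ihN _ hqlen (s :: lK) (front pos s) hpos' (by simpa using hlenK) hlf' _ hq rfl
          _ hd
        have hqs : ¬ cs.IsRightDescent (u * cs.simple s) s := by
          have := (cs.isRightDescent_iff_not_isRightDescent_mul (w := u) (i := s)).mp hus
          exact this
        obtain ⟨ζ, hζ, m, hm, he⟩ := cone_rf M (X := Cov σ lift (LL pos) (lK ++ [s]) u)
          (fun γ hγ => by
            have := cov_step hpos hpos' hrep hrep' hlf hlf' h1 h3 hqs hγ
            rwa [cs.simple_mul_simple_cancel_right] at this) h5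
        rw [rf_rf] at he
        have hpζ : pj s ζ ∈ Submodule.span NNReal (Cov σ lift (LL pos) (lK ++ [s]) u) :=
          cone_pj (fun γ hγ => hpar γ (cov_sub_dual hpos hrep hlf hl' hu hγ)) hζ
        rw [he]
        refine cone_final hζ hpζ hm ?_
        have := congrFun he s
        simp at this
        linarith
      · -- the simple cover
        have hc := single_mem_cov hrep hlf hs hus
        have h2 : β = β s • (Pi.single s 1 : S → ℝ) + pj s β := by
          funext q
          unfold pj
          by_cases hq : q = s
          · subst hq; simp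
          · simp [Pi.single_eq_of_ne hq, Function.update_of_ne hq]
        rw [h2]
        exact Submodule.add_mem _ (cone_smul (Submodule.subset_span hc) hβs) (hpar β hβ)

end H42.NU
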