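import Pool.Agent.H42.NU.FS
import Pool.Agent.H42.NU.IntA
import Pool.Agent.H42.NU.SD

/-!
# NCU G3: the order, joins, chains, the lattice
-/

set_option autoImplicit false

namespace H42.NU

open LaurentPolynomial Pool.Agent.H73.HVN Relation

universe u v w

/-- a finite poset with a least element and joins is a lattice -/
theorem exists_lattice {α : Type v} [Finite α] (le : α → α → Prop) (hr : ∀ a, le a a)
    (ht : ∀ a b c, le a b → le b c → le a c) (ha : ∀ a b, le a b → le b a → a = b)
    (hbot : ∃ b, ∀ x, le b x)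
    (hj : ∀ a b, ∃ z, le a z ∧ le b z ∧ ∀ w, le a w → le b w → le z w) :
    ∃ _ : Lattice α, ∀ x y : α, x ≤ y ↔ le x y := by
  classical
  haveI := Fintype.ofFinite α
  obtain ⟨bot, hb⟩ := hbot
  choose jn h1 h2 h3 using hj
  have hlub : ∀ s : Finset α, ∃ z, (∀ x ∈ s, le x z) ∧ ∀ w, (∀ x ∈ s, le x w) → le z w := by
    intro s
    induction s using Finset.induction_on with
    | empty => exact ⟨bot, by simp, fun w _ => hb w⟩
    | insert a s _ ih =>
      obtain ⟨z, hz1, hz2⟩ := ih
      refine ⟨jn a z, ?_, ?_⟩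
      · intro x hx
        rcases Finset.mem_insert.mp hx with rfl | hx
        · exact h1 _ _
        · exact ht _ _ _ (hz1 x hx) (h2 _ _)
      · intro w hw
        exact h3 _ _ _ (hw a (Finset.mem_insert_self _ _))
          (hz2 w (fun x hx => hw x (Finset.mem_insert_of_mem hx)))
  have hm : ∀ a b, ∃ z, le z a ∧ le z b ∧ ∀ w, le w a → le w b → le w z := by
    intro a b
    obtain ⟨z, hz1, hz2⟩ := hlub (Finset.univ.filter (fun x => le x a ∧ le x b))
    refine ⟨z, hz2 a ?_, hz2 b ?_, fun w hwa hwb => hz1 w (by simp [hwa, hwb])⟩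
    · intro x hx
      exact (Finset.mem_filter.mp hx).2.1
    · intro x hx
      exact (Finset.mem_filter.mp hx).2.2
  choose mt m1 m2 m3 using hm
  exact ⟨{ le := le
           le_refl := hr
           le_trans := ht
           le_antisymm := ha
           sup := jn
           le_sup_left := h1
           le_sup_right := h2
           sup_le := fun a b c => h3 a b c
           inf := mt
           inf_le_left := m1
           inf_le_right := m2
           le_inf := fun a b c hab hac => m3 b c a hab hac }, fun x y => Iff.rfl⟩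

variable {S : Type u} [Fintype S] [DecidableEq S] {W : Type v} [Group W] [Finite W]
  {M : CoxeterMatrix S} {cs : CoxeterSystem M W} {G : Type w} [Group G] {σ : S → G}
  {lift : W → G} {pos : S → ℕ} {L : G → Matrix S S Lau}

theorem lift_mem_univ (hlf : IsLift cs σ lift) (w : W) : lift w ∈ GP σ Set.univ := by
  refine lift_mem_GP hlf ?_
  unfold WP
  rw [Set.image_univ, cs.subgroup_closure_range_simple]
  exact Subgroup.mem_top _

theorem le_antisymm' (hpos : Function.Injective pos) (h : IsRep (Fm M pos (T 1 : Lau)) σ L)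
    (hlf : IsLift cs σ lift) {u v : W} (h1 : Intg (L ((lift u)⁻¹ * lift v)))
    (h2 : Intg (L ((lift v)⁻¹ * lift u))) : u = v := by
  have h3 : L ((lift u)⁻¹ * lift v) = 0 := by
    refine intg_antisymm hpos h (mul_mem (inv_mem (lift_mem_univ hlf u)) (lift_mem_univ hlf v)) h1 ?_
    have : ((lift u)⁻¹ * lift v)⁻¹ = (lift v)⁻¹ * lift u := by group
    rw [this]; exact h2
  refine faithful hpos h hlf ?_
  have h4 : lift v = lift u * ((lift u)⁻¹ * lift v) := by group
  rw [h4, h.mul, h3]
  simp

theorem step_ne (hpos : Function.Injective pos) (h : IsRep (Fm M pos (T 1 : Lau)) σ L)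
    {c : List S} (hc : c.Pairwise (fun i j => pos i < pos j)) {u u' : W} {θ : G}
    (hθ : θ ∈ dg σ c) (he : lift u * θ = lift u') : u ≠ u' := by
  rintro rfl
  have h1 : θ = 1 := by
    have := mul_left_cancel (he.trans (mul_one _).symm)
    exact this
  obtain ⟨β, hβ, hE, -⟩ := dg_rank1 hpos h hc hθ
  have h2 : ∀ i, β i = 0 := by
    intro i
    have h3 := hβ i i
    rw [h1, h.one] at h3
    have h4 : (C (β i * β i) : Lau).coeff 0 = 0 := by rw [← h3]; simp
    rw [C_apply, if_pos rfl] at h4
    exact mul_self_eq_zero.mp h4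
  have h5 : Ef M pos β β = 0 := by
    unfold Ef
    simp [h2]
  rw [h5] at hE
  exact zero_ne_one hE

theorem not_intg {X : Matrix S S Lau} (h : ¬ Intg X) :
    ∃ (j q : S) (n : ℤ), n < 0 ∧ (X j q).coeff n ≠ 0 := by
  unfold Intg at h
  push Not at h
  obtain ⟨j, q, n, hn, h⟩ := h
  exact ⟨j, q, n, hn, h⟩

/-- the separation step in all `u` -/
def SepStep (σ : S → G) (lift : W → G) (L : G → Matrix S S Lau) (c : List S) : Prop :=
  ∀ (u x : W) (j : S), (∃ (q : S) (n : ℤ), n < 0 ∧ (L ((lift x)⁻¹ * lift u) j q).coeff n ≠ 0) →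
    ∃ θ ∈ dg σ c, ∃ u' : W, lift u * θ = lift u' ∧ ∀ w : W, Intg (L ((lift u)⁻¹ * lift w)) →
      (∀ q, ∀ n : ℤ, n < 0 → (L ((lift x)⁻¹ * lift w) j q).coeff n = 0) →
      Intg (L ((lift u')⁻¹ * lift w))

theorem main_lattice (hpos : Function.Injective pos) (h : IsRep (Fm M pos (T 1 : Lau)) σ L)
    (hlf : IsLift cs σ lift) {c : List S} (hc : c.Pairwise (fun i j => pos i < pos j))
    (hS : SepStep σ lift L c) :
    (∃ _ : Lattice W, ∀ u v : W, u ≤ v ↔ Intg (L ((lift u)⁻¹ * lift v))) ∧
    (∀ u v : W, Intg (L ((lift u)⁻¹ * lift v)) →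
      ReflTransGen (fun x y => ∃ θ ∈ dg σ c, lift x * θ = lift y) u v) := by
  have hr : ∀ a : W, Intg (L ((lift a)⁻¹ * lift a)) := by
    intro a
    rw [inv_mul_cancel, h.one]
    intro i j n _
    simp
  have ht : ∀ a b d : W, Intg (L ((lift a)⁻¹ * lift b)) → Intg (L ((lift b)⁻¹ * lift d)) →
      Intg (L ((lift a)⁻¹ * lift d)) := by
    intro a b d hab hbd
    have : (lift a)⁻¹ * lift d = ((lift a)⁻¹ * lift b) * ((lift b)⁻¹ * lift d) := by group
    rw [this]
    exact intg_mul h hab hbd
  have ha : ∀ a b : W, Intg (L ((lift a)⁻¹ * lift b)) → Intg (L ((lift b)⁻¹ * lift a)) → a = b :=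
    fun a b => le_antisymm' hpos h hlf
  have hstep : ∀ {u u' : W} {θ : G}, θ ∈ dg σ c → lift u * θ = lift u' →
      Intg (L ((lift u)⁻¹ * lift u')) := by
    intro u u' θ hθ he
    rw [← he, inv_mul_cancel_left]
    exact intg_dg hpos h hc hθ
  letI : PartialOrder W :=
    { le := fun a b => Intg (L ((lift a)⁻¹ * lift b))
      le_refl := hr
      le_trans := ht
      le_antisymm := ha }
  haveI : WellFoundedGT W := Finite.to_wellFoundedGT
  constructor
  · refine exists_lattice _ hr ht ha ⟨1, fun x => ?_⟩ ?_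
    · rw [hlf.one, inv_one, one_mul]
      exact intg_lift h hlf x
    · intro a b
      have key : ∀ u : W, (∀ w : W, a ≤ w → b ≤ w → u ≤ w) →
          ∃ z : W, a ≤ z ∧ b ≤ z ∧ ∀ w : W, a ≤ w → b ≤ w → z ≤ w := by
        intro u
        induction u using WellFoundedGT.induction with
        | _ u ih =>
          intro hu
          by_cases hau : a ≤ u
          · by_cases hbu : b ≤ u
            · exact ⟨u, hau, hbu, hu⟩
            · obtain ⟨j, q, n, hn, hne⟩ := not_intg hbu
              obtain ⟨θ, hθ, u', he, hw⟩ := hS u b j ⟨q, n, hn, hne⟩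
              refine ih u' (lt_of_le_of_ne (hstep hθ he) (step_ne hpos h hc hθ he)) ?_
              intro w haw hbw
              exact hw w (hu w haw hbw) (fun q n hn => hbw j q n hn)
          · obtain ⟨j, q, n, hn, hne⟩ := not_intg hau
            obtain ⟨θ, hθ, u', he, hw⟩ := hS u a j ⟨q, n, hn, hne⟩
            refine ih u' (lt_of_le_of_ne (hstep hθ he) (step_ne hpos h hc hθ he)) ?_
            intro w haw hbw
            exact hw w (hu w haw hbw) (fun q n hn => haw j q n hn)
      refine key 1 (fun w _ _ => ?_)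
      change Intg (L ((lift 1)⁻¹ * lift w))
      rw [hlf.one, inv_one, one_mul]
      exact intg_lift h hlf w
  · intro u v
    induction u using WellFoundedGT.induction with
    | _ u ih =>
      intro huv
      by_cases hne : u = v
      · rw [hne]
      · have h1 : ¬ Intg (L ((lift v)⁻¹ * lift u)) := fun h2 => hne (ha u v huv h2)
        obtain ⟨j, q, n, hn, hn'⟩ := not_intg h1
        obtain ⟨θ, hθ, u', he, hw⟩ := hS u v j ⟨q, n, hn, hn'⟩
        have h2 := ih u' (lt_of_le_of_ne (hstep hθ he) (step_ne hpos h hc hθ he))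
          (hw v huv (fun q n hn => hr v j q n hn))
        exact ReflTransGen.head ⟨θ, hθ, he⟩ h2

end H42.NU
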