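import Pool.Agent.H42.NU.Mats
import Pool.Agent.H42.NU.Exist

/-!
# NCU G4: the presentation of the braid group by the reduced words of the longest element

`rel0 cs`: the relations `ω = ω'` for any two reduced words `ω`, `ω'` of a longest element (an element `w` with
`ℓ(v) ≤ ℓ(w)` for all `v`). `FreeGroup` product of a word `ω`: `(ω.map FreeGroup.of).prod`.

`rel0_of_artin`: let `f : S → H` satisfy the braid relations in a group `H`. By `exists_lift` and `lift_wordProd`
`(ω.map f).prod = lift (wordProd ω)` for reduced `ω`; so `(ω.map f).prod = (ω'.map f).prod` if `ω, ω'` are reduced words of the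
same element. Hence `FreeGroup.lift f` kills `rel0 cs`.

`artin_of_rel0`: let `f : S → H` be such that `(ω.map f).prod = (ω'.map f).prod` for any two reduced words of a longest
element. Then `Artin M f`: let `s ≠ s'`, `m = M s s' ≠ 0` (`M_ne_zero`). Let `w` be a longest element (`W` is finite: it exists,
`Finite.exists_max`). Let `L = {s, s'}` and `w = l * u` with `l ∈ WP cs L`, `u` without left descent in `L` (`exists_min_left`),
`ℓ(l' u) = ℓ(l') + ℓ(u)` for all `l' ∈ WP cs L` (`length_mul_of_min_left`). Since `w` is longest, `ℓ(l) ≥ ℓ(l')` for all `l' ∈ WP cs L`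
(compare `l' u` with `l u`). `z_m = pr cs.simple s s' m` is in `WP cs L` (`pr_mem`) with `ℓ(z_m) = m` (`dih_len` with `v = 1`), so `ℓ(l) ≥ m`; and
the elements of `WP cs L` are of the form `z_n`, `z'_n`, `n ≤ m` (`dih_cases` for `l`: `l = v z_n` with `v` without right descent in
`L`, `v = l z_n⁻¹ ∈ WP cs L`, so `v = 1`, otherwise `v` has a right descent, which is in `L` by `right_descent_mem`). So `ℓ(l) ≤ m`,
`l = z_m` or `l = z'_m = z_m` (`dih_top`). Simpler: do not identify `l`; instead observe that `z_m u` has length
`m + ℓ(u) ≥ ℓ(l) + ℓ(u) = ℓ(w)` as soon as `ℓ(l) ≤ m`; so `w₁ = z_m u = z'_m u` is also a longest element. (`ℓ(l) ≤ m` as above.) Let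
`η` be a reduced word of `u`. Then `alt(s, s', m) ++ η` and `alt(s', s, m) ++ η` are words of `w₁` of length `m + ℓ(u) = ℓ(w₁)`, so
they are reduced; here `alt(s, s', m) = (List.range m).map (lt s s')`, with
`((List.range m).map (lt s s')).map f |>.prod = pr f s s' m` (`List.range_succ`, induction). So
`pr f s s' m * (η.map f).prod = pr f s' s m * (η.map f).prod`; cancel.
-/

set_option autoImplicit false

namespace H42.NU

open Pool.Agent.H73.HVN

universe u v w

variable {S : Type u} {W : Type v} [Group W] {M : CoxeterMatrix S} (cs : CoxeterSystem M W)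

/-- the relations identifying all reduced words of the longest element -/
def rel0 : Set (FreeGroup S) :=
  {r | ∃ ω ω' : List S, cs.IsReduced ω ∧ cs.IsReduced ω' ∧
    (∀ v, cs.length v ≤ cs.length (cs.wordProd ω)) ∧ cs.wordProd ω' = cs.wordProd ω ∧
    r = (ω.map FreeGroup.of).prod * ((ω'.map FreeGroup.of).prod)⁻¹}

/-- the braid group in this presentation -/
abbrev BG0 := PresentedGroup (rel0 cs)

/-- its generators -/
def bgen0 (s : S) : BG0 cs := PresentedGroup.of s

private theorem Top_alt {H : Type w} [Monoid H] (f : S → H) (s s' : S) (n : ℕ) :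
    (((List.range n).map (lt s s')).map f).prod = pr f s s' n := by
  induction n with
  | zero => rfl
  | succ n ih =>
    rw [List.range_succ, List.map_append, List.map_append, List.prod_append, ih]
    show pr f s s' n * (([f (lt s s' n)] : List H)).prod = pr f s s' n * f (lt s s' n)
    rw [List.prod_singleton]

private theorem Top_len_le [Finite W] {s s' : S} (hne : s ≠ s') {l : W}
    (hl : l ∈ WP cs ({s, s'} : Set S)) : cs.length l ≤ M s s' := by
  have hM := M_ne_zero cs s s'
  have hM' : M s' s ≠ 0 := M_ne_zero cs s' s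
  have n1 : ∀ i, ¬ cs.IsRightDescent (1 : W) i := cs.not_isRightDescent_one
  obtain ⟨v, n, hv, hv', hn, h⟩ := dih_cases cs hne hM l
  have key : v ∈ WP cs ({s, s'} : Set S) → v = 1 := by
    intro hvm
    by_contra hv1
    obtain ⟨i, hi⟩ := cs.exists_rightDescent_of_ne_one hv1
    rcases right_descent_mem cs hvm hi with hi' | hi'
    · exact hv (hi' ▸ hi)
    · exact hv' ((Set.mem_singleton_iff.1 hi') ▸ hi)
  rcases h with h | h
  · have hv1 : v = 1 := by
      refine key ?_
      have e : v = l * (pr cs.simple s s' n)⁻¹ := by rw [h, mul_inv_cancel_right]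
      rw [e]
      exact mul_mem hl (inv_mem (pr_mem cs s s' n))
    have h1 := dih_len cs hne hM (n1 s) (n1 s') hn
    rw [h, hv1, h1, cs.length_one, zero_add]
    exact hn
  · have hv1 : v = 1 := by
      refine key ?_
      have e : v = l * (pr cs.simple s' s n)⁻¹ := by rw [h, mul_inv_cancel_right]
      rw [e]
      refine mul_mem hl (inv_mem ?_)
      have h2 := pr_mem cs s' s n
      rwa [Set.pair_comm] at h2
    have h1 := dih_len cs hne.symm hM' (n1 s') (n1 s) (n := n) (by rw [M.symmetric s' s]; exact hn)
    rw [h, hv1, h1, cs.length_one, zero_add]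
    exact hn

private theorem Top_artin [Finite W] {H : Type w} [Group H] (f : S → H)
    (hf : ∀ ω ω' : List S, cs.IsReduced ω → cs.IsReduced ω' →
      (∀ v, cs.length v ≤ cs.length (cs.wordProd ω)) → cs.wordProd ω' = cs.wordProd ω →
      (ω.map f).prod = (ω'.map f).prod) : Artin M f := by
  intro s s' hne
  have hM := M_ne_zero cs s s'
  have hM' : M s' s ≠ 0 := M_ne_zero cs s' s
  have n1 : ∀ i, ¬ cs.IsRightDescent (1 : W) i := cs.not_isRightDescent_one
  obtain ⟨w, hw⟩ := Finite.exists_max cs.length
  obtain ⟨l, u, hu, hl, rfl⟩ := exists_min_left cs ({s, s'} : Set S) w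
  have hlm := Top_len_le cs hne hl
  have hlen : ∀ l' ∈ WP cs ({s, s'} : Set S), cs.length (l' * u) = cs.length l' + cs.length u :=
    fun l' hl' => length_mul_of_min_left cs hu hl'
  obtain ⟨η, hη, hηu⟩ := cs.exists_isReduced u
  have hηl : η.length = cs.length u := by rw [hηu]; exact hη.eq.symm
  have hz : cs.length (pr cs.simple s s' (M s s')) = M s s' := by
    have h1 := dih_len cs hne hM (n1 s) (n1 s') le_rfl
    rwa [one_mul, cs.length_one, zero_add] at h1
  have hword : ∀ a b : S, cs.wordProd ((List.range (M s s')).map (lt a b) ++ η) =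
      pr cs.simple a b (M s s') * u := by
    intro a b
    rw [cs.wordProd_append, ← hηu]
    exact congrArg (· * u) (Top_alt cs.simple a b (M s s'))
  have hlist : ∀ a b : S, ((List.range (M s s')).map (lt a b) ++ η).length =
      M s s' + cs.length u := by
    intro a b
    rw [List.length_append, List.length_map, List.length_range, hηl]
  have hzu : cs.length (pr cs.simple s s' (M s s') * u) = M s s' + cs.length u := by
    rw [hlen _ (pr_mem cs s s' _), hz]
  have h1 : cs.IsReduced ((List.range (M s s')).map (lt s s') ++ η) := by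
    unfold CoxeterSystem.IsReduced
    rw [hword, hlist, hzu]
  have h2 : cs.IsReduced ((List.range (M s s')).map (lt s' s) ++ η) := by
    unfold CoxeterSystem.IsReduced
    rw [hword, hlist, ← dih_top cs s s', hzu]
  have h3 := hf _ _ h1 h2 (fun v => by
      have h4 := hw v
      rw [hlen l hl] at h4
      rw [hword, hzu]
      omega) (by rw [hword, hword, dih_top cs s s'])
  rw [List.map_append, List.map_append, List.prod_append, List.prod_append, Top_alt, Top_alt] at h3
  exact mul_right_cancel h3

theorem artin_bgen0 [Finite W] : Artin M (bgen0 cs) := by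
  refine Top_artin cs (bgen0 cs) fun ω ω' h1 h2 h3 h4 => ?_
  have e : ∀ ω : List S, PresentedGroup.mk (rel0 cs) ((ω.map FreeGroup.of).prod) =
      (ω.map (bgen0 cs)).prod := by
    intro ω
    rw [map_list_prod, List.map_map]
    rfl
  have h : PresentedGroup.mk (rel0 cs)
      ((ω.map FreeGroup.of).prod * ((ω'.map FreeGroup.of).prod)⁻¹) = 1 :=
    PresentedGroup.one_of_mem ⟨ω, ω', h1, h2, h3, h4, rfl⟩
  rw [map_mul, map_inv, mul_inv_eq_one, e, e] at h
  exact h

theorem bg0_hom [Finite W] {H : Type w} [Group H] (f : S → H) (hf : Artin M f) :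
    ∃ Φ : BG0 cs →* H, ∀ s, Φ (bgen0 cs s) = f s := by
  obtain ⟨lift, hl⟩ := exists_lift cs f hf
  have e : ∀ ω : List S, FreeGroup.lift f ((ω.map FreeGroup.of).prod) = (ω.map f).prod := by
    intro ω
    rw [map_list_prod, List.map_map]
    congr 1
    refine List.map_congr_left fun i _ => ?_
    exact FreeGroup.lift_apply_of
  have h : ∀ r ∈ rel0 cs, FreeGroup.lift f r = 1 := by
    rintro r ⟨ω, ω', h1, h2, -, h4, rfl⟩
    rw [map_mul, map_inv, e, e, ← lift_wordProd hl h1, ← lift_wordProd hl h2, h4, mul_inv_cancel]
  exact ⟨PresentedGroup.toGroup h, fun s => PresentedGroup.toGroup.of h⟩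

end H42.NU
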