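import Pool.Agent.H42.NU.Join
import Pool.Agent.H42.NU.Top

/-!
# NCU G5: the main theorem
-/

set_option autoImplicit false

namespace H42.NU

open LaurentPolynomial Pool.Agent.H73.HVN Relation

universe u v w

variable {S : Type u} {W : Type v} [Group W] {M : CoxeterMatrix S}

theorem exists_rep0 [Finite W] [Fintype S] [DecidableEq S] (cs : CoxeterSystem M W) (pos : S → ℕ)
    (hpos : Function.Injective pos) :
    ∃ L : BG0 cs → Matrix S S Lau, IsRep (Fm M pos (T 1 : Lau)) (bgen0 cs) L := by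
  obtain ⟨L, hL⟩ := exists_rep (M := M) pos hpos
  obtain ⟨Φ, hΦ⟩ := bg0_hom cs (bgen M) artin_bgen
  refine ⟨fun g => L (Φ g), ?_, ?_, ?_⟩
  · simp [hL.one]
  · intro g k
    simp only [map_mul]
    exact hL.mul _ _
  · intro s
    simp only [hΦ]
    exact hL.gen s

theorem exists_proj0 [Finite W] (cs : CoxeterSystem M W) :
    ∃ π : BG0 cs →* W, ∀ s, π (bgen0 cs s) = cs.simple s :=
  bg0_hom cs cs.simple (fun s s' _ => dih_top cs s s')

theorem idxOf_injective [DecidableEq S] {c : List S} (hc' : ∀ i, i ∈ c) :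
    Function.Injective (fun i => c.idxOf i) := by
  intro i j hij
  exact (List.idxOf_inj (hc' i)).mp hij

theorem pairwise_idxOf [DecidableEq S] {c : List S} (hc : c.Nodup) :
    c.Pairwise (fun i j => c.idxOf i < c.idxOf j) := by
  rw [List.pairwise_iff_getElem]
  intro i j hi hj hij
  rw [hc.idxOf_getElem, hc.idxOf_getElem]
  exact hij

/-- the step relation on a submonoid -/
def PStep {G : Type w} [Group G] (σ : S → G) (c : List S) (b b' : G) : Prop :=
  b ∈ Submonoid.closure (Set.range σ) ∧ b' ∈ Submonoid.closure (Set.range σ) ∧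
    ∃ θ ∈ dg σ c, b' = b * θ

theorem lift_mem_pos {G : Type w} [Group G] {σ : S → G} {cs : CoxeterSystem M W} {lift : W → G}
    (hlf : IsLift cs σ lift) (w : W) : lift w ∈ Submonoid.closure (Set.range σ) := by
  obtain ⟨ω, hω, rfl⟩ := cs.exists_isReduced w
  rw [lift_wordProd hlf hω]
  refine Submonoid.list_prod_mem _ ?_
  intro x hx
  obtain ⟨s, _, rfl⟩ := List.mem_map.mp hx
  exact Submonoid.subset_closure ⟨s, rfl⟩

theorem nc_main [Finite W] (cs : CoxeterSystem M W) {c : List S} (hc : c.Nodup)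
    (hc' : ∀ i, i ∈ c) {lift : W → BG0 cs} (hlf : IsLift cs (bgen0 cs) lift) :
    (∃ _ : Lattice W, ∀ u v : W, u ≤ v ↔ ReflTransGen (PStep (bgen0 cs) c) (lift u) (lift v)) ∧
    (∀ u v : W, ReflTransGen (PStep (bgen0 cs) c) (lift u) (lift v) ↔
      ReflTransGen (fun x y => ∃ θ ∈ dg (bgen0 cs) c, lift y = lift x * θ) u v) := by
  classical
  haveI : Fintype S := ⟨c.toFinset, fun i => List.mem_toFinset.mpr (hc' i)⟩
  set pos : S → ℕ := fun i => c.idxOf i with hposdef
  have hpos : Function.Injective pos := idxOf_injective hc'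
  have hcp : c.Pairwise (fun i j => pos i < pos j) := pairwise_idxOf hc
  have hex : ∀ p : S → ℕ, ∃ L : BG0 cs → Matrix S S Lau,
      Function.Injective p → IsRep (Fm M p (T 1 : Lau)) (bgen0 cs) L := by
    intro p
    by_cases hp : Function.Injective p
    · obtain ⟨L, hL⟩ := exists_rep0 cs p hp
      exact ⟨L, fun _ => hL⟩
    · exact ⟨fun _ => 0, fun h => absurd h hp⟩
  choose LL hLL using hex
  obtain ⟨π, hπ⟩ := exists_proj0 cs
  have hrep := hLL pos hpos
  have htop : ∀ u : W, u ∈ WP cs {s | s ∈ c} := by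
    intro u
    have h1 : {s | s ∈ c} = (Set.univ : Set S) := by
      ext i; simp [hc' i]
    unfold WP
    rw [h1, Set.image_univ, cs.subgroup_closure_range_simple]
    exact Subgroup.mem_top _
  have hS : SepStep (bgen0 cs) lift (LL pos) c := by
    intro u x j hna
    exact fs hpos hrep hlf hcp hc' (fun β hβ =>
      sd_main hLL hlf π hπ c.length (cs.length u) c pos hpos rfl hcp u (htop u) rfl β hβ) hna
  obtain ⟨⟨lat, hlat⟩, hchain⟩ := main_lattice hpos hrep hlf hcp hS
  -- the order on the positive monoid implies integrality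
  have h1 : ∀ b b' : BG0 cs, ReflTransGen (PStep (bgen0 cs) c) b b' →
      Intg (LL pos (b⁻¹ * b')) := by
    intro b b' hb
    induction hb with
    | refl =>
      rw [inv_mul_cancel, hrep.one]
      intro i j n _
      simp
    | tail _ hs ih =>
      obtain ⟨_, _, θ, hθ, rfl⟩ := hs
      rw [← mul_assoc]
      exact intg_mul hrep ih (intg_dg hpos hrep hcp hθ)
  have h2 : ∀ u v : W, ReflTransGen (fun x y => ∃ θ ∈ dg (bgen0 cs) c, lift x * θ = lift y) u v →
      ReflTransGen (PStep (bgen0 cs) c) (lift u) (lift v) := by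
    intro u v h
    induction h with
    | refl => exact ReflTransGen.refl
    | tail _ hs ih =>
      obtain ⟨θ, hθ, he⟩ := hs
      exact ih.tail ⟨lift_mem_pos hlf _, lift_mem_pos hlf _, θ, hθ, he.symm⟩
  have h3 : ∀ u v : W, ReflTransGen (PStep (bgen0 cs) c) (lift u) (lift v) ↔
      Intg (LL pos ((lift u)⁻¹ * lift v)) :=
    fun u v => ⟨h1 _ _, fun h => h2 u v (hchain u v h)⟩
  have h4 : (fun x y : W => ∃ θ ∈ dg (bgen0 cs) c, lift y = lift x * θ) =
      (fun x y : W => ∃ θ ∈ dg (bgen0 cs) c, lift x * θ = lift y) := by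
    funext x y
    simp only [eq_comm]
  refine ⟨⟨lat, fun u v => by rw [hlat, h3]⟩, fun u v => ?_⟩
  rw [h4]
  exact ⟨fun h => hchain u v ((h3 u v).mp h), h2 u v⟩

end H42.NU
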