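import Pool.Agent.H42.NU.Defs

/-!
# NCU A5: Newman's lemma

`newman`: terminating (`WellFounded (flip r)`: no infinite `a → b → ...`) and locally confluent implies confluent. Proof by
well-founded induction on `a`: let `a →* b`, `a →* c`. If one of them is `refl`: clear. Otherwise `a → b₁ →* b`,
`a → c₁ →* c`, local confluence gives `d` with `b₁ →* d`, `c₁ →* d`; the induction hypothesis for `b₁` (with `b₁ →* b`,
`b₁ →* d`) gives `e` with `b →* e`, `d →* e`; the induction hypothesis for `c₁` with `c₁ →* c`, `c₁ →* e` (through `d`) gives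
`f` with `c →* f`, `e →* f`. Then `b →* f`, `c →* f`.

`newman_conn`: if moreover any two elements are connected by `EqvGen r`, then any two elements `a`, `b` have a
common reduct (induction on `EqvGen`: for `trans` use confluence in the middle element), so if `x` is a normal form
(`∀ y, ¬ r x y`) then `a →* x` for all `a` (the common reduct of `a` and `x` is `x` as `x →* d` implies `d = x`,
`Relation.ReflTransGen.cases_head`).
-/

set_option autoImplicit false

namespace H42.NU

open Relation

universe u

theorem newman {α : Type u} (r : α → α → Prop) (wf : WellFounded (flip r))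
    (lc : ∀ a b c, r a b → r a c → ∃ d, ReflTransGen r b d ∧ ReflTransGen r c d) :
    ∀ a b c, ReflTransGen r a b → ReflTransGen r a c →
      ∃ d, ReflTransGen r b d ∧ ReflTransGen r c d := by
  intro a
  induction a using wf.induction with
  | _ a ih =>
    intro b c hab hac
    rcases ReflTransGen.cases_head hab with rfl | ⟨b₁, hb₁, hb⟩
    · exact ⟨c, hac, ReflTransGen.refl⟩
    rcases ReflTransGen.cases_head hac with rfl | ⟨c₁, hc₁, hc⟩
    · exact ⟨b, ReflTransGen.refl, hab⟩
    obtain ⟨d, hd1, hd2⟩ := lc a b₁ c₁ hb₁ hc₁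
    obtain ⟨e, he1, he2⟩ := ih b₁ hb₁ b d hb hd1
    obtain ⟨f, hf1, hf2⟩ := ih c₁ hc₁ c e hc (hd2.trans he2)
    exact ⟨f, he1.trans hf2, hf1⟩

theorem newman_conn {α : Type u} (r : α → α → Prop) (wf : WellFounded (flip r))
    (lc : ∀ a b c, r a b → r a c → ∃ d, ReflTransGen r b d ∧ ReflTransGen r c d)
    (conn : ∀ a b, EqvGen r a b) {x : α} (hx : ∀ y, ¬ r x y) (a : α) : ReflTransGen r a x := by
  have key : ∀ a b, EqvGen r a b → ∃ d, ReflTransGen r a d ∧ ReflTransGen r b d := by
    intro a b h
    induction h with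
    | rel a b h => exact ⟨b, ReflTransGen.single h, ReflTransGen.refl⟩
    | refl a => exact ⟨a, ReflTransGen.refl, ReflTransGen.refl⟩
    | symm a b _ ih =>
      obtain ⟨d, h1, h2⟩ := ih
      exact ⟨d, h2, h1⟩
    | trans a b c _ _ ih1 ih2 =>
      obtain ⟨d, h1, h2⟩ := ih1
      obtain ⟨e, h3, h4⟩ := ih2
      obtain ⟨f, h5, h6⟩ := newman r wf lc b d e h2 h3
      exact ⟨f, h1.trans h5, h4.trans h6⟩
  obtain ⟨d, h1, h2⟩ := key a x (conn a x)
  rcases ReflTransGen.cases_head h2 with h3 | ⟨y, hy, _⟩
  · rw [h3]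
    exact h1
  · exact absurd hy (hx y)

end H42.NU
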