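import Pool.Agent.H42.NU.Defs

/-!
# NCU A1: the order of `s s'` in a Coxeter group is exactly `M s s'`

`M_ne_zero`: if `M s s' = 0` then `s ≠ s'` (the diagonal entries are `1`), and
`Pool.Agent.H73.HVN.pow_ne_one_of_eq_zero` (imported, module `H73/HVN/Geom.lean`) says
`(s s')^n ≠ 1` for all `n ≠ 0`, but `W` is finite (`isOfFinOrder_of_finite`, `orderOf_pos`, `pow_orderOf_eq_one`).

`pow_ne_one`: let `m = M s s' ≥ 2` (`M.off_diagonal`: it is `≠ 1`), `θ = π / m`, `0 < j < m`. Use the geometric
representation. The module `H73/HVN/Geom.lean` contains everything needed, but as private lemmas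
(`geom_pow`, `geomR`, `geomR_mul`, `geomR_liftable`, `geomF_single`, ...): copy them into this file (rename; keep them
private), the file is `/workdir/pool/Pool/Agent/H73/HVN/Geom.lean` (also in origin/main). `geom_pow` gives, for
`P = R_s R_{s'}` on `S →₀ ℝ`, real numbers `x, y` with `x sin θ = sin (j θ)`, `y sin θ = sin ((j+1) θ)` and
`P^j v = v + (-2 x (f v x + g v y)) • a + (-2 x (f v (2 c x - y) + g v x)) • b`, `a = single s 1`, `b = single s' 1`,
`f a = 1`, `g b = 1`, `f b = g a = -c`, `c = cos θ`.
If `(s s')^j = 1` then `P^j = 1` (apply `cs.lift ⟨geomR M, _⟩`), so with `v = b` (`f v = -c`, `g v = 1`)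
the coefficient of `a`: `x (y - c x) = 0`, and with `v = a` (`f v = 1`, `g v = -c`): `x (x - c y) = 0`. Now `x ≠ 0` unless
`sin (j θ) = 0`, but `0 < j θ < π` (as `0 < j < m`), so `sin (j θ) > 0` and `x > 0`. Hence `y = c x`, `x = c y = c² x`,
`c² = 1`, contradiction to `0 < sin θ` (`0 < θ < π`, `m ≥ 2`), `sin² + cos² = 1`.
-/

set_option autoImplicit false

namespace H42.NU

universe u v

section ordgeom

variable {B : Type v} {M : CoxeterMatrix B}

/-! ### the product of two reflections -/

private theorem ord_geom_pow {V : Type v} [AddCommGroup V] [Module ℝ V] (f g : V →ₗ[ℝ] ℝ) (a b : V)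
    (c : ℝ) (θ : ℝ) (hθ : c = Real.cos θ) (hfa : f a = 1) (hgb : g b = 1) (hfb : f b = -c)
    (hga : g a = -c) (P : V →ₗ[ℝ] V)
    (hP : ∀ v, P v = v - (2 * g v) • b - (2 * f v + 4 * c * g v) • a) (n : ℕ) :
    ∃ s t : ℝ, s * Real.sin θ = Real.sin (n * θ) ∧ t * Real.sin θ = Real.sin ((n + 1) * θ) ∧
      t ^ 2 - 2 * c * s * t + s ^ 2 = 1 ∧
      ∀ v, (P ^ n) v = v + (-2 * s * (f v * s + g v * t)) • a +
        (-2 * s * (f v * (2 * c * s - t) + g v * s)) • b := by
  induction n with
  | zero =>
    refine ⟨0, 1, by simp, by simp, by ring, fun v => ?_⟩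
    simp
  | succ n ih =>
    obtain ⟨s, t, hs, ht, hst, hv⟩ := ih
    refine ⟨t, 2 * c * t - s, ?_, ?_, by linear_combination hst, fun v => ?_⟩
    · rw [ht]
      push_cast
      ring_nf
    · have h1 : Real.sin ((n + 1 + 1) * θ) =
          2 * Real.cos θ * Real.sin ((n + 1) * θ) - Real.sin (n * θ) := by
        have e1 : ((n : ℝ) + 1 + 1) * θ = (n + 1) * θ + θ := by ring
        have e2 : (n : ℝ) * θ = (n + 1) * θ - θ := by ring
        rw [e1, e2, Real.sin_add, Real.sin_sub]
        ring
      push_cast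
      rw [h1, ← ht, ← hs, hθ]
      ring
    · have hf : f ((P ^ n) v) = f v + (-2 * s * (f v * s + g v * t)) -
          c * (-2 * s * (f v * (2 * c * s - t) + g v * s)) := by
        rw [hv v, map_add, map_add, map_smul, map_smul, hfa, hfb]
        simp only [smul_eq_mul]
        ring
      have hg : g ((P ^ n) v) = g v - c * (-2 * s * (f v * s + g v * t)) +
          (-2 * s * (f v * (2 * c * s - t) + g v * s)) := by
        rw [hv v, map_add, map_add, map_smul, map_smul, hga, hgb]
        simp only [smul_eq_mul]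
        ring
      rw [pow_succ', Module.End.mul_apply, hP ((P ^ n) v), hf, hg, hv v]
      generalize f v = x
      generalize g v = y
      have e1 : (-2 * t * (x * t + y * (2 * c * t - s))) =
          (-2 * s * (x * s + y * t)) -
          (2 * (x + -2 * s * (x * s + y * t) - c * (-2 * s * (x * (2 * c * s - t) + y * s))) +
            4 * c * (y - c * (-2 * s * (x * s + y * t)) +
              -2 * s * (x * (2 * c * s - t) + y * s))) := by
        linear_combination (-(2 * x + 4 * c * y)) * hst
      have e2 : (-2 * t * (x * (2 * c * t - (2 * c * t - s)) + y * t)) =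
          (-2 * s * (x * (2 * c * s - t) + y * s)) -
          2 * (y - c * (-2 * s * (x * s + y * t)) +
              -2 * s * (x * (2 * c * s - t) + y * s)) := by
        linear_combination (-(2 * y)) * hst
      rw [e1, e2]
      module

private theorem ord_geom_pow_eq_one {V : Type v} [AddCommGroup V] [Module ℝ V] (f g : V →ₗ[ℝ] ℝ)
    (a b : V) (m : ℕ) (hm : 2 ≤ m) (hfa : f a = 1) (hgb : g b = 1)
    (hfb : f b = -Real.cos (Real.pi / m)) (hga : g a = -Real.cos (Real.pi / m)) (P : V →ₗ[ℝ] V)
    (hP : ∀ v, P v = v - (2 * g v) • b - (2 * f v + 4 * Real.cos (Real.pi / m) * g v) • a) :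
    P ^ m = 1 := by
  obtain ⟨s, t, hs, -, -, hv⟩ := ord_geom_pow f g a b _ (Real.pi / m) rfl hfa hgb hfb hga P hP m
  have hm0 : (0 : ℝ) < m := by exact_mod_cast (by omega : 0 < m)
  have h1 : (m : ℝ) * (Real.pi / m) = Real.pi := by field_simp
  rw [h1, Real.sin_pi] at hs
  have h2 : 0 < Real.sin (Real.pi / m) := by
    apply Real.sin_pos_of_pos_of_lt_pi
    · exact div_pos Real.pi_pos hm0
    · rw [div_lt_iff₀ hm0]
      have h3 : (2 : ℝ) ≤ m := by exact_mod_cast hm
      nlinarith [Real.pi_pos]
  have h3 : s = 0 := by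
    rcases mul_eq_zero.1 hs with h | h
    · exact h
    · exact absurd h h2.ne'
  ext v
  rw [hv v, h3]
  simp

/-! ### the geometric representation -/

/-- the bilinear form on the simple roots -/
private noncomputable def ord_geomK (M : CoxeterMatrix B) (i j : B) : ℝ :=
  if M i j = 0 then -1 else -Real.cos (Real.pi / M i j)

private theorem ord_geomK_symm (i j : B) : ord_geomK M i j = ord_geomK M j i := by
  unfold ord_geomK
  rw [M.symmetric i j]

private theorem ord_geomK_self (i : B) : ord_geomK M i i = 1 := by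
  unfold ord_geomK
  rw [M.diagonal i]
  simp

/-- the form with the simple root number `i` -/
private noncomputable def ord_geomF (M : CoxeterMatrix B) (i : B) : (B →₀ ℝ) →ₗ[ℝ] ℝ :=
  Finsupp.linearCombination ℝ (fun j => ord_geomK M i j)

private theorem ord_geomF_single (i j : B) : ord_geomF M i (Finsupp.single j 1) = ord_geomK M i j := by
  unfold ord_geomF
  rw [Finsupp.linearCombination_single, one_smul]

/-- the reflection number `i` -/
private noncomputable def ord_geomR (M : CoxeterMatrix B) (i : B) : Module.End ℝ (B →₀ ℝ) :=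
  LinearMap.id - (2 : ℝ) • (ord_geomF M i).smulRight (Finsupp.single i 1)

private theorem ord_geomR_apply (i : B) (v : B →₀ ℝ) :
    ord_geomR M i v = v - (2 * ord_geomF M i v) • Finsupp.single i (1 : ℝ) := by
  unfold ord_geomR
  rw [LinearMap.sub_apply, LinearMap.smul_apply, LinearMap.smulRight_apply, LinearMap.id_apply,
    smul_smul]

private theorem ord_geomR_mul (i j : B) (v : B →₀ ℝ) :
    (ord_geomR M i * ord_geomR M j) v = v - (2 * ord_geomF M j v) • Finsupp.single j (1 : ℝ) -
      (2 * ord_geomF M i v + 4 * (-ord_geomK M i j) * ord_geomF M j v) • Finsupp.single i (1 : ℝ) := by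
  rw [Module.End.mul_apply, ord_geomR_apply, ord_geomR_apply, map_sub, map_smul, ord_geomF_single]
  congr 2
  simp only [smul_eq_mul]
  ring

private theorem ord_geomR_liftable : M.IsLiftable (ord_geomR M) := by
  intro i j
  rcases Nat.eq_zero_or_pos (M i j) with h0 | h0
  · rw [h0, pow_zero]
  by_cases hij : i = j
  · subst hij
    rw [M.diagonal i, pow_one]
    refine LinearMap.ext fun v => ?_
    rw [ord_geomR_mul, ord_geomK_self, Module.End.one_apply]
    module
  · have h1 : M i j ≠ 1 := M.off_diagonal i j hij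
    have hk : ord_geomK M i j = -Real.cos (Real.pi / M i j) := by
      unfold ord_geomK
      rw [if_neg h0.ne']
    refine ord_geom_pow_eq_one (ord_geomF M i) (ord_geomF M j) (Finsupp.single i 1) (Finsupp.single j 1)
      (M i j) (by omega) ?_ ?_ ?_ ?_ _ fun v => ?_
    · rw [ord_geomF_single, ord_geomK_self]
    · rw [ord_geomF_single, ord_geomK_self]
    · rw [ord_geomF_single, hk]
    · rw [ord_geomF_single, ord_geomK_symm, hk]
    · rw [ord_geomR_mul, hk, neg_neg]

end ordgeom


variable {S : Type u} {W : Type v} [Group W] {M : CoxeterMatrix S} (cs : CoxeterSystem M W)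

include cs

theorem M_ne_zero [Finite W] (s s' : S) : M s s' ≠ 0 := by
  intro h
  exact Pool.Agent.H73.HVN.pow_ne_one_of_eq_zero cs h
    (orderOf_pos (cs.simple s * cs.simple s')).ne' (pow_orderOf_eq_one _)

theorem pow_ne_one {s s' : S} (h : s ≠ s') (hM : M s s' ≠ 0) {j : ℕ} (hj : 0 < j)
    (hj' : j < M s s') : (cs.simple s * cs.simple s') ^ j ≠ 1 := by
  intro h1
  have hm2 : 2 ≤ M s s' := by
    have h2 := M.off_diagonal s s' h
    omega
  have hm0 : (0 : ℝ) < (M s s' : ℝ) := by exact_mod_cast (by omega : 0 < M s s')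
  have hm2' : (2 : ℝ) ≤ (M s s' : ℝ) := by exact_mod_cast hm2
  have hk : ord_geomK M s s' = -Real.cos (Real.pi / M s s') := by
    unfold ord_geomK
    rw [if_neg hM]
  have hk' : ord_geomK M s' s = -Real.cos (Real.pi / M s s') := by
    rw [ord_geomK_symm, hk]
  have h2 := congrArg (cs.lift ⟨ord_geomR M, ord_geomR_liftable⟩) h1
  rw [map_pow, map_mul, map_one, cs.lift_apply_simple, cs.lift_apply_simple] at h2
  obtain ⟨x, y, hx, -, -, hv⟩ := ord_geom_pow (ord_geomF M s) (ord_geomF M s')
    (Finsupp.single s 1) (Finsupp.single s' 1) (Real.cos (Real.pi / M s s')) (Real.pi / M s s') rfl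
    (by rw [ord_geomF_single, ord_geomK_self]) (by rw [ord_geomF_single, ord_geomK_self])
    (by rw [ord_geomF_single, hk]) (by rw [ord_geomF_single, hk'])
    (ord_geomR M s * ord_geomR M s') (fun v => by rw [ord_geomR_mul, hk, neg_neg]) j
  have hcoef : ∀ v, -2 * x * (ord_geomF M s v * x + ord_geomF M s' v * y) = 0 := by
    intro v
    have h3 := hv v
    rw [h2, Module.End.one_apply] at h3
    have h4 := congrArg (fun w : S →₀ ℝ => w s) h3
    simp only [Finsupp.add_apply, Finsupp.smul_apply, Finsupp.single_eq_same, smul_eq_mul] at h4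
    rw [Finsupp.single_eq_of_ne h] at h4
    linarith
  have hj0 : (0 : ℝ) < (j : ℝ) := by exact_mod_cast hj
  have hjm : (j : ℝ) < (M s s' : ℝ) := by exact_mod_cast hj'
  have hsin : 0 < Real.sin (Real.pi / M s s') := by
    apply Real.sin_pos_of_pos_of_lt_pi
    · exact div_pos Real.pi_pos hm0
    · rw [div_lt_iff₀ hm0]
      nlinarith [Real.pi_pos]
  have hsinj : 0 < Real.sin (j * (Real.pi / M s s')) := by
    apply Real.sin_pos_of_pos_of_lt_pi
    · exact mul_pos hj0 (div_pos Real.pi_pos hm0)
    · rw [mul_div_assoc', div_lt_iff₀ hm0]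
      nlinarith [Real.pi_pos]
  have hx0 : x ≠ 0 := by
    rintro rfl
    rw [zero_mul] at hx
    exact hsinj.ne hx
  have e1 := hcoef (Finsupp.single s' 1)
  have e2 := hcoef (Finsupp.single s 1)
  rw [ord_geomF_single, ord_geomF_single, hk, ord_geomK_self] at e1
  rw [ord_geomF_single, ord_geomF_single, hk', ord_geomK_self] at e2
  have hc := Real.sin_sq_add_cos_sq (Real.pi / M s s')
  generalize Real.cos (Real.pi / M s s') = c at e1 e2 hc
  have f1 : y = c * x := by
    have h3 : -2 * x ≠ 0 := mul_ne_zero (by norm_num) hx0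
    have h4 := (mul_eq_zero.mp e1).resolve_left h3
    linarith
  have f2 : x = c * y := by
    have h3 : -2 * x ≠ 0 := mul_ne_zero (by norm_num) hx0
    have h4 := (mul_eq_zero.mp e2).resolve_left h3
    linarith
  have f3 : x * (1 - c ^ 2) = 0 := by
    rw [f1] at f2
    linear_combination f2
  have f4 := (mul_eq_zero.mp f3).resolve_left hx0
  have f5 : 0 < Real.sin (Real.pi / M s s') ^ 2 := by positivity
  linarith

end H42.NU
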