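import Pool.Agent.H42.NU.CovA
import Pool.Agent.H42.NU.Low
import Pool.Agent.H42.NU.Pole
import Pool.Agent.H42.NU.Mats

/-!
# NCU F3: covers do not destroy an initial ascent

`s :: lK` is increasing for `pos` (`s ∉ lK`, `pos s < pos j` for `j ∈ lK`), `q ∈ W`, `s` not a right descent of `q`,
`θ ∈ dg σ (s :: lK)`, `lift q * θ = lift y`, `θ ≠ σ s`. Claim: `s` is not a right descent of `y`.

Suppose it is; `y' = y s`, `lift y = lift y' * σ s` (`lift_descent`). By `cov_exists` there is `β ≥ 0` with `L θ = β βᵀ`,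
`E(β, β) = 1`, support in `s :: lK`. Let `g = (lift q)⁻¹ * lift y' = θ (σ s)⁻¹`. `L (σ s)⁻¹ = T(-1) E_ss` (`gen_inv`).
`L g = L θ + L (σ s)⁻¹ - L θ F L (σ s)⁻¹`; column `s`:
 `λ_j := L g j s = β j β s + T(-1) ([j = s] - ∑_p β j β p F p s)`
with `F s s = 1 + t`, `F p s = -(k_{ps} t)` for `p ∈ lK` (`pos s < pos p`), `β p = 0` for other `p`:
 `λ_j = T(-1) ([j = s] - β j β s) + ∑_{p ∈ lK} k_{ps} β p β j` (a constant). (`T(-1) * (1 + T 1) = T(-1) + 1`.)
So `λ_j` has only the coefficients number `-1` and `0`, `(λ_j)_{-1} = [j = s] - β j β s`. By `rp` (for `q`, `y'`) and `low_nonneg`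
(`N = -1`): `[j = s] - β j β s ≥ 0`. For `j ≠ s`: `β j β s ≤ 0`, so `β j β s = 0`. For `j = s`: `μ := (β s)² ≤ 1`.
Next, `lift (q s) = lift q * σ s` and `(lift (q s))⁻¹ * lift y' = (σ s)⁻¹ g`,
`L ((σ s)⁻¹ g) = L g + L (σ s)⁻¹ (1 - F L g)` (`mul_left'`, `mul_right'`), entry `(s, s)`:
 `λ_s + T(-1) (1 - ∑_j F s j λ_j)`, `F s s = 1 + t`, `F s j = -k_{sj}` for `j ∈ lK`, and `λ_j = 0` for `j ∉ s :: lK`
 (`supp_row`, or `β j = 0`). `= T(-1) (1 - λ_s) + T(-1) ∑_{j ∈ lK} k_{sj} λ_j`. For `j ∈ lK` `λ_j` is a constant (`β j β s = 0`), and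
 `(λ_s)_{-1} = 1 - μ`. So the lowest coefficient is at `-2`: `-(1 - μ)`. By `rp` (for `q s`, `y'`) and `low_nonneg` (`N = -2`):
 `1 - μ ≤ 0`. So `μ = 1`, `β s = 1` (`β s ≥ 0`), `β j = 0` for `j ≠ s`, `L θ = single s s 1`.
Then `L (lift y) = L (lift q * θ) = L (lift q * σ s) = L (lift (q s))`, `y = q s` by `faithful`, and
`lift q * θ = lift (q s) = lift q * σ s` gives `θ = σ s`: contradiction.
-/

set_option autoImplicit false

namespace H42.NU

open LaurentPolynomial Pool.Agent.H73.HVN

universe u v w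

variable {S : Type u} [Fintype S] [DecidableEq S] {W : Type v} [Group W] [Finite W]
  {M : CoxeterMatrix S} {cs : CoxeterSystem M W} {G : Type w} [Group G] {σ : S → G}
  {lift : W → G} {pos : S → ℕ} {L : G → Matrix S S Lau}

private theorem RI_TT : (T 1 : Lau) * T (-1) = 1 := by
  rw [← T_add]; simp

private theorem RI_cC (a : ℝ) (n : ℤ) : (C a : Lau).coeff n = if n = 0 then a else 0 := by
  rw [← LaurentPolynomial.single_eq_C, AddMonoidAlgebra.coeff_single, Finsupp.single_apply]
  simp [eq_comm]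

private theorem RI_co (c d : ℝ) (n : ℤ) : (T (-1) * C c + C d : Lau).coeff n =
    (if n = -1 then c else 0) + (if n = 0 then d else 0) := by
  have h1 : (T (-1) * C c + C d : Lau).coeff n = (T (-1) * C c : Lau).coeff n +
      (C d : Lau).coeff n := by simp
  rw [h1, coeff_T_mul, RI_cC, RI_cC]
  congr 1
  by_cases hn : n = -1
  · rw [if_pos hn, if_pos (by omega)]
  · rw [if_neg hn, if_neg (by omega)]

private theorem RI_single (hpos : Function.Injective pos)
    (h : IsRep (Fm M pos (T 1 : Lau)) σ L) (hlf : IsLift cs σ lift) {s : S} {q y : W}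
    (hq : ¬ cs.IsRightDescent q s) {θ : G} (he : lift q * θ = lift y)
    (hθ : L θ = Matrix.single s s 1) : θ = σ s := by
  have h1 := hlf.step q s hq
  have h2 : L (lift y) = L (lift (q * cs.simple s)) := by
    rw [← he, h1, h.mul, h.mul, hθ, h.gen]
  have h3 := faithful hpos h hlf h2
  rw [h3, h1] at he
  exact mul_left_cancel he

theorem ri (hpos : Function.Injective pos) (h : IsRep (Fm M pos (T 1 : Lau)) σ L)
    (hlf : IsLift cs σ lift) {lK : List S} {s : S}
    (hl : (s :: lK).Pairwise (fun i j => pos i < pos j)) {q y : W}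
    (hq : ¬ cs.IsRightDescent q s) {θ : G} (hθ : θ ∈ dg σ (s :: lK)) (he : lift q * θ = lift y)
    (hne : θ ≠ σ s) : ¬ cs.IsRightDescent y s := by
  intro hd
  obtain ⟨β, hβc, hβ1, -, hβs⟩ := cov_exists hpos h hlf hl hθ he
  have hβ0 : ∀ j, 0 ≤ β j := hβc.1
  have hlt : ∀ j ∈ lK, pos s < pos j := (List.pairwise_cons.1 hl).1
  have hFss : Fm M pos (T 1 : Lau) s s = 1 + T 1 := by simp [Fm]
  have hmem : ∀ p, p ≠ s → β p ≠ 0 → pos s < pos p := by
    intro p hp h0
    by_contra hc
    apply h0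
    apply hβs
    intro hm
    rcases List.mem_cons.1 hm with hm | hm
    · exact hp hm
    · exact hc (hlt p hm)
  have hFc : ∀ p, p ≠ s → β p ≠ 0 → Fm M pos (T 1 : Lau) p s = -(C (kk M p s) * T 1) := by
    intro p hp h0
    have h1 := hmem p hp h0
    have h2 : algebraMap ℝ Lau (kk M p s) = C (kk M p s) := rfl
    simp [Fm, hp, h1, h2]
  have hFr : ∀ j, j ≠ s → β j ≠ 0 → Fm M pos (T 1 : Lau) s j = -C (kk M s j) := by
    intro p hp h0
    have h1 := hmem p hp h0
    have h2 : algebraMap ℝ Lau (kk M s p) = C (kk M s p) := rfl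
    simp [Fm, hp.symm, h1.le, h2]
  have hinv : L (σ s)⁻¹ = Matrix.single s s (T (-1)) := gen_inv h hFss RI_TT
  have hly := lift_descent hlf hd
  set y' := y * cs.simple s with hy'
  have hg : (lift q)⁻¹ * lift y' = θ * (σ s)⁻¹ := by
    rw [hly] at he
    rw [inv_mul_eq_iff_eq_mul, ← mul_assoc, he, mul_assoc, mul_inv_cancel, mul_one]
  -- the column s of L g
  obtain ⟨a, ha⟩ : ∃ a : ℝ, a = ∑ p ∈ Finset.univ.erase s, β p * kk M p s := ⟨_, rfl⟩
  have hlam : ∀ j, L ((lift q)⁻¹ * lift y') j s =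
      T (-1) * C ((if j = s then 1 else 0) - β j * β s) + C (β j * a) := by
    intro j
    have e0 : ∑ p ∈ Finset.univ.erase s, L θ j p * Fm M pos (T 1 : Lau) p s =
        -(C (β j * a) * T 1) := by
      have e : (C (β j * a) : Lau) = ∑ p ∈ Finset.univ.erase s, C (β j * (β p * kk M p s)) := by
        rw [← map_sum, ← Finset.mul_sum, ha]
      rw [e, Finset.sum_mul, ← Finset.sum_neg_distrib]
      refine Finset.sum_congr rfl fun p hp => ?_
      have hps : p ≠ s := Finset.ne_of_mem_erase hp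
      rw [hβ1 j p]
      by_cases h0 : β p = 0
      · rw [h0]; simp
      · rw [hFc p hps h0, mul_neg, ← mul_assoc, ← map_mul, mul_assoc]
    have e1 : (L θ * Fm M pos (T 1 : Lau)) j s =
        C (β j * β s) * (1 + T 1) - C (β j * a) * T 1 := by
      rw [Matrix.mul_apply, ← Finset.add_sum_erase _ _ (Finset.mem_univ s), e0, hFss, hβ1 j s]
      ring
    rw [hg, h.mul, hinv, Matrix.sub_apply, Matrix.add_apply, Matrix.mul_single_apply_same, e1,
      hβ1 j s, Matrix.single_apply]
    by_cases hj : j = s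
    · subst hj
      simp only [and_self, if_true, map_sub, map_one]
      linear_combination (-C (β j * β j) + C (β j * a)) * RI_TT
    · rw [if_neg (fun hc => hj hc.1.symm), if_neg hj, map_sub, map_zero]
      linear_combination (-C (β j * β s) + C (β j * a)) * RI_TT
  have hnn : ∀ j, 0 ≤ (if j = s then (1 : ℝ) else 0) - β j * β s := by
    intro j
    have h1 := low_nonneg (L ((lift q)⁻¹ * lift y') j s)
      (fun t ht => rp hpos h hlf q y' j s t ht) (-1) (by
        intro n hn
        rw [hlam j, RI_co, if_neg (by omega), if_neg (by omega), add_zero])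
    rw [hlam j, RI_co] at h1
    simpa using h1
  have hz : ∀ j, j ≠ s → β j * β s = 0 := by
    intro j hj
    have h1 := hnn j
    rw [if_neg hj] at h1
    have h2 := mul_nonneg (hβ0 j) (hβ0 s)
    linarith
  -- the second point
  have hstep := hlf.step q s hq
  have hg2 : (lift (q * cs.simple s))⁻¹ * lift y' = (σ s)⁻¹ * ((lift q)⁻¹ * lift y') := by
    rw [hstep, mul_inv_rev, mul_assoc]
  obtain ⟨b, hb⟩ : ∃ b : ℝ, b = ∑ j ∈ Finset.univ.erase s, kk M s j * β j := ⟨_, rfl⟩
  have hent : L ((lift (q * cs.simple s))⁻¹ * lift y') s s =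
      T (-1) * (T (-1) * C (-(1 - β s * β s)) + C (1 + a * b - β s * a)) := by
    have e0 : ∑ j ∈ Finset.univ.erase s, Fm M pos (T 1 : Lau) s j *
        L ((lift q)⁻¹ * lift y') j s = -C (a * b) := by
      have e : (C (a * b) : Lau) = ∑ j ∈ Finset.univ.erase s, C (a * (kk M s j * β j)) := by
        rw [← map_sum, ← Finset.mul_sum, hb]
      rw [e, ← Finset.sum_neg_distrib]
      refine Finset.sum_congr rfl fun j hj => ?_
      have hjs : j ≠ s := Finset.ne_of_mem_erase hj
      rw [hlam j, if_neg hjs, hz j hjs, sub_zero, map_zero, mul_zero, zero_add]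
      by_cases h0 : β j = 0
      · rw [h0]; simp
      · rw [hFr j hjs h0, neg_mul, ← map_mul]
        congr 2
        ring
    have e1 : (Fm M pos (T 1 : Lau) * L ((lift q)⁻¹ * lift y')) s s =
        (1 + T 1) * L ((lift q)⁻¹ * lift y') s s - C (a * b) := by
      rw [Matrix.mul_apply, ← Finset.add_sum_erase _ _ (Finset.mem_univ s), e0, hFss]
      ring
    rw [hg2, mul_left' h, hinv, Matrix.add_apply, Matrix.sub_mul, Matrix.one_mul,
      Matrix.sub_apply, Matrix.mul_assoc, Matrix.single_mul_apply_same, e1, hlam s,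
      Matrix.single_apply]
    simp only [and_self, if_true, map_sub, map_add, map_neg, map_one, map_mul]
    linear_combination (-(T (-1) * (1 - C (β s) * C (β s)) + C (β s) * C a)) * RI_TT
  have hone := low_nonneg (L ((lift (q * cs.simple s))⁻¹ * lift y') s s)
    (fun t ht => rp hpos h hlf (q * cs.simple s) y' s s t ht) (-2) (by
      intro n hn
      rw [hent, coeff_T_mul, RI_co, if_neg (by omega), if_neg (by omega), add_zero])
  rw [hent, coeff_T_mul, RI_co, if_pos (by norm_num), if_neg (by norm_num)] at hone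
  have hs1 := hnn s
  rw [if_pos rfl] at hs1
  have hmu : β s * β s = 1 := by linarith
  have hβs1 : β s = 1 := by
    have h0 := hβ0 s
    nlinarith
  have hβj : ∀ j, j ≠ s → β j = 0 := by
    intro j hj
    have := hz j hj
    rwa [hβs1, mul_one] at this
  apply hne
  refine RI_single hpos h hlf hq he ?_
  ext1 i j
  rw [hβ1 i j, Matrix.single_apply]
  by_cases hi : i = s
  · by_cases hj : j = s
    · rw [if_pos ⟨hi.symm, hj.symm⟩, hi, hj, hβs1, mul_one, map_one]
    · rw [if_neg (fun hc => hj hc.2.symm), hβj j hj, mul_zero, map_zero]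
  · rw [if_neg (fun hc => hi hc.1.symm), hβj i hi, zero_mul, map_zero]

/-- a cover with the vector `e_s` is the simple generator -/
theorem eq_gen_of_single (hpos : Function.Injective pos) (h : IsRep (Fm M pos (T 1 : Lau)) σ L)
    (hlf : IsLift cs σ lift) {s : S} {q y : W} (hq : ¬ cs.IsRightDescent q s) {θ : G}
    (he : lift q * θ = lift y) (hθ : Rank1 (L θ) (Pi.single s 1)) : θ = σ s := by
  refine RI_single hpos h hlf hq he ?_
  ext1 i j
  rw [hθ i j, Matrix.single_apply]
  by_cases hi : i = s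
  · by_cases hj : j = s
    · rw [if_pos ⟨hi.symm, hj.symm⟩, hi, hj]
      simp
    · rw [if_neg (fun hc => hj hc.2.symm), Pi.single_eq_of_ne hj, mul_zero, map_zero]
  · rw [if_neg (fun hc => hi hc.1.symm), Pi.single_eq_of_ne hi, zero_mul, map_zero]

end H42.NU
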