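import Pool.Agent.H42.NU.Sink
import Pool.Agent.H42.NU.Gener

/-!
# NCU C5: real positivity and faithfulness

Real version first. `t > 0`, `F = Fm M pos t`, `IsRep F σ L`, `IsLift cs σ lift`. Fix `x ∈ W`, put `B = 1 - L (lift x)⁻¹ * F`.
For `ζ : S → ℝ` put `ξ = ζᵀ B`, i.e. `ξ j = ∑ i, ζ i * B i j`. By `am_mul`:
`∑ j, ξ j * (1 - L (lift v) F) j s = ∑ i, ζ i * (1 - L ((lift x)⁻¹ * lift v) * F) i s = ∑ i, ζ i * z_{v,s} i`, where
`z_{v,s} i = (1 - L ((lift x)⁻¹ * lift v) * F) i s` is a column of an invertible matrix (`am_inv'`), so `z_{v,s} ≠ 0`.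
For `v = x` it is `ζ s` (`L 1 = 0`). So for `ζ` with positive coordinates and `∑ ζ_i z_{v,s} i ≠ 0` for all `v, s`
(finitely many vectors, `Set.finite_range` on `W × S`), the hypotheses of `sink_min` hold for `ξ` and `x`:
`∑ j, ξ j L (lift x) j p ≤ ∑ j, ξ j L (lift v) j p`. By `mul_left'`
`L ((lift x)⁻¹ * lift v) = L (lift x)⁻¹ + B * L (lift v)` and `0 = L 1 = L (lift x)⁻¹ + B * L (lift x)`, so
`∑ i, ζ i L ((lift x)⁻¹ * lift v) i p = ∑ j, ξ j L (lift v) j p - ∑ j, ξ j L (lift x) j p ≥ 0`. By `generic` (module Gener) every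
entry `L ((lift x)⁻¹ * lift v) j p` is `≥ 0`: `rp_real`.
Faithfulness: if `L (lift x) = L (lift y)`, take `ζ` from `generic_exists`, `ξ` as above. Then
`∑ j, ξ j (1 - L (lift y) F) j s = ∑ j, ξ j (1 - L (lift x) F) j s = ζ s > 0`, so `y = x` by `sink_unique`: `faithful_real`.
Laurent version: for `t : ℝˣ` with `0 < t` apply the real version to `fun g => (L g).map (ev t)`
(`map_rep`, `Fm_ev`): `rp`. For `faithful` apply it with `t = 1`.
-/

set_option autoImplicit false

namespace H42.NU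

open LaurentPolynomial

universe u v w

variable {S : Type u} [Fintype S] [DecidableEq S] {W : Type v} [Group W] [Finite W]
  {M : CoxeterMatrix S} {cs : CoxeterSystem M W} {G : Type w} [Group G] {σ : S → G}
  {lift : W → G} {pos : S → ℕ}

/-- the family of vectors `z_{v,s}` -/
private noncomputable def zz (M : CoxeterMatrix S) (pos : S → ℕ) (t : ℝ) (L : G → Matrix S S ℝ)
    (lift : W → G) (x : W) (q : W × S) : S → ℝ :=
  fun i => (1 - L ((lift x)⁻¹ * lift q.1) * Fm M pos t) i q.2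

/-- the vector `ξ` -/
private noncomputable def xi (M : CoxeterMatrix S) (pos : S → ℕ) (t : ℝ) (L : G → Matrix S S ℝ)
    (lift : W → G) (x : W) (ζ : S → ℝ) : S → ℝ :=
  fun j => ∑ i, ζ i * (1 - L (lift x)⁻¹ * Fm M pos t) i j

omit [Group W] [Finite W] in
private theorem zz_ne {t : ℝ} {L : G → Matrix S S ℝ} (h : IsRep (Fm M pos t) σ L) (x : W)
    (q : W × S) : zz M pos t L lift x q ≠ 0 := by
  intro h0
  have h1 := am_inv' h ((lift x)⁻¹ * lift q.1)
  have h2 := congrFun (congrFun h1 q.2) q.2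
  rw [Matrix.mul_apply, Matrix.one_apply_eq] at h2
  have h3 : ∀ i, (1 - L ((lift x)⁻¹ * lift q.1) * Fm M pos t) i q.2 = 0 := fun i =>
    congrFun h0 i
  simp only [h3, mul_zero, Finset.sum_const_zero] at h2
  exact zero_ne_one h2

omit [Group W] [Finite W] in
private theorem xi_mul (M : CoxeterMatrix S) (pos : S → ℕ) (t : ℝ) (L : G → Matrix S S ℝ)
    (lift : W → G) (x : W) (ζ : S → ℝ) (X : Matrix S S ℝ) (s : S) :
    ∑ j, xi M pos t L lift x ζ j * X j s =
      ∑ i, ζ i * ((1 - L (lift x)⁻¹ * Fm M pos t) * X) i s := by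
  simp only [xi, Matrix.mul_apply, Finset.sum_mul, Finset.mul_sum]
  rw [Finset.sum_comm]
  refine Finset.sum_congr rfl fun i _ => Finset.sum_congr rfl fun j _ => ?_
  ring

omit [Finite W] in
private theorem xi_am {t : ℝ} {L : G → Matrix S S ℝ} (h : IsRep (Fm M pos t) σ L) (x v : W)
    (ζ : S → ℝ) (s : S) :
    ∑ j, xi M pos t L lift x ζ j * (1 - L (lift v) * Fm M pos t) j s =
      ∑ i, ζ i * zz M pos t L lift x (v, s) i := by
  rw [xi_mul, ← am_mul h]
  rfl

omit [Finite W] in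
private theorem xi_self {t : ℝ} {L : G → Matrix S S ℝ} (h : IsRep (Fm M pos t) σ L) (x : W)
    (ζ : S → ℝ) (s : S) :
    ∑ j, xi M pos t L lift x ζ j * (1 - L (lift x) * Fm M pos t) j s = ζ s := by
  rw [xi_mul, am_inv' h]
  simp [Matrix.one_apply]

omit [Group W] in
private theorem zfin (M : CoxeterMatrix S) (pos : S → ℕ) (t : ℝ) (L : G → Matrix S S ℝ)
    (lift : W → G) (x : W) : (Set.range (zz M pos t L lift x)).Finite :=
  Set.finite_range _

theorem rp_real {t : ℝ} {L : G → Matrix S S ℝ} (ht : 0 < t) (hpos : Function.Injective pos)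
    (h : IsRep (Fm M pos t) σ L) (hl : IsLift cs σ lift) (x v : W) (j p : S) :
    0 ≤ L ((lift x)⁻¹ * lift v) j p := by
  refine generic (zfin M pos t L lift x) ?_ (fun i => L ((lift x)⁻¹ * lift v) i p) ?_ j
  · rintro _ ⟨q, rfl⟩
    exact zz_ne h x q
  · intro ζ hζ hz
    have h1 := sink_min ht hpos h hl (xi M pos t L lift x ζ)
      (fun v s => by
        rw [xi_am h]
        exact hz _ ⟨(v, s), rfl⟩) x
      (fun s => by
        rw [xi_self h]
        exact hζ s) v p
    rw [xi_mul, xi_mul] at h1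
    have h2 : ∀ y : W, (1 - L (lift x)⁻¹ * Fm M pos t) * L (lift y) =
        L ((lift x)⁻¹ * lift y) - L (lift x)⁻¹ := by
      intro y
      rw [mul_left' h (lift x)⁻¹ (lift y)]
      abel
    rw [h2, h2, inv_mul_cancel, h.one] at h1
    have h3 : ∑ i, ζ i * L ((lift x)⁻¹ * lift v) i p =
        ∑ i, ζ i * (L ((lift x)⁻¹ * lift v) - L (lift x)⁻¹) i p -
          ∑ i, ζ i * ((0 : Matrix S S ℝ) - L (lift x)⁻¹) i p := by
      rw [← Finset.sum_sub_distrib]
      refine Finset.sum_congr rfl fun i _ => ?_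
      simp only [Matrix.sub_apply, Matrix.zero_apply]
      ring
    show 0 ≤ ∑ i, ζ i * L ((lift x)⁻¹ * lift v) i p
    rw [h3]
    exact sub_nonneg.mpr h1

theorem faithful_real {t : ℝ} {L : G → Matrix S S ℝ} (ht : 0 < t)
    (hpos : Function.Injective pos) (h : IsRep (Fm M pos t) σ L) (hl : IsLift cs σ lift) {x y : W}
    (hxy : L (lift x) = L (lift y)) : x = y := by
  obtain ⟨ζ, hζ, hz⟩ := generic_exists (zfin M pos t L lift x) (by
    rintro _ ⟨q, rfl⟩
    exact zz_ne h x q)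
  refine sink_unique ht hpos h hl (xi M pos t L lift x ζ)
      (fun v s => by
        rw [xi_am h]
        exact hz _ ⟨(v, s), rfl⟩) x y
      (fun s => by
        rw [xi_self h]
        exact hζ s)
      (fun s => by
        rw [← hxy, xi_self h]
        exact hζ s)

variable {L : G → Matrix S S Lau}

private theorem rep_ev (h : IsRep (Fm M pos (T 1 : Lau)) σ L) (t : ℝˣ) :
    IsRep (Fm M pos (t : ℝ)) σ (fun g => (L g).map (ev t)) := by
  have h1 := map_rep h (ev t)
  rw [Fm_ev] at h1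
  exact h1

theorem rp (hpos : Function.Injective pos) (h : IsRep (Fm M pos (T 1 : Lau)) σ L)
    (hl : IsLift cs σ lift) (x v : W) (j p : S) (t : ℝˣ) (ht : 0 < (t : ℝ)) :
    0 ≤ ev t (L ((lift x)⁻¹ * lift v) j p) :=
  rp_real ht hpos (rep_ev h t) hl x v j p

theorem faithful (hpos : Function.Injective pos) (h : IsRep (Fm M pos (T 1 : Lau)) σ L)
    (hl : IsLift cs σ lift) {x y : W} (hxy : L (lift x) = L (lift y)) : x = y := by
  refine faithful_real (t := ((1 : ℝˣ) : ℝ)) (by simp) hpos (rep_ev h 1) hl ?_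
  show (L (lift x)).map (ev 1) = (L (lift y)).map (ev 1)
  rw [hxy]

end H42.NU
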