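import Pool.Agent.H42.NU.Basic
import Pool.Agent.H42.NU.Alt
import Pool.Agent.H42.NU.Conf
import Pool.Agent.H42.NU.Newman
import Pool.Agent.H42.NU.Mats

/-!
# NCU C3: the unique sink

`t > 0` a real number, `F = Fm M pos t` real, `IsRep F σ L`, `IsLift cs σ lift`, `ξ : S → ℝ`,
`f v s = ∑ j, ξ j * (1 - L (lift v) * F) j s` (= `⟨ξ, A(v) e_s⟩`), `g_p(v) = ∑ j, ξ j * L (lift v) j p`. Assume `f v s ≠ 0` for all `v, s`.
Write `A(v) = 1 - L (lift v) F`.

(a) If `s` is not a right descent of `v`: `lift (v s) = lift v * σ s`, so by `mul_left'` `L (lift (v s)) = L (lift v) + A(v) * single s s 1`,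
 hence `g_s(v s) = g_s(v) + f v s` and `g_p(v s) = g_p(v)` for `p ≠ s`. And `A(v s) = A(v) (1 - single s s 1 * F)`, so
 `A(v s) e_s = (1 - F s s) A(v) e_s = -t A(v) e_s`: `f (v s) s = -t f v s`.
(b) `h2` of `local_confluence`: `f (v s) s * f v s < 0`: if `s` is not a descent of `v` it is `-t (f v s)² < 0`. If it is, apply this
 to `v s` (`v s s = v`, and `s` is not a right descent of `v s`, `isRightDescent_iff_not_isRightDescent_mul`).
(c) `h3`: `s ≠ s'`, both not descents of `v`. For `n ≤ m`: `lift (v z_n) = lift v * pr σ s s' n` (induction, `dih_asc`,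
 `M_ne_zero`). So for `n < m`: `A(v z_n) e_{lt n} = A(v) R_n`, `R_n = (1 - L (pr σ s s' n) F) e_{lt n}` (`am_mul`; `lt s s' (2j) = s`,
 `lt s s' (2j+1) = s'`). `alt_even`, `alt_odd`: with `a = if pos s' < pos s then t else 1`,
 `b = if pos s < pos s' then t else 1`, `a b = t`, `φ = π / m`, `kk M s s' = 2 cos φ`, `us_sin`, `sin φ > 0` (`m ≥ 2`):
 `R_{2j} = (t^j / sin φ) (sin ((2j+1) φ) e_s + a⁻¹ sin (2j φ) e_{s'})` (`t^{j-1} b = t^j a⁻¹` if `j ≥ 1`; `sin 0 = 0` if `j = 0`)
 `R_{2j+1} = (t^j a / sin φ) (sin ((2j+2) φ) e_s + a⁻¹ sin ((2j+1) φ) e_{s'})`. So `ρ = a⁻¹`, `τ_n = t^j / sin φ` resp. `t^j a / sin φ`,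
 and `f (v z_n) (lt n) = ⟨ξ, A(v) R_n⟩ = τ_n (sin ((n+1) φ) f v s + ρ sin (n φ) f v s')`.
(d) Along a step `v → v s` of `Rw cs f` (`f v s < 0`): `g_p(v s) ≤ g_p(v)` for all `p`, and `g_s(v s) < g_s(v)`. If `s` is not a
 descent of `v`: (a). If it is: by (a) for `v s`: `g_s(v) = g_s(v s) + f (v s) s` and `f (v s) s > 0` by (b).
(e) Termination: `∑_p g_p` strictly decreases and `W` is finite, so `flip (Rw cs f)` is well-founded
 (e.g. `Finite.wellFounded_of_trans_of_irrefl` for the relation `G(a) < G(b)`, `G = ∑ p, g_p`, then `Subrelation.wf`;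
 or `WellFounded.onFun` on the finite set of values).
(f) Connected: `EqvGen (Rw cs f) v (v s)` for all `v, s`: if `f v s < 0` it is a step, otherwise `f v s > 0`, `f (v s) s < 0` by (b) and
 `v s → v s s = v`. Every `w` is a product of simple reflections (`simple_induction_right` or `wordProd_surjective`).
(g) A sink `x` (`f x s > 0` for all `s`) is a normal form. By `newman_conn` every `v` rewrites to `x`: `sink_min` by (d), and
 if `y` is another sink then `y →* x` gives `y = x` (`ReflTransGen.cases_head`): `sink_unique`.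
-/

set_option autoImplicit false

namespace H42.NU

universe u v w

variable {S : Type u} [Fintype S] [DecidableEq S] {W : Type v} [Group W] [Finite W]
  {M : CoxeterMatrix S} {cs : CoxeterSystem M W} {G : Type w} [Group G] {σ : S → G}
  {lift : W → G} {pos : S → ℕ} {t : ℝ} {L : G → Matrix S S ℝ}

open Relation

omit [Finite W] in
private theorem Sink_col (A : Matrix S S ℝ) (ξ : S → ℝ) (s : S) :
    ∑ j, ξ j * A j s = ξ ⬝ᵥ (A.mulVec (Pi.single s 1)) := by
  rw [Matrix.mulVec_single_one]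
  rfl

private noncomputable def Sink_f (M : CoxeterMatrix S) (pos : S → ℕ) (t : ℝ)
    (L : G → Matrix S S ℝ) (lift : W → G) (ξ : S → ℝ) (v : W) (s : S) : ℝ :=
  ∑ j, ξ j * (1 - L (lift v) * Fm M pos t) j s

private noncomputable def Sink_g (L : G → Matrix S S ℝ) (lift : W → G) (ξ : S → ℝ) (v : W)
    (p : S) : ℝ := ∑ j, ξ j * L (lift v) j p

omit [Finite W] in
private theorem Sink_g_step (h : IsRep (Fm M pos t) σ L) (hl : IsLift cs σ lift) (ξ : S → ℝ)
    {v : W} {s : S} (hs : ¬ cs.IsRightDescent v s) (p : S) :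
    Sink_g L lift ξ (v * cs.simple s) p =
      Sink_g L lift ξ v p + (if p = s then Sink_f M pos t L lift ξ v s else 0) := by
  unfold Sink_g Sink_f
  rw [hl.step v s hs, mul_left' h, h.gen]
  by_cases hp : p = s
  · subst hp
    rw [if_pos rfl, ← Finset.sum_add_distrib]
    refine Finset.sum_congr rfl fun j _ => ?_
    rw [Matrix.add_apply, Matrix.mul_single_apply_same, mul_one, mul_add]
  · rw [if_neg hp, add_zero]
    refine Finset.sum_congr rfl fun j _ => ?_
    rw [Matrix.add_apply, Matrix.mul_single_apply_of_ne _ _ _ _ _ hp, add_zero]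

omit [Finite W] in
private theorem Sink_f_step (h : IsRep (Fm M pos t) σ L) (hl : IsLift cs σ lift) (ξ : S → ℝ)
    {v : W} {s : S} (hs : ¬ cs.IsRightDescent v s) :
    Sink_f M pos t L lift ξ (v * cs.simple s) s = -t * Sink_f M pos t L lift ξ v s := by
  unfold Sink_f
  rw [hl.step v s hs, am_mul h, h.gen, Finset.mul_sum]
  refine Finset.sum_congr rfl fun j _ => ?_
  have hF : Fm M pos t s s = 1 + t := by
    unfold Fm
    rw [Matrix.of_apply, if_pos rfl]
  have h2 : ((1 - L (lift v) * Fm M pos t) * (1 - Matrix.single s s 1 * Fm M pos t) :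
      Matrix S S ℝ) j s =
      (1 - L (lift v) * Fm M pos t) j s * (1 - Fm M pos t s s) := by
    rw [Matrix.mul_sub, Matrix.mul_one, Matrix.sub_apply, ← Matrix.mul_assoc, Matrix.mul_apply,
      Finset.sum_eq_single s]
    · rw [Matrix.mul_single_apply_same]
      ring
    · intro i _ hi
      rw [Matrix.mul_single_apply_of_ne _ _ _ _ _ hi, zero_mul]
    · intro hn
      exact absurd (Finset.mem_univ s) hn
  rw [h2, hF]
  ring

omit [Finite W] in
/-- the sign changes across a wall -/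
private theorem Sink_sign (ht : 0 < t) (h : IsRep (Fm M pos t) σ L) (hl : IsLift cs σ lift)
    (ξ : S → ℝ) (h0 : ∀ v s, Sink_f M pos t L lift ξ v s ≠ 0) (v : W) (s : S) :
    Sink_f M pos t L lift ξ (v * cs.simple s) s * Sink_f M pos t L lift ξ v s < 0 := by
  by_cases hs : cs.IsRightDescent v s
  · have hs' := cs.isRightDescent_iff_not_isRightDescent_mul.1 hs
    have h1 := Sink_f_step h hl ξ hs'
    rw [cs.simple_mul_simple_cancel_right] at h1
    rw [h1]
    have h2 : 0 < Sink_f M pos t L lift ξ (v * cs.simple s) s *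
        Sink_f M pos t L lift ξ (v * cs.simple s) s := mul_self_pos.2 (h0 _ _)
    nlinarith [mul_pos ht h2]
  · rw [Sink_f_step h hl ξ hs]
    have h2 : 0 < Sink_f M pos t L lift ξ v s * Sink_f M pos t L lift ξ v s :=
      mul_self_pos.2 (h0 _ _)
    nlinarith [mul_pos ht h2]

omit [Finite W] in
/-- the values of `g` decrease along the steps of the rewriting system -/
private theorem Sink_dec (ht : 0 < t) (h : IsRep (Fm M pos t) σ L) (hl : IsLift cs σ lift)
    (ξ : S → ℝ) (h0 : ∀ v s, Sink_f M pos t L lift ξ v s ≠ 0) {v v' : W}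
    (hr : Rw cs (Sink_f M pos t L lift ξ) v v') :
    (∀ p, Sink_g L lift ξ v' p ≤ Sink_g L lift ξ v p) ∧
      ∃ s, Sink_g L lift ξ v' s < Sink_g L lift ξ v s := by
  obtain ⟨s, rfl, hs0⟩ := hr
  by_cases hs : cs.IsRightDescent v s
  · have hs' := cs.isRightDescent_iff_not_isRightDescent_mul.1 hs
    have h1 := fun p => Sink_g_step h hl ξ hs' p
    rw [cs.simple_mul_simple_cancel_right] at h1
    have h2 := Sink_sign ht h hl ξ h0 v s
    have h3 : 0 < Sink_f M pos t L lift ξ (v * cs.simple s) s := by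
      by_contra hcon
      have := mul_nonneg_of_nonpos_of_nonpos (not_lt.1 hcon) hs0.le
      linarith
    refine ⟨fun p => ?_, s, ?_⟩
    · rw [h1 p]
      split_ifs
      · linarith
      · linarith
    · rw [h1 s, if_pos rfl]
      linarith
  · have h1 := fun p => Sink_g_step h hl ξ hs p
    refine ⟨fun p => ?_, s, ?_⟩
    · rw [h1 p]
      split_ifs
      · linarith
      · linarith
    · rw [h1 s, if_pos rfl]
      linarith

omit [Fintype S] [DecidableEq S] in
private theorem Sink_lift_pr (hl : IsLift cs σ lift) {s s' : S} (hne : s ≠ s') {v : W}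
    (h1 : ¬ cs.IsRightDescent v s) (h2 : ¬ cs.IsRightDescent v s') (n : ℕ) (hn : n ≤ M s s') :
    lift (v * pr cs.simple s s' n) = lift v * pr σ s s' n := by
  induction n with
  | zero => simp [pr]
  | succ n ih =>
    have ih' := ih (by omega)
    have hd := dih_asc cs hne (M_ne_zero cs s s') h1 h2 (n := n) (by omega)
    show lift (v * (pr cs.simple s s' n * cs.simple (lt s s' n))) =
      lift v * (pr σ s s' n * σ (lt s s' n))
    rw [← mul_assoc, hl.step _ _ hd, ih', mul_assoc]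

private theorem Sink_f_pr (h : IsRep (Fm M pos t) σ L) (hl : IsLift cs σ lift) (ξ : S → ℝ)
    {s s' : S} (hne : s ≠ s') {v : W}
    (h1 : ¬ cs.IsRightDescent v s) (h2 : ¬ cs.IsRightDescent v s') {n : ℕ} (hn : n ≤ M s s')
    (i : S) :
    Sink_f M pos t L lift ξ (v * pr cs.simple s s' n) i =
      ξ ⬝ᵥ ((1 - L (lift v) * Fm M pos t).mulVec
        ((1 - L (pr σ s s' n) * Fm M pos t).mulVec (Pi.single i 1))) := by
  unfold Sink_f
  rw [Sink_lift_pr hl hne h1 h2 n hn, am_mul h, Sink_col, ← Matrix.mulVec_mulVec]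

/-- the values on a dihedral coset -/
private theorem Sink_dih (ht : 0 < t) (hpos : Function.Injective pos)
    (h : IsRep (Fm M pos t) σ L) (hl : IsLift cs σ lift) (ξ : S → ℝ) (s s' : S) (hne : s ≠ s')
    (v : W) (h1 : ¬ cs.IsRightDescent v s) (h2 : ¬ cs.IsRightDescent v s') :
    ∃ (τ : ℕ → ℝ) (ρ : ℝ), (∀ n, 0 < τ n) ∧ 0 < ρ ∧ ∀ n < M s s',
      Sink_f M pos t L lift ξ (v * pr cs.simple s s' n) (lt s s' n) =
        τ n * (Real.sin (((n : ℝ) + 1) * (Real.pi / M s s')) * Sink_f M pos t L lift ξ v s +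
          ρ * Real.sin ((n : ℝ) * (Real.pi / M s s')) * Sink_f M pos t L lift ξ v s') := by
  set φ : ℝ := Real.pi / M s s' with hφ
  have hm0 : M s s' ≠ 0 := M_ne_zero cs s s'
  have hm1 : M s s' ≠ 1 := M.off_diagonal s s' hne
  have hm2 : 2 ≤ M s s' := by omega
  have hm2' : (2 : ℝ) ≤ (M s s' : ℝ) := by exact_mod_cast hm2
  have hsin : 0 < Real.sin φ := by
    apply Real.sin_pos_of_pos_of_lt_pi
    · exact div_pos Real.pi_pos (by linarith)
    · rw [hφ, div_lt_iff₀ (by linarith)]
      nlinarith [Real.pi_pos]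
  have hpne : pos s ≠ pos s' := fun he => hne (hpos he)
  set a : ℝ := if pos s' < pos s then t else 1 with ha
  have ha0 : 0 < a := by
    rw [ha]
    split_ifs
    · exact ht
    · exact one_pos
  have hus : ∀ n : ℕ, us (kk M s s') n = Real.sin (n * φ) / Real.sin φ := by
    intro n
    rw [eq_div_iff hsin.ne']
    exact us_sin φ n
  refine ⟨fun n => if n % 2 = 0 then t ^ (n / 2) / Real.sin φ else
    t ^ (n / 2) * a / Real.sin φ, a⁻¹, fun n => ?_, inv_pos.2 ha0, fun n hn => ?_⟩
  · dsimp only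
    split_ifs
    · positivity
    · positivity
  have hfs : Sink_f M pos t L lift ξ v s =
      ξ ⬝ᵥ ((1 - L (lift v) * Fm M pos t).mulVec (Pi.single s 1)) := Sink_col _ _ _
  have hfs' : Sink_f M pos t L lift ξ v s' =
      ξ ⬝ᵥ ((1 - L (lift v) * Fm M pos t).mulVec (Pi.single s' 1)) := Sink_col _ _ _
  rw [Sink_f_pr h hl ξ hne h1 h2 hn.le]
  obtain ⟨j, hj | hj⟩ := Nat.even_or_odd' n
  · subst hj
    have hlt : lt s s' (2 * j) = s := by
      unfold lt
      rw [if_pos (by omega)]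
    rw [hlt, alt_even h hpos hne, Matrix.mulVec_add, Matrix.mulVec_smul, Matrix.mulVec_smul,
      dotProduct_add, dotProduct_smul, dotProduct_smul, ← hfs, ← hfs']
    dsimp only
    rw [if_pos (show 2 * j % 2 = 0 by omega), show 2 * j / 2 = j by omega, hus, hus]
    simp only [Algebra.algebraMap_self, RingHom.id_apply, smul_eq_mul]
    have e1 : ((2 * j + 1 : ℕ) : ℝ) * φ = (((2 * j : ℕ) : ℝ) + 1) * φ := by push_cast; ring
    rw [e1]
    have e2 : Real.sin (((2 * j : ℕ) : ℝ) * φ) / Real.sin φ * t ^ (j - 1) *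
        (if pos s < pos s' then t else 1) =
        t ^ j / Real.sin φ * (a⁻¹ * Real.sin (((2 * j : ℕ) : ℝ) * φ)) := by
      rcases Nat.eq_zero_or_pos j with h0 | h0
      · subst h0
        simp
      · obtain ⟨i, rfl⟩ : ∃ i, j = i + 1 := ⟨j - 1, by omega⟩
        rw [Nat.add_sub_cancel]
        rcases lt_or_gt_of_ne hpne with h3 | h3
        · rw [if_pos h3, ha, if_neg (not_lt.2 h3.le), pow_succ]
          ring
        · rw [if_neg (not_lt.2 h3.le), ha, if_pos h3, pow_succ]
          field_simp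
    rw [e2]
    ring
  · subst hj
    have hlt : lt s s' (2 * j + 1) = s' := by
      unfold lt
      rw [if_neg (by omega)]
    rw [hlt, alt_odd h hpos hne, Matrix.mulVec_add, Matrix.mulVec_smul, Matrix.mulVec_smul,
      dotProduct_add, dotProduct_smul, dotProduct_smul, ← hfs, ← hfs']
    dsimp only
    rw [if_neg (show ¬ (2 * j + 1) % 2 = 0 by omega), show (2 * j + 1) / 2 = j by omega, hus, hus]
    simp only [Algebra.algebraMap_self, RingHom.id_apply, smul_eq_mul]
    have e1 : ((2 * j + 2 : ℕ) : ℝ) * φ = (((2 * j + 1 : ℕ) : ℝ) + 1) * φ := by push_cast; ring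
    rw [e1]
    rw [← ha]
    field_simp

/-- every chamber rewrites to a sink -/
private theorem Sink_main (ht : 0 < t) (hpos : Function.Injective pos)
    (h : IsRep (Fm M pos t) σ L) (hl : IsLift cs σ lift) (ξ : S → ℝ)
    (h0 : ∀ v s, Sink_f M pos t L lift ξ v s ≠ 0) (x : W)
    (hx : ∀ s, 0 < Sink_f M pos t L lift ξ x s) (v : W) :
    ReflTransGen (Rw cs (Sink_f M pos t L lift ξ)) v x := by
  have hsum : ∀ {a b : W}, Rw cs (Sink_f M pos t L lift ξ) a b →
      ∑ p, Sink_g L lift ξ b p < ∑ p, Sink_g L lift ξ a p := by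
    intro a b hab
    obtain ⟨h1, s, hs⟩ := Sink_dec ht h hl ξ h0 hab
    exact Finset.sum_lt_sum (fun p _ => h1 p) ⟨s, Finset.mem_univ s, hs⟩
  have wf : WellFounded (flip (Rw cs (Sink_f M pos t L lift ξ))) := by
    have w1 : WellFounded (fun a b : W => ∑ p, Sink_g L lift ξ a p < ∑ p, Sink_g L lift ξ b p) := by
      have i1 : IsTrans W (fun a b : W => ∑ p, Sink_g L lift ξ a p < ∑ p, Sink_g L lift ξ b p) :=
        ⟨fun _ _ _ hab hbc => lt_trans hab hbc⟩
      have i2 : Std.Irrefl (fun a b : W => ∑ p, Sink_g L lift ξ a p < ∑ p, Sink_g L lift ξ b p) :=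
        ⟨fun _ => lt_irrefl _⟩
      exact Finite.wellFounded_of_trans_of_irrefl _
    exact Subrelation.wf (fun {a b} hab => hsum hab) w1
  have lc := local_confluence cs (Sink_f M pos t L lift ξ) h0
    (Sink_sign ht h hl ξ h0)
    (fun s s' hne v h1 h2 => Sink_dih ht hpos h hl ξ s s' hne v h1 h2)
  have st : ∀ (v : W) (s : S), EqvGen (Rw cs (Sink_f M pos t L lift ξ)) v (v * cs.simple s) := by
    intro v s
    rcases lt_or_gt_of_ne (h0 v s) with h1 | h1
    · exact EqvGen.rel _ _ ⟨s, rfl, h1⟩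
    · have h2 := Sink_sign ht h hl ξ h0 v s
      have h3 : Sink_f M pos t L lift ξ (v * cs.simple s) s < 0 := by
        by_contra hcon
        have := mul_nonneg (not_lt.1 hcon) h1.le
        linarith
      exact EqvGen.symm _ _ (EqvGen.rel _ _ ⟨s, by rw [cs.simple_mul_simple_cancel_right], h3⟩)
  have c1 : ∀ w : W, EqvGen (Rw cs (Sink_f M pos t L lift ξ)) 1 w := by
    intro w
    apply cs.simple_induction_right w
    · exact EqvGen.refl _
    · intro w i hw
      exact EqvGen.trans _ _ _ hw (st w i)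
  have conn : ∀ a b : W, EqvGen (Rw cs (Sink_f M pos t L lift ξ)) a b := fun a b =>
    EqvGen.trans _ _ _ (EqvGen.symm _ _ (c1 a)) (c1 b)
  refine newman_conn _ wf lc conn (x := x) ?_ v
  rintro y ⟨s, _, hs⟩
  exact absurd hs (not_lt.2 (hx s).le)

theorem sink_min (ht : 0 < t) (hpos : Function.Injective pos) (h : IsRep (Fm M pos t) σ L)
    (hl : IsLift cs σ lift) (ξ : S → ℝ)
    (h0 : ∀ v s, (∑ j, ξ j * (1 - L (lift v) * Fm M pos t) j s) ≠ 0) (x : W)
    (hx : ∀ s, 0 < ∑ j, ξ j * (1 - L (lift x) * Fm M pos t) j s) (v : W) (p : S) :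
    ∑ j, ξ j * L (lift x) j p ≤ ∑ j, ξ j * L (lift v) j p := by
  have hmain := Sink_main ht hpos h hl ξ h0 x hx v
  change Sink_g L lift ξ x p ≤ Sink_g L lift ξ v p
  clear hx
  induction hmain with
  | refl => exact le_rfl
  | tail _ hbc ih => exact ((Sink_dec ht h hl ξ h0 hbc).1 p).trans ih

theorem sink_unique (ht : 0 < t) (hpos : Function.Injective pos) (h : IsRep (Fm M pos t) σ L)
    (hl : IsLift cs σ lift) (ξ : S → ℝ)
    (h0 : ∀ v s, (∑ j, ξ j * (1 - L (lift v) * Fm M pos t) j s) ≠ 0) (x y : W)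
    (hx : ∀ s, 0 < ∑ j, ξ j * (1 - L (lift x) * Fm M pos t) j s)
    (hy : ∀ s, 0 < ∑ j, ξ j * (1 - L (lift y) * Fm M pos t) j s) : x = y := by
  have hmain := Sink_main ht hpos h hl ξ h0 x hx y
  rcases hmain.cases_head with he | ⟨z, ⟨s, _, hs⟩, _⟩
  · exact he.symm
  · exact absurd hs (not_lt.2 (hy s).le)

end H42.NU
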