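import Pool.Agent.H42.NU.StepD
import Pool.Agent.H42.NU.RI

/-!
# NCU F5: the reflection step for the covers

As in module StepD. Let `q ∈ WP J`, `s` not a right descent of `q`, `β ∈ Cov σ lift L' (s :: lK) q`: `β ≥ 0`, `θ ∈ dg σ (s :: lK)`,
`lift q * θ = lift y`, `L' θ = β βᵀ`; by `cov_props` (for `pos'`, `s :: lK` is increasing for `pos'`) `E'(β, β) = 1`, `β` supported in
`s :: lK`. If `θ = σ s` then `Rank1 (L' θ) (e_s)` and `rank1_unique`, `β ≥ 0`, give `β = e_s`: first alternative. Otherwise `s` is not a
right descent of `y` (`ri` for `pos'`). Put `θ₁ = (σ s)⁻¹ * θ * σ s ∈ dg σ (lK ++ [s])` (`dg_conj`). Since `lift (q s) = lift q * σ s` and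
`lift (y s) = lift y * σ s`: `lift (q s) * θ₁ = lift q * θ * σ s = lift y * σ s = lift (y s)`.
`Rank1 (L θ₁) (rf M s β)`: `L θ₁ = (1 - L (σ s)⁻¹ F) L θ (1 - F L (σ s))` (`conj_rank1`). By `conj_pos` (`θ ∈ GP σ J` by `dg_mem_GP`):
`L θ i j * d j = d i * β i β j` (`d s = T 1`, `d i = 1` otherwise; so `L θ i j = d i * β i β j * d j⁻¹` with `d j⁻¹ = T(-1)` or `1`). Write
`L θ = a bᵀ`, `a i = d i * C (β i)`, `b j = C (β j) * d j⁻¹`. `L (σ s)⁻¹ = T(-1) E_ss`, `L (σ s) = E_ss`.
 `a' = (1 - T(-1) E_ss F) a`: `a' i = a i = β i` for `i ≠ s`; `a' s = T 1 β s - T(-1) ((1 + T 1) T 1 β s - ∑_{i ∈ lK} k_{si} T 1 β i)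
  = -β s + ∑ k_{si} β i = (rf M s β) s` (`F s i = -(k T 1)` for `i ∈ lK`; other `β i = 0`).
 `b'ᵀ = bᵀ (1 - F E_ss)`: `b' j = b j = β j` for `j ≠ s`; `b' s = T(-1) β s - (T(-1) β s (1 + T 1) + ∑_{i ∈ lK} β i F i s)
  = -β s + ∑ k_{is} β i` (`F i s = -k`). So `L θ₁ = γ γᵀ` with `γ = rf M s β`.
Sign: by `cov_sign` (for `pos`, `u = q s`) `γ ≥ 0` or `γ ≤ 0`. If `β a > 0` for some `a ≠ s`, then `γ a = β a > 0` and `γ ≥ 0`. Otherwise
`β = β s e_s`, `E'(β, β) = (β s)² = 1`, `β s = 1`, so `β = e_s` (first alternative; or use `eq_gen_of_single`).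
So `γ ∈ Cov σ lift L (lK ++ [s]) (q s)`.
-/

set_option autoImplicit false

namespace H42.NU

open LaurentPolynomial Pool.Agent.H73.HVN

universe u v w

variable {S : Type u} [Fintype S] [DecidableEq S] {W : Type v} [Group W] [Finite W]
  {M : CoxeterMatrix S} {cs : CoxeterSystem M W} {G : Type w} [Group G] {σ : S → G}
  {lift : W → G} {pos pos' : S → ℕ} {L L' : G → Matrix S S Lau}

omit [Fintype S] in
private theorem StepC_Fss (s : S) : Fm M pos (T 1 : Lau) s s = 1 + T 1 := by
  unfold Fm
  rw [Matrix.of_apply, if_pos rfl]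

omit [Fintype S] [DecidableEq S] in
private theorem StepC_kk (i j : S) : kk M i j = kk M j i := by
  unfold kk
  rw [M.symmetric i j]

private theorem StepC_T : (T 1 : Lau) * T (-1) = 1 := by
  rw [← T_add, add_neg_cancel, T_zero]

private theorem StepC_gen_inv (h : IsRep (Fm M pos (T 1 : Lau)) σ L) (s : S) :
    L (σ s)⁻¹ = Matrix.single s s (T (-1) : Lau) :=
  gen_inv h (StepC_Fss s) StepC_T

/-- multiplication of a column vector -/
private theorem StepC_col (F : Matrix S S Lau) (c : Lau) (s : S) (a : S → Lau) (i : S) :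
    ((1 - Matrix.single s s c * F).mulVec a) i =
      a i - (if i = s then c * ∑ j, F s j * a j else 0) := by
  rw [Matrix.sub_mulVec, Matrix.one_mulVec, Pi.sub_apply]
  congr 1
  rw [Matrix.mulVec, dotProduct]
  by_cases hi : i = s
  · subst hi
    rw [if_pos rfl, Finset.mul_sum]
    refine Finset.sum_congr rfl fun j _ => ?_
    rw [Matrix.single_mul_apply_same, mul_assoc]
  · rw [if_neg hi]
    refine Finset.sum_eq_zero fun j _ => ?_
    rw [Matrix.single_mul_apply_of_ne _ _ _ _ _ hi, zero_mul]

/-- multiplication of a row vector -/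
private theorem StepC_row (F : Matrix S S Lau) (s : S) (b : S → Lau) (j : S) :
    (Matrix.vecMul b (1 - F * Matrix.single s s (1 : Lau))) j =
      b j - (if j = s then ∑ i, b i * F i s else 0) := by
  rw [Matrix.vecMul_sub, Matrix.vecMul_one, Pi.sub_apply]
  congr 1
  rw [Matrix.vecMul, dotProduct]
  by_cases hj : j = s
  · subst hj
    rw [if_pos rfl]
    refine Finset.sum_congr rfl fun i _ => ?_
    rw [Matrix.mul_single_apply_same, mul_one]
  · rw [if_neg hj]
    refine Finset.sum_eq_zero fun i _ => ?_
    rw [Matrix.mul_single_apply_of_ne _ _ _ _ _ hj, mul_zero]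

/-- the cocycle of the conjugated element -/
private theorem StepC_rank (h : IsRep (Fm M pos (T 1 : Lau)) σ L) {s : S} {θ : G} {β : S → ℝ}
    (hL : ∀ i j, (if i = s then T 1 else 1) * C (β i * β j) =
      L θ i j * (if j = s then T 1 else 1))
    (h0 : ∀ j, j ≠ s → β j = 0 ∨ pos j < pos s) :
    Rank1 (L ((σ s)⁻¹ * θ * σ s)) (rf M s β) := by
  set a : S → Lau := fun i => (if i = s then T 1 else 1) * C (β i) with ha
  set b : S → Lau := fun j => C (β j) * (if j = s then T (-1) else 1) with hb
  have hab : L θ = Matrix.vecMulVec a b := by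
    ext1 i j
    rw [Matrix.vecMulVec_apply]
    have hd : (if j = s then T 1 else 1) * (if j = s then T (-1) else 1) = (1 : Lau) := by
      split_ifs
      · exact StepC_T
      · exact one_mul 1
    calc L θ i j = (L θ i j * (if j = s then T 1 else 1)) * (if j = s then T (-1) else 1) := by
          rw [mul_assoc, hd, mul_one]
      _ = ((if i = s then T 1 else 1) * C (β i * β j)) * (if j = s then T (-1) else 1) := by
          rw [hL i j]
      _ = a i * b j := by
          rw [ha, hb, map_mul]
          ring
  have hrs : rf M s β s = -β s + ∑ i ∈ Finset.univ.erase s, kk M i s * β i := by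
    unfold rf
    rw [Function.update_self]
  have hrn : ∀ i, i ≠ s → rf M s β i = β i := by
    intro i hi
    unfold rf
    rw [Function.update_of_ne hi]
  have ha' : ∀ i, ((1 - Matrix.single s s (T (-1) : Lau) * Fm M pos (T 1 : Lau)).mulVec a) i =
      C (rf M s β i) := by
    intro i
    rw [StepC_col]
    by_cases hi : i = s
    · subst hi
      have e1 : ∀ j ∈ Finset.univ.erase i, Fm M pos (T 1 : Lau) i j * a j =
          -(T 1 * C (kk M j i * β j)) := by
        intro j hj
        have hji : j ≠ i := (Finset.mem_erase.1 hj).1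
        rcases h0 j hji with h1 | h1
        · simp [ha, h1]
        · unfold Fm
          rw [Matrix.of_apply, if_neg (Ne.symm hji), if_pos h1, LaurentPolynomial.algebraMap_apply, ha]
          simp only [if_neg hji, one_mul, Algebra.algebraMap_self, RingHom.id_apply]
          rw [StepC_kk j i, map_mul]
          ring
      rw [if_pos rfl, ← Finset.add_sum_erase _ _ (Finset.mem_univ i), Finset.sum_congr rfl e1,
        StepC_Fss, Finset.sum_neg_distrib, ← Finset.mul_sum, ← map_sum, hrs, map_add, map_neg]
      have e2 : a i = T 1 * C (β i) := by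
        rw [ha]
        simp
      rw [e2]
      have hT := StepC_T
      linear_combination (-(1 + T 1 : Lau) * C (β i) +
        C (∑ j ∈ Finset.univ.erase i, kk M j i * β j)) * hT
    · rw [if_neg hi, sub_zero, hrn i hi, ha]
      simp [hi]
  have hb' : ∀ j, (Matrix.vecMul b (1 - Fm M pos (T 1 : Lau) * Matrix.single s s (1 : Lau))) j =
      C (rf M s β j) := by
    intro j
    rw [StepC_row]
    by_cases hj : j = s
    · subst hj
      have e1 : ∀ i ∈ Finset.univ.erase j, b i * Fm M pos (T 1 : Lau) i j =
          -C (kk M i j * β i) := by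
        intro i hi
        have hij : i ≠ j := (Finset.mem_erase.1 hi).1
        rcases h0 i hij with h1 | h1
        · simp [hb, h1]
        · unfold Fm
          rw [Matrix.of_apply, if_neg hij, if_neg (not_lt.2 h1.le), LaurentPolynomial.algebraMap_apply, hb]
          simp only [if_neg hij, mul_one, Algebra.algebraMap_self, RingHom.id_apply]
          rw [map_mul]
          ring
      rw [if_pos rfl, ← Finset.add_sum_erase _ _ (Finset.mem_univ j), Finset.sum_congr rfl e1,
        StepC_Fss, Finset.sum_neg_distrib, ← map_sum, hrs, map_add, map_neg]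
      have e2 : b j = C (β j) * T (-1) := by
        rw [hb]
        simp
      rw [e2]
      have hT := StepC_T
      linear_combination (-C (β j)) * hT
    · rw [if_neg hj, sub_zero, hrn j hj, hb]
      simp [hj]
  intro i j
  rw [conj_rank1 h, hab, StepC_gen_inv h, h.gen, Matrix.mul_vecMulVec, Matrix.vecMulVec_mul,
    Matrix.vecMulVec_apply, ha', hb', ← map_mul]

theorem cov_step (hpos : Function.Injective pos) (hpos' : Function.Injective pos')
    (h : IsRep (Fm M pos (T 1 : Lau)) σ L) (h' : IsRep (Fm M pos' (T 1 : Lau)) σ L')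
    (hlf : IsLift cs σ lift) {lK : List S} {s : S}
    (hl' : (s :: lK).Pairwise (fun i j => pos' i < pos' j)) (h1 : ∀ i ∈ lK, pos i < pos s)
    (h3 : ∀ i ∈ lK, ∀ j ∈ lK, (pos i < pos j ↔ pos' i < pos' j)) {q : W}
    (hqs : ¬ cs.IsRightDescent q s) {β : S → ℝ} (hβ : β ∈ Cov σ lift L' (s :: lK) q) :
    β = Pi.single s 1 ∨ rf M s β ∈ Cov σ lift L (lK ++ [s]) (q * cs.simple s) := by
  obtain ⟨hE, hsupp, hpos1⟩ := cov_props hpos' h' hl' hβ
  obtain ⟨hβ0, θ, hθ, y, hy, hR⟩ := hβ
  have hl2 := List.pairwise_cons.1 hl'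
  have h2 : ∀ i ∈ lK, pos' s < pos' i := fun i hi => hl2.1 i hi
  have hs : s ∉ lK := fun hmem => lt_irrefl _ (h2 s hmem)
  by_cases hθs : θ = σ s
  · left
    have h5 : Rank1 (L' θ) (Pi.single s (1 : ℝ)) := by
      intro i j
      rw [hθs, h'.gen]
      by_cases hi : i = s
      · by_cases hj : j = s
        · subst hi
          subst hj
          simp
        · rw [Matrix.single_apply_of_ne]
          · simp [hj]
          · intro hh
            exact hj hh.2.symm
      · rw [Matrix.single_apply_of_ne]
        · simp [hi]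
        · intro hh
          exact hi hh.1.symm
    rcases rank1_unique hR h5 with h6 | h6
    · exact h6
    · exfalso
      have h7 := hβ0 s
      rw [h6, Pi.neg_apply, Pi.single_eq_same] at h7
      linarith
  · have hys := ri hpos' h' hlf hl' hqs hθ hy hθs
    have hset : {i | i ∈ s :: lK} = {i | i ∈ lK ++ [s]} := by
      ext i
      simp [or_comm]
    have hG : θ ∈ GP σ {i | i ∈ lK ++ [s]} := by
      rw [← hset]
      exact dg_mem_GP hθ
    have hγ : Rank1 (L ((σ s)⁻¹ * θ * σ s)) (rf M s β) := by
      apply StepC_rank h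
      · intro i j
        rw [← conj_pos h h' hs h1 h2 h3 hG i j, hR i j]
      · intro j hj
        by_cases hjl : j ∈ lK
        · exact Or.inr (h1 j hjl)
        · left
          apply hsupp
          intro hmem
          rcases List.mem_cons.1 hmem with h8 | h8
          · exact hj h8
          · exact hjl h8
    have he : lift (q * cs.simple s) * ((σ s)⁻¹ * θ * σ s) = lift (y * cs.simple s) := by
      rw [hlf.step q s hqs, hlf.step y s hys, ← hy]
      group
    have hrn : ∀ i, i ≠ s → rf M s β i = β i := by
      intro i hi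
      unfold rf
      rw [Function.update_of_ne hi]
    rcases cov_sign hpos h hlf he hγ with h9 | h9
    · exact Or.inr ⟨h9, _, dg_conj hθ, _, he, hγ⟩
    · left
      have hz : ∀ i, i ≠ s → β i = 0 := by
        intro i hi
        have h10 := h9 i
        rw [hrn i hi] at h10
        exact le_antisymm h10 (hβ0 i)
      have hβe : β = Pi.single s (β s) := by
        ext i
        by_cases hi : i = s
        · subst hi
          rw [Pi.single_eq_same]
        · rw [Pi.single_eq_of_ne hi, hz i hi]
      have h11 : β s * β s = 1 := by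
        rw [← hE]
        unfold Ef
        rw [Finset.sum_eq_single s]
        · rw [Finset.sum_eq_single s]
          · unfold Fm
            rw [Matrix.of_apply, if_pos rfl]
            ring
          · intro j _ hj
            rw [hz j hj, mul_zero]
          · intro hn
            exact absurd (Finset.mem_univ s) hn
        · intro i _ hi
          apply Finset.sum_eq_zero
          intro j _
          rw [hz i hi, zero_mul, zero_mul]
        · intro hn
          exact absurd (Finset.mem_univ s) hn
      have h12 : β s = 1 := by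
        have := hβ0 s
        nlinarith
      rw [hβe, h12]

end H42.NU
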