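import Pool.Agent.H42.NU.Pole
import Pool.Agent.H42.NU.Mats

/-!
# NCU F4: the reflection step for the dual cones

Two positions `pos`, `pos'` with representations `L`, `L'` of the same group. `s ∉ lK`; on `lK` both positions give the same
order; `s` is after `lK` for `pos` and before `lK` for `pos'`. `F = Fm M pos (T 1)`, `F' = Fm M pos' (T 1)`,
`J = {i | i ∈ lK ++ [s]} = {i | i ∈ s :: lK}`, `d s = T 1`, `d i = 1` for `i ≠ s`. For `i, j ∈ J`: `d i * F' i j = F i j * d j`
(`F' i s = -(k t)`, `F i s = -k`, `F' s i = -k`, `F s i = -(k t)` for `i ∈ lK`). By `conj_block`: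
`d i * L' g i j = L g i j * d j` for `g ∈ GP σ J`.

Let `u ∈ WP J`, `s` a right descent of `u`, `q = u s` (in `WP J`), `lift u = lift q * σ s` (`lift_descent`). Let `v ∈ WP J`, `p ∈ J`,
`g = (lift q)⁻¹ * lift v ∈ GP σ J` (`lift_mem_GP`), `g₁ = (lift u)⁻¹ * lift v = (σ s)⁻¹ g`. Put `y' i = (1 - F' L' g) i p` (`= Ym F' L' lift q v i p`),
`y i = (1 - F L g₁) i p` (`= Ym F L lift u v i p`). Claim, for `i ∈ J`:
 (*) `d p * y s = -T 0 .. `, precisely `d p * y i = y' i + C (kk M i s) * y' s` for `i ≠ s`, and `d p * y s = - y' s`.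
Proof: `1 - F L g₁ = (1 - F L (σ s)⁻¹)(1 - F L g)` (`rm_mul`), `L (σ s)⁻¹ = T(-1) E_ss` (`gen_inv`): with
`x i = (1 - F L g) i p`: `y i = x i - F i s * T(-1) * x s`. And for `i ∈ J`: `d p * x i = d i * y' i`:
`d i * y' i = d i [i = p] - ∑_{a} d i F' i a L' g a p`, where only `a ∈ J` contributes (`supp_row` for `L'`),
`d i F' i a L' g a p = F i a d a L' g a p = F i a L g a p d p`; so the sum is `d p * x i` (`supp_row` for `L`).
Then `d p * y i = d p x i - F i s T(-1) d p x s = d i y' i - F i s T(-1) d s y' s = d i y' i - F i s y' s` (`T(-1) * T 1 = 1`):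
for `i ≠ s` (`i ∈ lK`): `y' i + k y' s`; for `i = s`: `T 1 * y' s - (1 + T 1) y' s = - y' s`. 

`dual_step`: let `β ∈ Dual cs F L lift (lK ++ [s]) u`, `β' = rf M s β`: `β' i = β i` (`i ≠ s`), `β' s = -β s + ∑_{i ≠ s} k_{is} β i`. It is `0`
outside `J`. Let `v ∈ WP J`, `p ∈ J`, `m : ℕ`, all `(y' i)_n = 0` for `i ∈ J`, `n < -m`. Let `e = 1` if `p = s`, else `e = 0`
(`d p = T e`), `m' = m + e`. By (*) `(y i)_n = (T(-e) * ..)_n` is the coefficient number `n + e` of `y' i + k y' s` resp. `-y' s`: it is `0` for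
`n < -m'`, and at `-m'` it is `(y' i)_{-m} + k_{is} (y' s)_{-m}` (`i ∈ lK`) resp. `-(y' s)_{-m}` (`i = s`). So `β ∈ Dual` (with `v`, `p`, `m'`) gives
`0 ≤ ∑ i, β i (y i)_{-m'} = ∑_{i ≠ s} β i ((y' i)_{-m} + k_{is} (y' s)_{-m}) - β s (y' s)_{-m} = ∑ i, β' i (y' i)_{-m}`
(terms with `i ∉ J` are `0` as `β i = 0`).
-/

set_option autoImplicit false

namespace H42.NU

open LaurentPolynomial Pool.Agent.H73.HVN

universe u v w

variable {S : Type u} [Fintype S] [DecidableEq S] {W : Type v} [Group W]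
  {M : CoxeterMatrix S} {cs : CoxeterSystem M W} {G : Type w} [Group G] {σ : S → G}
  {lift : W → G} {pos pos' : S → ℕ} {L L' : G → Matrix S S Lau}

omit [Fintype S] in
private theorem stepD_F {lK : List S} {s : S} (hs : s ∉ lK) (h1 : ∀ i ∈ lK, pos i < pos s)
    (h2 : ∀ i ∈ lK, pos' s < pos' i) (h3 : ∀ i ∈ lK, ∀ j ∈ lK, (pos i < pos j ↔ pos' i < pos' j))
    (i : S) (hi : i ∈ lK ++ [s]) (j : S) (hj : j ∈ lK ++ [s]) :
    (if i = s then T 1 else 1) * Fm M pos' (T 1 : Lau) i j =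
      Fm M pos (T 1 : Lau) i j * (if j = s then T 1 else 1) := by
  by_cases hij : i = j
  · subst hij
    unfold Fm
    rw [Matrix.of_apply, Matrix.of_apply, if_pos rfl, if_pos rfl]
    ring
  · have e1 : Fm M pos' (T 1 : Lau) i j =
        -(algebraMap ℝ Lau (kk M i j) * (if pos' j < pos' i then T 1 else 1)) := by
      unfold Fm
      rw [Matrix.of_apply, if_neg hij]
    have e2 : Fm M pos (T 1 : Lau) i j =
        -(algebraMap ℝ Lau (kk M i j) * (if pos j < pos i then T 1 else 1)) := by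
      unfold Fm
      rw [Matrix.of_apply, if_neg hij]
    rw [e1, e2]
    rcases List.mem_append.1 hi with hi1 | hi1
    · have his : i ≠ s := fun e => hs (e ▸ hi1)
      rcases List.mem_append.1 hj with hj1 | hj1
      · have hjs : j ≠ s := fun e => hs (e ▸ hj1)
        rw [if_neg his, if_neg hjs]
        by_cases hlt : pos j < pos i
        · rw [if_pos hlt, if_pos ((h3 j hj1 i hi1).1 hlt)]
          ring
        · rw [if_neg hlt, if_neg (fun hh => hlt ((h3 j hj1 i hi1).2 hh))]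
          ring
      · have hjs : j = s := List.mem_singleton.1 hj1
        subst hjs
        rw [if_neg his, if_pos rfl, if_pos (h2 i hi1), if_neg (h1 i hi1).not_gt]
        ring
    · have his : i = s := List.mem_singleton.1 hi1
      subst his
      rcases List.mem_append.1 hj with hj1 | hj1
      · have hjs : j ≠ i := fun e => hs (e ▸ hj1)
        rw [if_pos rfl, if_neg hjs, if_neg (h2 j hj1).not_gt, if_pos (h1 j hj1)]
        ring
      · exact absurd (List.mem_singleton.1 hj1).symm hij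

/-- the relation between the two cocycles on the parabolic subgroup -/
theorem conj_pos (h : IsRep (Fm M pos (T 1 : Lau)) σ L) (h' : IsRep (Fm M pos' (T 1 : Lau)) σ L')
    {lK : List S} {s : S} (hs : s ∉ lK) (h1 : ∀ i ∈ lK, pos i < pos s)
    (h2 : ∀ i ∈ lK, pos' s < pos' i) (h3 : ∀ i ∈ lK, ∀ j ∈ lK, (pos i < pos j ↔ pos' i < pos' j))
    {g : G} (hg : g ∈ GP σ {i | i ∈ lK ++ [s]}) (i j : S) :
    (if i = s then T 1 else 1) * L' g i j = L g i j * (if j = s then T 1 else 1) :=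
  conj_block h h' (fun i => if i = s then T 1 else 1)
    (fun i hi j hj => stepD_F hs h1 h2 h3 i hi j hj) hg i j

private theorem stepD_key (h : IsRep (Fm M pos (T 1 : Lau)) σ L)
    (h' : IsRep (Fm M pos' (T 1 : Lau)) σ L') {lK : List S} {s : S}
    (hs : s ∉ lK) (h1 : ∀ i ∈ lK, pos i < pos s) (h2 : ∀ i ∈ lK, pos' s < pos' i)
    (h3 : ∀ i ∈ lK, ∀ j ∈ lK, (pos i < pos j ↔ pos' i < pos' j))
    {g : G} (hg : g ∈ GP σ {i | i ∈ lK ++ [s]}) (p i : S) (hi : i ∈ lK ++ [s]) :
    (if p = s then T 1 else 1) * (1 - Fm M pos (T 1 : Lau) * L ((σ s)⁻¹ * g)) i p =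
      if i = s then -(1 - Fm M pos' (T 1 : Lau) * L' g) s p
      else (1 - Fm M pos' (T 1 : Lau) * L' g) i p +
        C (kk M i s) * (1 - Fm M pos' (T 1 : Lau) * L' g) s p := by
  have hsJ : s ∈ lK ++ [s] := List.mem_append_right _ (List.mem_singleton_self s)
  -- (B)
  have hB : ∀ i, i ∈ lK ++ [s] → (if p = s then T 1 else 1) *
      (1 - Fm M pos (T 1 : Lau) * L g) i p =
        (if i = s then T 1 else 1) * (1 - Fm M pos' (T 1 : Lau) * L' g) i p := by
    intro i hi
    rw [Matrix.sub_apply, Matrix.sub_apply, Matrix.mul_apply, Matrix.mul_apply, mul_sub, mul_sub,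
      Finset.mul_sum, Finset.mul_sum]
    congr 1
    · by_cases hip : i = p
      · rw [hip]
      · rw [Matrix.one_apply_ne hip, mul_zero, mul_zero]
    · refine Finset.sum_congr rfl fun a _ => ?_
      by_cases ha : a ∈ lK ++ [s]
      · rw [← mul_assoc, ← mul_assoc, stepD_F hs h1 h2 h3 i hi a ha, mul_assoc
          (Fm M pos (T 1 : Lau) i a), conj_pos h h' hs h1 h2 h3 hg a p]
        ring
      · rw [supp_row h hg (i := a) ha p, supp_row h' hg (i := a) ha p, mul_zero, mul_zero,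
          mul_zero, mul_zero]
  -- (A)
  have hFss : Fm M pos (T 1 : Lau) s s = 1 + T 1 := by
    unfold Fm
    rw [Matrix.of_apply, if_pos rfl]
  have hT : (T 1 : Lau) * T (-1) = 1 := by
    rw [← T_add]
    exact T_zero
  have hA : (1 - Fm M pos (T 1 : Lau) * L ((σ s)⁻¹ * g)) i p =
      (1 - Fm M pos (T 1 : Lau) * L g) i p -
        Fm M pos (T 1 : Lau) i s * T (-1) * (1 - Fm M pos (T 1 : Lau) * L g) s p := by
    rw [rm_mul h, gen_inv h hFss hT, Matrix.sub_mul, Matrix.one_mul, Matrix.sub_apply]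
    congr 1
    rw [Matrix.mul_apply, Finset.sum_eq_single s]
    · congr 1
      rw [Matrix.mul_apply, Finset.sum_eq_single s]
      · rw [Matrix.single_apply_same]
      · intro b _ hb
        rw [Matrix.single_apply, if_neg (fun hh => hb hh.1.symm), mul_zero]
      · intro hh
        exact absurd (Finset.mem_univ s) hh
    · intro b _ hb
      have e0 : (Fm M pos (T 1 : Lau) * Matrix.single s s (T (-1) : Lau)) i b = 0 := by
        rw [Matrix.mul_apply]
        refine Finset.sum_eq_zero fun c _ => ?_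
        rw [Matrix.single_apply, if_neg (fun hh => hb hh.2.symm), mul_zero]
      rw [e0, zero_mul]
    · intro hh
      exact absurd (Finset.mem_univ s) hh
  have hBi := hB i hi
  have hBs := hB s hsJ
  rw [if_pos rfl] at hBs
  rw [hA]
  by_cases his : i = s
  · subst his
    rw [if_pos rfl] at hBi ⊢
    rw [hFss]
    linear_combination (1 - (1 + T 1) * T (-1)) * hBi -
      (1 + T 1) * (1 - Fm M pos' (T 1 : Lau) * L' g) i p * hT
  · have hiK : i ∈ lK := by
      rcases List.mem_append.1 hi with hh | hh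
      · exact hh
      · exact absurd (List.mem_singleton.1 hh) his
    have hFis : Fm M pos (T 1 : Lau) i s = -C (kk M i s) := by
      unfold Fm
      rw [Matrix.of_apply, if_neg his, if_neg (h1 i hiK).not_gt, mul_one]
      rfl
    rw [if_neg his] at hBi ⊢
    rw [hFis]
    linear_combination hBi + C (kk M i s) * T (-1) * hBs +
      C (kk M i s) * (1 - Fm M pos' (T 1 : Lau) * L' g) s p * hT

theorem dual_step (h : IsRep (Fm M pos (T 1 : Lau)) σ L)
    (h' : IsRep (Fm M pos' (T 1 : Lau)) σ L') (hlf : IsLift cs σ lift) {lK : List S} {s : S}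
    (hs : s ∉ lK) (h1 : ∀ i ∈ lK, pos i < pos s) (h2 : ∀ i ∈ lK, pos' s < pos' i)
    (h3 : ∀ i ∈ lK, ∀ j ∈ lK, (pos i < pos j ↔ pos' i < pos' j)) {u : W}
    (hu : u ∈ WP cs {i | i ∈ lK ++ [s]}) (hus : cs.IsRightDescent u s) {β : S → ℝ}
    (hβ : β ∈ Dual cs (Fm M pos (T 1 : Lau)) L lift (lK ++ [s]) u) :
    rf M s β ∈ Dual cs (Fm M pos' (T 1 : Lau)) L' lift (s :: lK) (u * cs.simple s) := by
  have hmem : ∀ i, i ∈ s :: lK ↔ i ∈ lK ++ [s] := fun i => by
    rw [List.mem_cons, List.mem_append, List.mem_singleton, or_comm]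
  have hset : {i | i ∈ s :: lK} = {i | i ∈ lK ++ [s]} := Set.ext hmem
  have hsJ : s ∈ lK ++ [s] := List.mem_append_right _ (List.mem_singleton_self s)
  have hrf : ∀ i, i ≠ s → rf M s β i = β i := fun i hi => Function.update_of_ne hi _ _
  have hrs : rf M s β s = -β s + ∑ i ∈ Finset.univ.erase s, kk M i s * β i :=
    Function.update_self _ _ _
  refine ⟨fun q hq => ?_, fun v hv p hp m hY => ?_⟩
  · have hqs : q ≠ s := fun e => hq (e ▸ List.mem_cons_self)
    rw [hrf q hqs]
    exact hβ.1 q fun hh => hq ((hmem q).2 hh)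
  rw [hset] at hv
  obtain ⟨g, hgdef⟩ : ∃ g, g = (lift (u * cs.simple s))⁻¹ * lift v := ⟨_, rfl⟩
  have hus' : u * cs.simple s ∈ WP cs {i | i ∈ lK ++ [s]} :=
    mul_mem hu ((simple_mem_WP_iff cs).2 hsJ)
  have hg : g ∈ GP σ {i | i ∈ lK ++ [s]} := by
    rw [hgdef]
    exact mul_mem (inv_mem (lift_mem_GP hlf hus')) (lift_mem_GP hlf hv)
  have hg1 : (lift u)⁻¹ * lift v = (σ s)⁻¹ * g := by
    rw [lift_descent hlf hus, hgdef]
    group
  have hkey : ∀ i ∈ lK ++ [s], (if p = s then T 1 else 1) *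
      Ym (Fm M pos (T 1 : Lau)) L lift u v i p =
      if i = s then -Ym (Fm M pos' (T 1 : Lau)) L' lift (u * cs.simple s) v s p
      else Ym (Fm M pos' (T 1 : Lau)) L' lift (u * cs.simple s) v i p +
        C (kk M i s) * Ym (Fm M pos' (T 1 : Lau)) L' lift (u * cs.simple s) v s p := by
    intro i hi
    unfold Ym
    rw [hg1, ← hgdef]
    exact stepD_key h h' hs h1 h2 h3 hg p i hi
  obtain ⟨Y', hY'⟩ : ∃ Y' : S → Lau, ∀ i, Y' i =
    Ym (Fm M pos' (T 1 : Lau)) L' lift (u * cs.simple s) v i p := ⟨_, fun _ => rfl⟩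
  obtain ⟨e, he⟩ : ∃ e : ℕ, e = if p = s then 1 else 0 := ⟨_, rfl⟩
  have hTe : (if p = s then T 1 else 1 : Lau) = T (e : ℤ) := by
    rw [he]
    split_ifs
    · rfl
    · exact T_zero.symm
  have hcoef : ∀ i ∈ lK ++ [s], ∀ n : ℤ,
      (Ym (Fm M pos (T 1 : Lau)) L lift u v i p).coeff n =
        if i = s then -(Y' s).coeff (n + e) else
          (Y' i).coeff (n + e) + kk M i s * (Y' s).coeff (n + e) := by
    intro i hi n
    have e1 := hkey i hi
    rw [← hY', ← hY', hTe] at e1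
    have e2 := congrArg (fun f : Lau => f.coeff (n + e)) e1
    beta_reduce at e2
    rw [coeff_T_mul, add_sub_cancel_right] at e2
    rw [e2]
    split_ifs
    · rw [AddMonoidAlgebra.coeff_neg, Finsupp.neg_apply]
    · rw [AddMonoidAlgebra.coeff_add, Finsupp.add_apply, coeff_C_mul]
  have hY0 : ∀ i ∈ lK ++ [s], ∀ n : ℤ, n < -(m : ℤ) → (Y' i).coeff n = 0 := by
    intro i hi n hn
    rw [hY']
    exact hY i ((hmem i).2 hi) n hn
  have h4 := hβ.2 v hv p ((hmem p).1 hp) (m + e) (fun q hq n hn => by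
    push_cast at hn
    rw [hcoef q hq n, hY0 q hq (n + e) (by omega), hY0 s hsJ (n + e) (by omega)]
    simp)
  refine h4.trans (le_of_eq ?_)
  have h5 : ∀ q, β q * (Ym (Fm M pos (T 1 : Lau)) L lift u v q p).coeff (-((m + e : ℕ) : ℤ)) =
      β q * (if q = s then -(Y' s).coeff (-(m : ℤ)) else
          (Y' q).coeff (-(m : ℤ)) + kk M q s * (Y' s).coeff (-(m : ℤ))) := by
    intro q
    by_cases hq : q ∈ lK ++ [s]
    · rw [hcoef q hq]
      have e1 : -((m + e : ℕ) : ℤ) + e = -(m : ℤ) := by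
        push_cast
        ring
      rw [e1]
    · rw [hβ.1 q hq, zero_mul, zero_mul]
  rw [Finset.sum_congr rfl fun q _ => h5 q,
    ← Finset.add_sum_erase Finset.univ _ (Finset.mem_univ s),
    ← Finset.add_sum_erase (a := s) Finset.univ (fun q => rf M s β q *
      (Ym (Fm M pos' (T 1 : Lau)) L' lift (u * cs.simple s) v q p).coeff (-(m : ℤ)))
      (Finset.mem_univ s), if_pos rfl]
  simp only [← hY']
  rw [hrs, add_mul, add_assoc, Finset.sum_mul, ← Finset.sum_add_distrib]
  congr 1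
  · ring
  · refine Finset.sum_congr rfl fun q hq => ?_
    have hqs : q ≠ s := Finset.ne_of_mem_erase hq
    rw [if_neg hqs, hrf q hqs]
    ring

end H42.NU
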